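import Pool.Agent.Helper125.Lamp

set_option autoImplicit false
open scoped Pointwise

namespace Pool.Agent.Helper125

/-- covering lemma, upper bound -/
lemma cover_le {α Q Q' β : Type} (V : Set α) (hV : V.Finite) (f : α → Q) (f' : α → Q') (Bad : Set β)
    (hBad : Bad.Finite) (g : β → α)
    (H : ∀ v ∈ V, ∀ v' ∈ V, f v = f v' → f' v ≠ f' v' → ∃ b ∈ Bad, f' (g b) = f' v') :
    (f' '' V).ncard ≤ (f '' V).ncard + Bad.ncard := by
  classical
  rcases V.eq_empty_or_nonempty with rfl | ⟨v0, hv0⟩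
  · simp
  have : Nonempty α := ⟨v0⟩
  have hsub : f' '' V ⊆ ((fun ξ => f' (Function.invFunOn f V ξ)) '' (f '' V)) ∪ ((fun b => f' (g b)) '' Bad) := by
    rintro _ ⟨v', hv', rfl⟩
    have hm : f v' ∈ f '' V := ⟨v', hv', rfl⟩
    have h1 : Function.invFunOn f V (f v') ∈ V := Function.invFunOn_mem hm
    have h2 : f (Function.invFunOn f V (f v')) = f v' := Function.invFunOn_eq hm
    by_cases h : f' (Function.invFunOn f V (f v')) = f' v'
    · left
      exact ⟨f v', hm, h⟩
    · right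
      obtain ⟨b, hb, hb'⟩ := H _ h1 v' hv' h2 h
      exact ⟨b, hb, hb'⟩
  calc (f' '' V).ncard ≤ (((fun ξ => f' (Function.invFunOn f V ξ)) '' (f '' V)) ∪ ((fun b => f' (g b)) '' Bad)).ncard :=
        Set.ncard_le_ncard hsub (((hV.image f).image _).union (hBad.image _))
    _ ≤ ((fun ξ => f' (Function.invFunOn f V ξ)) '' (f '' V)).ncard + ((fun b => f' (g b)) '' Bad).ncard :=
        Set.ncard_union_le _ _
    _ ≤ (f '' V).ncard + Bad.ncard :=
        Nat.add_le_add (Set.ncard_image_le (hV.image f)) (Set.ncard_image_le hBad)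

/-- covering lemma, lower bound -/
lemma cover_ge {α Q Q' τ : Type} (V : Set α) (hV : V.Finite) (f : α → Q) (f' : α → Q')
    (hff : ∀ v ∈ V, ∀ v' ∈ V, f' v = f' v' → f v = f v') (T : Finset τ) (a b : τ → α)
    (ha : ∀ t ∈ T, a t ∈ V) (hb : ∀ t ∈ T, b t ∈ V) (hab : ∀ t ∈ T, f (a t) = f (b t))
    (hab' : ∀ t ∈ T, f' (a t) ≠ f' (b t)) (hinj : ∀ t ∈ T, ∀ t' ∈ T, f (a t) = f (a t') → t = t') :
    (f '' V).ncard + T.card ≤ (f' '' V).ncard := by
  classical
  rcases V.eq_empty_or_nonempty with rfl | ⟨v0, hv0⟩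
  · have : T = ∅ := by
      by_contra h
      obtain ⟨t, ht⟩ := Finset.nonempty_iff_ne_empty.mpr h
      exact absurd (ha t ht) (by simp)
    simp [this]
  have : Nonempty α := ⟨v0⟩
  set rep : Q → α := fun ξ => Function.invFunOn f V ξ with hrep
  have hr1 : ∀ ξ ∈ f '' V, rep ξ ∈ V := fun ξ hξ => Function.invFunOn_mem hξ
  have hr2 : ∀ ξ ∈ f '' V, f (rep ξ) = ξ := fun ξ hξ => Function.invFunOn_eq hξ
  set c : τ → α := fun t => if f' (a t) = f' (rep (f (a t))) then b t else a t with hc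
  have hc1 : ∀ t ∈ T, c t ∈ V := by
    intro t ht
    simp only [hc]
    split_ifs
    · exact hb t ht
    · exact ha t ht
  have hc2 : ∀ t ∈ T, f (c t) = f (a t) := by
    intro t ht
    simp only [hc]
    split_ifs
    · exact (hab t ht).symm
    · rfl
  have hc3 : ∀ t ∈ T, f' (c t) ≠ f' (rep (f (a t))) := by
    intro t ht
    simp only [hc]
    split_ifs with h
    · rw [← h]
      exact fun h' => hab' t ht h'.symm
    · exact h
  set R : Set Q' := (fun ξ => f' (rep ξ)) '' (f '' V) with hR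
  set S : Set Q' := (fun t => f' (c t)) '' (T : Set τ) with hS
  have hRc : R.ncard = (f '' V).ncard := by
    apply Set.InjOn.ncard_image
    intro ξ hξ ξ' hξ' h
    have := hff _ (hr1 ξ hξ) _ (hr1 ξ' hξ') h
    rwa [hr2 ξ hξ, hr2 ξ' hξ'] at this
  have hSc : S.ncard = T.card := by
    rw [hS, Set.InjOn.ncard_image, Set.ncard_coe_finset]
    intro t ht t' ht' h
    have := hff _ (hc1 t ht) _ (hc1 t' ht') h
    rw [hc2 t ht, hc2 t' ht'] at this
    exact hinj t ht t' ht' this
  have hdisj : Disjoint R S := by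
    rw [Set.disjoint_left]
    rintro x ⟨ξ, hξ, rfl⟩ ⟨t, ht, h⟩
    have h1 := hff _ (hc1 t ht) _ (hr1 ξ hξ) h
    rw [hc2 t ht, hr2 ξ hξ] at h1
    apply hc3 t ht
    rw [h1]; exact h
  have hRf : R.Finite := (hV.image f).image _
  have hSf : S.Finite := (Finset.finite_toSet T).image _
  rw [← hRc, ← hSc, ← Set.ncard_union_eq hdisj hRf hSf]
  apply Set.ncard_le_ncard _ (hV.image f')
  rintro x (⟨ξ, hξ, rfl⟩ | ⟨t, ht, rfl⟩)
  · exact ⟨_, hr1 ξ hξ, rfl⟩
  · exact ⟨_, hc1 t ht, rfl⟩

namespace Lg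
open Gam
variable {G : Type} [Group G]

lemma val_mul (b : Bool) (s s' : G) (e e' : Bool) : val (b, s, e) * val (b, s', e') = val (b, s * s', xor e e') := by
  apply ext'
  · intro u o
    rw [mul_lamp]
    simp only [val]
    have h := tst_mul b o u s
    by_cases ht : tst b o u
    · have ht' := h.mpr ht
      cases e <;> cases e' <;> simp [ht, ht', KK_sq]
    · have ht' : ¬ tst b o ((inc b s)⁻¹ * u) := fun h' => ht (h.mp h')
      simp [ht, ht']
  · simp [val]

lemma val_one (b : Bool) : val (b, (1 : G), false) = 1 := by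
  apply ext'
  · intro u o; simp [val]
  · simp [val]

/-- the two finite subgroups -/
def Fb (b : Bool) : Subgroup (Lg G) where
  carrier := {g | ∃ s e, g = val (b, s, e)}
  mul_mem' := by
    rintro x y ⟨s, e, rfl⟩ ⟨s', e', rfl⟩
    exact ⟨_, _, val_mul b s s' e e'⟩
  one_mem' := ⟨1, false, (val_one b).symm⟩
  inv_mem' := by
    rintro x ⟨s, e, rfl⟩
    refine ⟨s⁻¹, e, ?_⟩
    rw [inv_eq_iff_mul_eq_one, val_mul]
    simp [val_one]

lemma mem_Fb (b : Bool) (x : Lg G) : x ∈ Fb b ↔ ∃ s e, x = val (b, s, e) := Iff.rfl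

lemma val_mem (b : Bool) (s : G) (e : Bool) : val (b, s, e) ∈ (Fb b : Subgroup (Lg G)) := ⟨s, e, rfl⟩

lemma Fb_eq (b : Bool) : ((Fb b : Subgroup (Lg G)) : Set (Lg G)) = Set.range (fun x : G × Bool => val (b, x.1, x.2)) := by
  ext x
  constructor
  · rintro ⟨s, e, rfl⟩; exact ⟨(s, e), rfl⟩
  · rintro ⟨x, rfl⟩; exact ⟨x.1, x.2, rfl⟩

lemma Fb_finite [Finite G] (b : Bool) : ((Fb b : Subgroup (Lg G)) : Set (Lg G)).Finite := by
  rw [Fb_eq]; exact Set.finite_range _

instance [Finite G] (b : Bool) : Finite (Fb b : Subgroup (Lg G)) := Fb_finite b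

/-- products of alternating letters -/
def V (G : Type) [Group G] (j : ℕ) : Set (Lg G) :=
  ((Fb true : Subgroup (Lg G)) : Set (Lg G)) *
    (((Fb false : Subgroup (Lg G)) : Set (Lg G)) * ((Fb true : Subgroup (Lg G)) : Set (Lg G))) ^ j

lemma V_zero : V G 0 = ((Fb true : Subgroup (Lg G)) : Set (Lg G)) := by simp [V]

lemma V_succ (j : ℕ) : V G (j+1) = V G j *
    (((Fb false : Subgroup (Lg G)) : Set (Lg G)) * ((Fb true : Subgroup (Lg G)) : Set (Lg G))) := by
  rw [V, V, pow_succ, mul_assoc]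

lemma V_finite [Finite G] (j : ℕ) : (V G j).Finite := by
  have h1 : ∀ b, (((Fb b : Subgroup (Lg G)) : Set (Lg G))).Finite := Fb_finite
  induction j with
  | zero => rw [V_zero]; exact h1 true
  | succ j ih => rw [V_succ]; exact ih.mul ((h1 _).mul (h1 _))

lemma V_mono {i j : ℕ} (h : i ≤ j) : V G i ⊆ V G j := by
  induction j, h using Nat.le_induction with
  | base => exact subset_rfl
  | succ j _ ih =>
    refine ih.trans ?_
    rw [V_succ]
    intro x hx
    have := Set.mul_mem_mul hx (Set.mul_mem_mul (Subgroup.one_mem (Fb false : Subgroup (Lg G)))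
      (Subgroup.one_mem (Fb true : Subgroup (Lg G))))
    simpa using this

lemma V_right (j : ℕ) {v φ : Lg G} (hv : v ∈ V G j) (hφ : φ ∈ (Fb true : Subgroup (Lg G))) : v * φ ∈ V G j := by
  rcases j with _ | j
  · rw [V_zero] at hv ⊢
    exact (Fb true).mul_mem hv hφ
  · rw [V_succ] at hv ⊢
    obtain ⟨x, hx, y, hy, rfl⟩ := Set.mem_mul.mp hv
    obtain ⟨p, hp, f, hf, rfl⟩ := Set.mem_mul.mp hy
    rw [mul_assoc, mul_assoc]
    exact Set.mul_mem_mul hx (Set.mul_mem_mul hp ((Fb true).mul_mem hf hφ))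

lemma V_word (j : ℕ) : ∀ v ∈ V G j, ∃ w : List (Lw G), w.length = 2 * j + 1 ∧ vl w = v := by
  induction j with
  | zero =>
    intro v hv
    rw [V_zero] at hv
    obtain ⟨s, e, rfl⟩ := hv
    exact ⟨[(true, s, e)], rfl, by simp [vl]⟩
  | succ j ih =>
    intro v hv
    rw [V_succ] at hv
    obtain ⟨x, hx, y, hy, rfl⟩ := Set.mem_mul.mp hv
    obtain ⟨p, ⟨s, e, rfl⟩, f, ⟨s', e', rfl⟩, rfl⟩ := Set.mem_mul.mp hy
    obtain ⟨w, hw, rfl⟩ := ih x hx
    refine ⟨w ++ [(false, s, e), (true, s', e')], ?_, ?_⟩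
    · simp [hw]; ring
    · rw [vl_append]; simp [vl]

/-- formal inverse of a word -/
def winv (w : List (Lw G)) : List (Lw G) := (w.map (fun x => (x.1, x.2.1⁻¹, x.2.2))).reverse

lemma winv_length (w : List (Lw G)) : (winv w).length = w.length := by simp [winv]

lemma vl_winv (w : List (Lw G)) : vl (winv w) = (vl w)⁻¹ := by
  induction w with
  | nil => simp [winv, vl]
  | cons x w ih =>
    have h1 : winv (x :: w) = winv w ++ [(x.1, x.2.1⁻¹, x.2.2)] := by simp [winv]
    rw [h1, vl_append, ih, vl_cons x w, mul_inv_rev]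
    congr 1
    rw [vl_cons, vl_nil, mul_one, eq_comm, inv_eq_iff_mul_eq_one]
    obtain ⟨b, s, e⟩ := x
    simp only
    rw [val_mul]
    simp [val_one]

open Classical in
/-- forget the lamps outside `E` -/
noncomputable def mk' (E : Set (Ix G)) : Lg G →* Lg G where
  toFun a := ⟨fun u o => if o ∈ E then a.lamp u o else 1, a.pos⟩
  map_one' := by
    apply ext'
    · intro u o; simp
    · simp
  map_mul' a b := by
    apply ext'
    · intro u o
      by_cases h : o ∈ E <;> simp [h]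
    · simp

@[simp] lemma mk'_pos (E : Set (Ix G)) (a : Lg G) : (mk' E a).pos = a.pos := rfl
lemma mk'_lamp_mem (E : Set (Ix G)) (a : Lg G) (u : Gam G) (o : Ix G) (h : o ∈ E) :
    (mk' E a).lamp u o = a.lamp u o := by simp [mk', h]
lemma mk'_lamp_not (E : Set (Ix G)) (a : Lg G) (u : Gam G) (o : Ix G) (h : o ∉ E) :
    (mk' E a).lamp u o = 1 := by simp [mk', h]

lemma mk'_eq_iff (E : Set (Ix G)) (a b : Lg G) :
    mk' E a = mk' E b ↔ a.pos = b.pos ∧ ∀ o ∈ E, ∀ u, a.lamp u o = b.lamp u o := by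
  constructor
  · intro h
    refine ⟨?_, fun o ho u => ?_⟩
    · have := congrArg Lg.pos h
      rwa [mk'_pos, mk'_pos] at this
    rw [← mk'_lamp_mem E a u o ho, h, mk'_lamp_mem E b u o ho]
  · rintro ⟨h1, h2⟩
    apply ext'
    · intro u o
      by_cases h : o ∈ E
      · rw [mk'_lamp_mem E a u o h, mk'_lamp_mem E b u o h, h2 o h u]
      · rw [mk'_lamp_not E a u o h, mk'_lamp_not E b u o h]
    · exact h1

/-- coset map -/
noncomputable def cos (E : Set (Ix G)) (v : Lg G) : Lg G ⧸ ((Fb true : Subgroup (Lg G)).map (mk' E)) :=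
  QuotientGroup.mk (mk' E v)

lemma cos_eq_iff (E : Set (Ix G)) (v v' : Lg G) :
    cos E v = cos E v' ↔ ∃ φ ∈ (Fb true : Subgroup (Lg G)), mk' E φ = mk' E (v⁻¹ * v') := by
  rw [cos, cos, QuotientGroup.eq, Subgroup.mem_map, ← map_inv, ← map_mul]

lemma mk'_sub {E E' : Set (Ix G)} (h : E ⊆ E') {a b : Lg G} (hab : mk' E' a = mk' E' b) : mk' E a = mk' E b := by
  rw [mk'_eq_iff] at hab ⊢
  exact ⟨hab.1, fun o ho u => hab.2 o (h ho) u⟩

lemma cos_sub {E E' : Set (Ix G)} (h : E ⊆ E') {a b : Lg G} (hab : cos E' a = cos E' b) : cos E a = cos E b := by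
  rw [cos_eq_iff] at hab ⊢
  obtain ⟨φ, hφ, h1⟩ := hab
  exact ⟨φ, hφ, mk'_sub h h1⟩

lemma cos_right (E : Set (Ix G)) {v φ : Lg G} (hφ : φ ∈ (Fb true : Subgroup (Lg G))) : cos E (v * φ) = cos E v := by
  rw [cos_eq_iff]
  exact ⟨φ⁻¹, (Fb true).inv_mem hφ, by group⟩

/-- number of cosets met -/
noncomputable def NN (E : Set (Ix G)) (j : ℕ) : ℕ := ((cos E) '' (V G j)).ncard

lemma NN_mono [Finite G] {E E' : Set (Ix G)} (h : E ⊆ E') (j : ℕ) : NN E j ≤ NN E' j := by
  have := cover_ge (V G j) (V_finite j) (cos E) (cos E') (fun v _ v' _ hvv => cos_sub h hvv) (∅ : Finset ℕ)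
    (fun _ => 1) (fun _ => 1) (by simp) (by simp) (by simp) (by simp) (by simp)
  rw [Finset.card_empty, add_zero] at this
  exact this

/-- adding one index: upper bound -/
lemma NN_insert_le [Finite G] (E : Set (Ix G)) (hE : none ∈ E) (L : List (Nt G × Nt G)) (j : ℕ) :
    NN (insert (some L) E) j ≤ NN E j + ((Wn (Pat false L) (4*j+2)).ncard + (Wn (Pat true L) (4*j+2)).ncard) := by
  have hfin : ∀ c, (Wn (Pat c L) (4*j+2)).Finite := fun c => Wn_finite _ _
  refine le_trans (cover_le (V G j) (V_finite j) (cos E) (cos (insert (some L) E))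
    (Wn (Pat false L) (4*j+2) ∪ Wn (Pat true L) (4*j+2)) ((hfin _).union (hfin _))
    (fun w => vl (w.drop (2*j+1))) ?_) ?_
  · intro v hv v' hv' hf hf'
    rw [cos_eq_iff] at hf
    obtain ⟨φ, hφ, h1⟩ := hf
    set v'' := v' * φ⁻¹ with hv''
    have hm : v'' ∈ V G j := V_right j hv' ((Fb true).inv_mem hφ)
    have hc : cos (insert (some L) E) v'' = cos (insert (some L) E) v' := cos_right _ ((Fb true).inv_mem hφ)
    have h2 : mk' E (v⁻¹ * v'') = 1 := by
      rw [hv'', ← mul_assoc, map_mul, ← h1, ← map_mul, mul_inv_cancel, map_one]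
    obtain ⟨w1, hw1, e1⟩ := V_word j v hv
    obtain ⟨w2, hw2, e2⟩ := V_word j v'' hm
    set w := winv w1 ++ w2 with hw
    have hlen : w.length = 4 * j + 2 := by
      rw [hw, List.length_append, winv_length, hw1, hw2]; ring
    have hvl : vl w = v⁻¹ * v'' := by rw [hw, vl_append, vl_winv, e1, e2]
    have hdrop : w.drop (2*j+1) = w2 := by
      rw [hw]
      have : 2 * j + 1 = (winv w1).length := by rw [winv_length, hw1]
      rw [this, List.drop_left]
    have h2' := h2
    rw [← map_one (mk' E), mk'_eq_iff] at h2'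
    have hne : mk' (insert (some L) E) (v⁻¹ * v'') ≠ 1 := by
      intro h
      apply hf'
      rw [← hc, cos_eq_iff]
      exact ⟨1, Subgroup.one_mem _, by rw [h, map_one]⟩
    have hex : ∃ u, (vl w).lamp u (some L) ≠ 1 := by
      by_contra hcon
      push Not at hcon
      apply hne
      rw [← map_one (mk' _), mk'_eq_iff]
      refine ⟨h2'.1, ?_⟩
      intro o ho u
      rcases ho with rfl | ho
      · rw [← hvl, hcon u]; rfl
      · exact h2'.2 o ho u
    obtain ⟨u, hu⟩ := hex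
    obtain ⟨c, hP⟩ := mem_Pat L w (by rw [hvl]; exact h2'.1)
      (by intro u; rw [hvl]; exact h2'.2 none hE u) u hu
    refine ⟨w, ?_, ?_⟩
    · cases c
      · left; exact ⟨hlen, hP⟩
      · right; exact ⟨hlen, hP⟩
    · simp only [hdrop]
      rw [e2, hc]
  · exact Nat.add_le_add_left (Set.ncard_union_le _ _) _

/-- finite support -/
lemma NN_fin [Finite G] (E : Set (Ix G)) (j : ℕ) :
    ∃ E0 : Set (Ix G), E0.Finite ∧ E0 ⊆ E ∧ ∀ E'', E0 ⊆ E'' → NN E j ≤ NN E'' j := by
  classical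
  have hF := Fb_finite (G := G) true
  have hV := V_finite (G := G) j
  have key : ∀ x : (Lg G × Lg G) × Lg G, ∃ S : Set (Ix G), S.Finite ∧ S ⊆ E ∧ ∀ E'', S ⊆ E'' →
      mk' E'' x.2 = mk' E'' (x.1.1⁻¹ * x.1.2) → mk' E x.2 = mk' E (x.1.1⁻¹ * x.1.2) := by
    intro x
    by_cases h : mk' E x.2 = mk' E (x.1.1⁻¹ * x.1.2)
    · exact ⟨∅, Set.finite_empty, Set.empty_subset _, fun _ _ _ => h⟩
    · by_cases hp : x.2.pos = (x.1.1⁻¹ * x.1.2).pos
      · have : ∃ o ∈ E, ∃ u, x.2.lamp u o ≠ (x.1.1⁻¹ * x.1.2).lamp u o := by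
          by_contra hcon
          push Not at hcon
          exact h ((mk'_eq_iff _ _ _).mpr ⟨hp, fun o ho u => hcon o ho u⟩)
        obtain ⟨o, ho, u, hu⟩ := this
        refine ⟨{o}, Set.finite_singleton _, Set.singleton_subset_iff.mpr ho, ?_⟩
        intro E'' hs he
        rw [mk'_eq_iff] at he
        exact absurd (he.2 o (hs (Set.mem_singleton _)) u) hu
      · refine ⟨∅, Set.finite_empty, Set.empty_subset _, fun E'' _ he => ?_⟩
        exact absurd ((mk'_eq_iff _ _ _).mp he).1 hp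
  choose S hS1 hS2 hS3 using key
  set Z : Set ((Lg G × Lg G) × Lg G) := (V G j ×ˢ V G j) ×ˢ ((Fb true : Subgroup (Lg G)) : Set (Lg G)) with hZ
  have hZf : Z.Finite := (hV.prod hV).prod hF
  refine ⟨⋃ x ∈ Z, S x, hZf.biUnion (fun x _ => hS1 x), Set.iUnion₂_subset (fun x _ => hS2 x), ?_⟩
  intro E'' hE''
  have := cover_ge (V G j) hV (cos E) (cos E'') ?_ (∅ : Finset ℕ)
    (fun _ => 1) (fun _ => 1) (by simp) (by simp) (by simp) (by simp) (by simp)
  · rw [Finset.card_empty, add_zero] at this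
    exact this
  · intro v hv v' hv' h
    rw [cos_eq_iff] at h ⊢
    obtain ⟨φ, hφ, h1⟩ := h
    refine ⟨φ, hφ, ?_⟩
    have hz : ((v, v'), φ) ∈ Z := ⟨⟨hv, hv'⟩, hφ⟩
    exact hS3 ((v, v'), φ) E'' ((Set.subset_biUnion_of_mem (u := S) hz).trans hE'') h1

/-- pure translation -/
def tr (g : Gam G) : Lg G := ⟨fun _ _ => 1, g⟩

@[simp] lemma tr_pos (g : Gam G) : (tr g).pos = g := rfl
@[simp] lemma tr_lamp (g u : Gam G) (o : Ix G) : (tr g).lamp u o = 1 := rfl

lemma tr_mul (g h : Gam G) : tr g * tr h = tr (g * h) := by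
  apply ext'
  · intro u o; simp
  · simp

lemma tr_one : tr (1 : Gam G) = 1 := by
  apply ext'
  · intro u o; simp
  · simp

lemma tr_inv (g : Gam G) : (tr g)⁻¹ = tr g⁻¹ := by
  rw [inv_eq_iff_mul_eq_one, tr_mul, mul_inv_cancel, tr_one]

lemma tr_inc (b : Bool) (s : G) : tr (inc b s) = val (b, s, false) := by
  apply ext'
  · intro u o; simp [val]
  · simp [val]

/-- the two subgroups as sets -/
def SF (G : Type) [Group G] (b : Bool) : Set (Lg G) := ((Fb b : Subgroup (Lg G)) : Set (Lg G))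

lemma V_def (j : ℕ) : V G j = SF G true * (SF G false * SF G true) ^ j := rfl

lemma hh_cons (x : Nt G × Nt G) (L : List (Nt G × Nt G)) :
    hh (x :: L) = inc true x.1.1 * (inc false x.2.1 * hh L) := by
  rw [hh, toL_cons, ev_cons, ev_cons]; rfl

lemma hh_nil : hh ([] : List (Nt G × Nt G)) = 1 := rfl

lemma tr_hh_mem (L : List (Nt G × Nt G)) : tr (hh L) ∈ (SF G true * SF G false) ^ L.length := by
  induction L with
  | nil => rw [hh_nil, tr_one, List.length_nil, pow_zero]; exact Set.mem_one.mpr rfl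
  | cons x L ih =>
    rw [hh_cons, ← tr_mul, ← tr_mul, tr_inc, tr_inc, List.length_cons, pow_succ', ← mul_assoc]
    exact Set.mul_mem_mul (Set.mul_mem_mul (val_mem _ _ _) (val_mem _ _ _)) ih

lemma tr_hh_inv_mem (L : List (Nt G × Nt G)) : (tr (hh L))⁻¹ ∈ (SF G false * SF G true) ^ L.length := by
  induction L with
  | nil => rw [hh_nil, tr_one, List.length_nil, pow_zero, inv_one]; exact Set.mem_one.mpr rfl
  | cons x L ih =>
    rw [hh_cons, ← tr_mul, ← tr_mul, tr_inc, tr_inc, List.length_cons, pow_succ, ← mul_assoc, mul_inv_rev,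
      mul_inv_rev]
    have h1 : (tr (hh L))⁻¹ * ((val (false, x.2.1, false))⁻¹ * (val (true, x.1.1, false))⁻¹) ∈
        (SF G false * SF G true) ^ L.length * (SF G false * SF G true) :=
      Set.mul_mem_mul ih (Set.mul_mem_mul ((Fb false).inv_mem (val_mem _ _ _)) ((Fb true).inv_mem (val_mem _ _ _)))
    simpa [mul_assoc] using h1

/-- the two elementary toggles -/
noncomputable def ta (G : Type) [Group G] : Lg G := val (false, 1, true)
noncomputable def tb (L : List (Nt G × Nt G)) : Lg G := tr (hh L) * val (true, 1, true) * (tr (hh L))⁻¹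

lemma ta_pos : (ta G).pos = 1 := by simp [ta]
lemma tb_pos (L : List (Nt G × Nt G)) : (tb L).pos = 1 := by simp [tb]

open Classical in
lemma ta_lamp (u : Gam G) (o : Ix G) : (ta G).lamp u o = if tst false o u then KK false else 1 := by
  simp [ta, val]

open Classical in
lemma tb_lamp (L : List (Nt G × Nt G)) (u : Gam G) (o : Ix G) :
    (tb L).lamp u o = if tst true o ((hh L)⁻¹ * u) then KK true else 1 := by
  by_cases h : tst true o ((hh L)⁻¹ * u)
  · simp [tb, val, h]
  · simp [tb, val, h]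

lemma ta_mul_tb_mem (L : List (Nt G × Nt G)) : ta G * tb L ∈ V G (2 * L.length + 1) := by
  have h1 : ta G * tb L ∈ SF G false * ((SF G true * SF G false) ^ L.length * SF G true *
      (SF G false * SF G true) ^ L.length) :=
    Set.mul_mem_mul (val_mem _ _ _) (Set.mul_mem_mul (Set.mul_mem_mul (tr_hh_mem L) (val_mem _ _ _))
      (tr_hh_inv_mem L))
  have h2 : SF G false * ((SF G true * SF G false) ^ L.length * SF G true *
      (SF G false * SF G true) ^ L.length) = (SF G false * SF G true) ^ (2 * L.length + 1) := by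
    rw [mul_pow_mul, ← mul_assoc, ← mul_assoc, mul_assoc, mul_assoc, ← pow_add, ← mul_assoc, ← pow_succ']
    congr 1; ring
  rw [h2] at h1
  rw [V_def]
  have h3 := Set.mul_mem_mul (Subgroup.one_mem (Fb true : Subgroup (Lg G))) h1
  rw [one_mul] at h3
  exact h3

lemma tb_mul_ta_mem (L : List (Nt G × Nt G)) : tb L * ta G ∈ V G (2 * L.length + 1) := by
  have h1 : tb L * ta G ∈ ((SF G true * SF G false) ^ L.length * SF G true *
      (SF G false * SF G true) ^ L.length) * SF G false :=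
    Set.mul_mem_mul (Set.mul_mem_mul (Set.mul_mem_mul (tr_hh_mem L) (val_mem _ _ _))
      (tr_hh_inv_mem L)) (val_mem _ _ _)
  have h4 : tb L * ta G * 1 ∈ ((SF G true * SF G false) ^ L.length * SF G true *
      (SF G false * SF G true) ^ L.length) * SF G false * SF G true :=
    Set.mul_mem_mul h1 (Subgroup.one_mem (Fb true : Subgroup (Lg G)))
  rw [mul_one] at h4
  have h2 : ((SF G true * SF G false) ^ L.length * SF G true *
      (SF G false * SF G true) ^ L.length) * SF G false * SF G true =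
      SF G true * (SF G false * SF G true) ^ (2 * L.length + 1) := by
    rw [mul_pow_mul, mul_assoc, mul_assoc, mul_assoc, ← pow_succ, ← pow_add]
    congr 2; ring
  rw [h2] at h4
  exact h4

lemma hh_inj_aux {L L' : List (Nt G × Nt G)} {s s' : G} (h : inc false s * hh L * inc true s' = hh L') : L = L' :=
  mkl_inj s L s' L' h

lemma tst_false_iff (o : Ix G) (u : Gam G) : tst false o u ↔ ∃ s, u = inc false s := by
  unfold tst; rw [sh_false, mul_one]

lemma tst_true_iff (o : Ix G) (u : Gam G) : tst true o u ↔ ∃ s, u * hm o = inc true s := by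
  unfold tst; rw [sh_true]

lemma not_tst_base {L : List (Nt G × Nt G)} (hL : L ≠ []) : ¬ tst true (none : Ix G) (hh L) := by
  rw [tst_true_iff, hm_none, mul_one]
  rintro ⟨s, hs⟩
  apply hL
  have : inc false (1 : G) * hh ([] : List (Nt G × Nt G)) * inc true s = hh L := by
    rw [map_one, one_mul, hh_nil, one_mul, hs]
  exact (hh_inj_aux this).symm

lemma not_tst_one {L : List (Nt G × Nt G)} (hL : L ≠ []) : ¬ tst true (some L : Ix G) 1 := by
  rw [tst_true_iff, hm_some, one_mul]
  rintro ⟨s, hs⟩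
  apply hL
  have : inc false (1 : G) * hh ([] : List (Nt G × Nt G)) * inc true s = hh L := by
    rw [map_one, one_mul, hh_nil, one_mul, hs]
  exact (hh_inj_aux this).symm

lemma tst_false_one (o : Ix G) : tst false o (1 : Gam G) := by
  rw [tst_false_iff]; exact ⟨1, by simp⟩

lemma NN_ge [Finite G] (E E' : Set (Ix G)) (hE : none ∈ E) (hEE : E ⊆ E') (T : Finset (List (Nt G × Nt G)))
    (j : ℕ) (hT : ∀ L ∈ T, L ≠ [] ∧ some L ∈ E' ∧ some L ∉ E ∧ 2 * L.length + 1 ≤ j) :
    NN E j + T.card ≤ NN E' j := by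
  classical
  refine cover_ge (V G j) (V_finite j) (cos E) (cos E') (fun v _ v' _ hvv => cos_sub hEE hvv) T
    (fun L => ta G * tb L) (fun L => tb L * ta G) ?_ ?_ ?_ ?_ ?_
  · intro L hL
    exact V_mono (hT L hL).2.2.2 (ta_mul_tb_mem L)
  · intro L hL
    exact V_mono (hT L hL).2.2.2 (tb_mul_ta_mem L)
  · intro L hL
    obtain ⟨hne, _, hnot, _⟩ := hT L hL
    have : mk' E (ta G * tb L) = mk' E (tb L * ta G) := by
      rw [mk'_eq_iff]
      refine ⟨by simp [ta_pos, tb_pos], ?_⟩
      intro o ho u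
      rw [mul_lamp, mul_lamp, ta_pos, tb_pos, inv_one, one_mul, ta_lamp, tb_lamp]
      by_cases h1 : tst false o u
      · by_cases h2 : tst true o ((hh L)⁻¹ * u)
        · exfalso
          rw [tst_false_iff] at h1
          rw [tst_true_iff] at h2
          obtain ⟨s, hs⟩ := h1
          obtain ⟨s', hs'⟩ := h2
          have h3 : inc false s⁻¹ * hh L * inc true s' = hm o := by
            rw [← hs', map_inv, ← hs]; group
          rcases o with _ | L'
          · rw [hm_none, ← hh_nil] at h3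
            exact hne (hh_inj_aux h3)
          · rw [hm_some] at h3
            apply hnot
            rw [hh_inj_aux h3]; exact ho
        · simp [h2]
      · simp [h1]
    rw [cos, cos, this]
  · intro L hL
    obtain ⟨hne, hin, _, _⟩ := hT L hL
    intro h
    rw [cos_eq_iff] at h
    obtain ⟨φ, ⟨s, e, rfl⟩, h1⟩ := h
    rw [mk'_eq_iff] at h1
    have h2 := h1.2 (some L) hin 1
    have h3 : (val (true, s, e)).lamp 1 (some L : Ix G) = 1 := by
      simp [val, not_tst_one hne]
    have t1 : tst false (some L : Ix G) 1 := tst_false_one _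
    have t2 : tst true (some L : Ix G) ((hh L)⁻¹ * 1) := by
      rw [tst_true_iff]
      exact ⟨1, by simp⟩
    rw [h3, mul_lamp, inv_lamp, inv_pos', mul_pos', ta_pos, tb_pos] at h2
    simp only [mul_one, inv_one, mul_lamp, ta_pos, tb_pos] at h2
    rw [ta_lamp, tb_lamp, if_pos t1, if_pos t2, eq_comm, inv_mul_eq_one] at h2
    exact KK_comm h2
  · intro L hL L' hL' h
    obtain ⟨hne, _, _, _⟩ := hT L hL
    rw [cos_eq_iff] at h
    obtain ⟨φ, ⟨s, e, rfl⟩, h1⟩ := h
    rw [mk'_eq_iff] at h1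
    have h2 := h1.2 none hE (hh L)
    have h3 : (val (true, s, e)).lamp (hh L) (none : Ix G) = 1 := by
      simp [val, not_tst_base hne]
    rw [h3, mul_lamp, inv_lamp, inv_pos', mul_pos', ta_pos, tb_pos] at h2
    simp only [mul_one, inv_one, one_mul, mul_lamp, ta_pos] at h2
    rw [eq_comm, inv_mul_eq_one] at h2
    have h4 := congrArg (chi true) h2
    rw [map_mul, map_mul] at h4
    have h5 : chi true ((ta G).lamp (hh L) (none : Ix G)) = 1 := by
      rw [ta_lamp]
      have : chi true (KK false) = 1 := chi_other true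
      split_ifs <;> simp [this]
    have t2 : tst true (none : Ix G) ((hh L)⁻¹ * hh L) := by
      rw [tst_true_iff]
      exact ⟨1, by simp⟩
    rw [h5, one_mul, one_mul, tb_lamp, tb_lamp, if_pos t2, chi_same] at h4
    by_cases h6 : tst true (none : Ix G) ((hh L')⁻¹ * hh L)
    · rw [tst_true_iff, hm_none, mul_one] at h6
      obtain ⟨s', hs'⟩ := h6
      have : inc false (1 : G) * hh L' * inc true s' = hh L := by
        rw [map_one, one_mul, ← hs']; group
      exact (hh_inj_aux this).symm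
    · rw [if_neg h6, map_one] at h4
      exact absurd h4 (by decide)

end Lg

end Pool.Agent.Helper125
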