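import Mathlib

set_option autoImplicit false
open scoped Pointwise

namespace Pool.Agent.Helper125

/-- free product of two copies of `G` -/
abbrev Gam (G : Type) [Group G] : Type := Monoid.CoprodI (fun _ : Bool => G)

namespace Gam
open Monoid.CoprodI
variable {G : Type} [Group G]

/-- inclusion of the factors -/
def inc (b : Bool) : G →* Gam G := Monoid.CoprodI.of (M := fun _ : Bool => G) (i := b)

/-- letters -/
abbrev Lt (G : Type) : Type := Σ _ : Bool, G

/-- reduced lists -/
def Red (l : List (Lt G)) : Prop :=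
  (∀ x ∈ l, x.2 ≠ 1) ∧ l.IsChain (fun a b => a.1 ≠ b.1)

/-- product of a list of letters -/
def ev (l : List (Lt G)) : Gam G := (l.map (fun x => inc x.1 x.2)).prod

lemma ev_nil : ev ([] : List (Lt G)) = 1 := rfl
lemma ev_cons (x : Lt G) (l : List (Lt G)) : ev (x :: l) = inc x.1 x.2 * ev l := by
  simp [ev]
lemma ev_append (l l' : List (Lt G)) : ev (l ++ l') = ev l * ev l' := by
  simp [ev]

lemma red_inj {l l' : List (Lt G)} (h : Red l) (h' : Red l') (he : ev l = ev l') : l = l' := by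
  classical
  have h1 : (⟨l, h.1, h.2⟩ : Word (fun _ : Bool => G)).prod = (⟨l', h'.1, h'.2⟩ : Word (fun _ : Bool => G)).prod := he
  have h2 := Word.equiv.symm.injective h1
  exact congrArg Word.toList h2

lemma exists_red (g : Gam G) : ∃ l, Red l ∧ ev l = g := by
  classical
  refine ⟨(Word.equiv g).toList, ⟨(Word.equiv g).ne_one, (Word.equiv g).chain_ne⟩, ?_⟩
  exact Word.equiv.symm_apply_apply g

/-- length -/
noncomputable def len (g : Gam G) : ℕ := (Classical.choose (exists_red g)).length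

lemma len_ev {l : List (Lt G)} (h : Red l) : len (ev l) = l.length := by
  have h1 := Classical.choose_spec (exists_red (ev l))
  rw [len, red_inj h1.1 h h1.2]

lemma len_one : len (1 : Gam G) = 0 := by
  have : Red ([] : List (Lt G)) := ⟨by simp, by simp⟩
  have h := len_ev this
  rwa [ev_nil] at h

/-- splitting off the first letter of type `b` -/
lemma split (b : Bool) (g : Gam G) : ∃ (a : G) (l : List (Lt G)),
    g = inc b a * ev l ∧ Red l ∧ (∀ x ∈ l.head?, x.1 ≠ b) := by
  obtain ⟨l, hl, rfl⟩ := exists_red g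
  rcases l with _ | ⟨x, l⟩
  · exact ⟨1, [], by simp, hl, by simp⟩
  · by_cases hx : x.1 = b
    · refine ⟨x.2, l, ?_, ⟨fun y hy => hl.1 y (List.mem_cons_of_mem _ hy), hl.2.tail⟩, ?_⟩
      · rw [ev_cons, hx]
      · intro y hy
        have := (List.isChain_cons.mp hl.2).1 y hy
        rw [hx] at this
        exact fun h => this h.symm
    · refine ⟨1, x :: l, by simp, hl, ?_⟩
      intro y hy
      simp only [List.head?_cons, Option.mem_def, Option.some.injEq] at hy
      rw [← hy]; exact hx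

lemma len_inc_mul (b : Bool) (a : G) (l : List (Lt G)) (hl : Red l) (hb : ∀ x ∈ l.head?, x.1 ≠ b) :
    (a = 1 → len (inc b a * ev l) = l.length) ∧ (a ≠ 1 → len (inc b a * ev l) = l.length + 1) := by
  constructor
  · rintro rfl
    rw [map_one, one_mul, len_ev hl]
  · intro ha
    have hr : Red ((⟨b, a⟩ : Lt G) :: l) := by
      refine ⟨?_, ?_⟩
      · intro x hx
        rcases List.mem_cons.mp hx with rfl | hx
        · exact ha
        · exact hl.1 x hx
      · rw [List.isChain_cons]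
        exact ⟨fun y hy => fun h => hb y hy h.symm, hl.2⟩
    have := len_ev hr
    rw [ev_cons] at this
    rw [this, List.length_cons]

lemma red_inv {l : List (Lt G)} (h : Red l) : Red ((l.map (fun x => (⟨x.1, x.2⁻¹⟩ : Lt G))).reverse) := by
  refine ⟨?_, ?_⟩
  · intro x hx
    rw [List.mem_reverse, List.mem_map] at hx
    obtain ⟨y, hy, rfl⟩ := hx
    simpa using h.1 y hy
  · rw [List.isChain_reverse, List.isChain_map]
    refine h.2.imp ?_
    intro a b hab
    exact fun hh => hab hh.symm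

lemma ev_inv (l : List (Lt G)) : ev ((l.map (fun x => (⟨x.1, x.2⁻¹⟩ : Lt G))).reverse) = (ev l)⁻¹ := by
  induction l with
  | nil => simp [ev]
  | cons x l ih =>
    rw [List.map_cons, List.reverse_cons, ev_append, ih, ev_cons, ev_cons, ev_nil]
    simp

lemma len_inv (g : Gam G) : len g⁻¹ = len g := by
  obtain ⟨l, hl, rfl⟩ := exists_red g
  rw [← ev_inv, len_ev (red_inv hl), len_ev hl]
  simp


/-- nontrivial elements -/
abbrev Nt (G : Type) [Group G] : Type := {g : G // g ≠ 1}

/-- alternating word attached to a list of pairs -/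
def toL (L : List (Nt G × Nt G)) : List (Lt G) :=
  L.flatMap (fun x => [(⟨true, x.1.1⟩ : Lt G), ⟨false, x.2.1⟩])

/-- the group element attached to a list of pairs -/
def hh (L : List (Nt G × Nt G)) : Gam G := ev (toL L)

lemma toL_nil : toL ([] : List (Nt G × Nt G)) = [] := rfl
lemma toL_cons (x : Nt G × Nt G) (L : List (Nt G × Nt G)) :
    toL (x :: L) = (⟨true, x.1.1⟩ : Lt G) :: ⟨false, x.2.1⟩ :: toL L := by
  simp [toL]

lemma toL_length (L : List (Nt G × Nt G)) : (toL L).length = 2 * L.length := by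
  induction L with
  | nil => rfl
  | cons x L ih => rw [toL_cons, List.length_cons, List.length_cons, ih, List.length_cons]; ring

lemma toL_inj : Function.Injective (toL : List (Nt G × Nt G) → List (Lt G)) := by
  intro L
  induction L with
  | nil =>
    intro L' h
    rcases L' with _ | ⟨y, L'⟩
    · rfl
    · rw [toL_cons, toL_nil] at h
      exact absurd h (by simp)
  | cons x L ih =>
    intro L' h
    rcases L' with _ | ⟨y, L'⟩
    · rw [toL_cons, toL_nil] at h
      exact absurd h (by simp)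
    · rw [toL_cons, toL_cons] at h
      simp only [List.cons.injEq, Sigma.mk.injEq, heq_eq_eq, true_and] at h
      obtain ⟨h1, h2, h3⟩ := h
      have h4 : x = y := Prod.ext (Subtype.ext h1) (Subtype.ext h2)
      rw [h4, ih h3]

lemma red_toL (L : List (Nt G × Nt G)) (t : List (Lt G)) (ht : Red t) (ht' : ∀ x ∈ t.head?, x.1 ≠ false) :
    Red (toL L ++ t) ∧ (∀ x ∈ (toL L ++ t).head?, x.1 ≠ false) := by
  induction L with
  | nil =>
    rw [toL_nil, List.nil_append]
    exact ⟨ht, ht'⟩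
  | cons x L ih =>
    rw [toL_cons]
    simp only [List.cons_append]
    refine ⟨⟨?_, ?_⟩, ?_⟩
    · intro y hy
      rcases List.mem_cons.mp hy with rfl | hy
      · exact x.1.2
      · rcases List.mem_cons.mp hy with rfl | hy
        · exact x.2.2
        · exact ih.1.1 y hy
    · rw [List.isChain_cons, List.isChain_cons]
      refine ⟨?_, ?_, ih.1.2⟩
      · intro y hy
        simp only [List.head?_cons, Option.mem_def, Option.some.injEq] at hy
        rw [← hy]; simp
      · intro y hy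
        exact fun h => ih.2 y hy h.symm
    · intro y hy
      simp only [List.head?_cons, Option.mem_def, Option.some.injEq] at hy
      rw [← hy]; simp

open Classical in
/-- reduced list of `p * hh L * f` -/
noncomputable def mkl (p : G) (L : List (Nt G × Nt G)) (f : G) : List (Lt G) :=
  (if p = 1 then [] else [(⟨false, p⟩ : Lt G)]) ++ (toL L ++ (if f = 1 then [] else [(⟨true, f⟩ : Lt G)]))

lemma ev_mkl (p : G) (L : List (Nt G × Nt G)) (f : G) :
    ev (mkl p L f) = inc false p * hh L * inc true f := by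
  classical
  rw [mkl, ev_append, ev_append]
  by_cases hp : p = 1
  · by_cases hf : f = 1
    · simp [hp, hf, ev_nil, hh]
    · simp [hp, hf, ev_nil, hh, ev_cons]
  · by_cases hf : f = 1
    · simp [hp, hf, ev_nil, hh, ev_cons]
    · simp [hp, hf, ev_nil, hh, ev_cons, mul_assoc]

lemma red_mkl (p : G) (L : List (Nt G × Nt G)) (f : G) : Red (mkl p L f) := by
  classical
  have h1 : Red (if f = 1 then [] else [(⟨true, f⟩ : Lt G)]) := by
    by_cases hf : f = 1
    · simp [hf, Red]
    · simp [hf, Red]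
  have h2 : ∀ x ∈ (if f = 1 then [] else [(⟨true, f⟩ : Lt G)]).head?, x.1 ≠ false := by
    by_cases hf : f = 1
    · simp [hf]
    · simp [hf]
  obtain ⟨h3, h4⟩ := red_toL L _ h1 h2
  rw [mkl]
  by_cases hp : p = 1
  · rw [if_pos hp, List.nil_append]
    exact h3
  · rw [if_neg hp]
    refine ⟨?_, ?_⟩
    · intro y hy
      rcases List.mem_cons.mp hy with rfl | hy
      · exact hp
      · exact h3.1 y hy
    · rw [List.singleton_append, List.isChain_cons]
      exact ⟨fun y hy h => h4 y hy h.symm, h3.2⟩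

lemma len_mkl (p : G) (L : List (Nt G × Nt G)) (f : G) :
    2 * L.length ≤ len (inc false p * hh L * inc true f) := by
  rw [← ev_mkl, len_ev (red_mkl p L f), mkl]
  simp only [List.length_append, toL_length]
  omega

lemma mkl_inj (p : G) (L : List (Nt G × Nt G)) (f : G) (L' : List (Nt G × Nt G))
    (h : inc false p * hh L * inc true f = hh L') : L = L' := by
  classical
  have h0 : hh L' = inc false 1 * hh L' * inc true 1 := by simp
  rw [h0, ← ev_mkl, ← ev_mkl] at h
  have h1 := red_inj (red_mkl _ _ _) (red_mkl _ _ _) h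
  have h2 : mkl 1 L' 1 = toL L' := by simp [mkl]
  rw [h2] at h1
  have hlen := congrArg List.length h1
  rw [mkl] at h1 hlen
  simp only [List.length_append, toL_length] at hlen
  by_cases hp : p = 1
  · by_cases hf : f = 1
    · simp only [hp, hf, if_true, List.nil_append, List.append_nil] at h1
      exact toL_inj h1
    · simp [hp, hf] at hlen; omega
  · by_cases hf : f = 1
    · simp [hp, hf] at hlen; omega
    · rw [if_neg hp] at h1
      rcases L' with _ | ⟨y, L'⟩
      · rw [toL_nil] at h1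
        simp at h1
      · rw [toL_cons] at h1
        simp at h1


/-- letters of words in the lamp group -/
abbrev Lw (G : Type) : Type := Bool × G × Bool

/-- value in the free product -/
def pv (w : List (Lw G)) : Gam G := (w.map (fun x => inc x.1 x.2.1)).prod

lemma pv_nil : pv ([] : List (Lw G)) = 1 := rfl
lemma pv_cons (x : Lw G) (w : List (Lw G)) : pv (x :: w) = inc x.1 x.2.1 * pv w := by simp [pv]
lemma pv_append (w w' : List (Lw G)) : pv (w ++ w') = pv w * pv w' := by simp [pv]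

/-- words of given length in a set of words -/
def Wn (X : Set (List (Lw G))) (n : ℕ) : Set (List (Lw G)) := {w | w.length = n ∧ w ∈ X}

omit [Group G] in
lemma Wn_finite [Finite G] (X : Set (List (Lw G))) (n : ℕ) : (Wn X n).Finite := by
  refine (List.finite_length_eq (Lw G) n).subset ?_
  intro w hw
  exact hw.1

lemma sum_pow_len [Fintype G] (b : Bool) (t : Gam G) (ρ : ℝ) (h0 : 0 < ρ) (h1 : (Fintype.card G : ℝ) * ρ ≤ 1) :
    ∑ s : G, ρ ^ (len ((inc b s)⁻¹ * t)) ≤ 2 * ρ⁻¹ * ρ ^ (len t) := by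
  classical
  obtain ⟨a, l, rfl, hl, hb⟩ := split b t
  have hcard : (1 : ℝ) ≤ Fintype.card G := by
    have : 0 < Fintype.card G := Fintype.card_pos
    exact_mod_cast this
  have hρ1 : ρ ≤ 1 := by nlinarith
  have h2 : ∀ s : G, ρ ^ (len ((inc b s)⁻¹ * (inc b a * ev l))) ≤ (if s = a then ρ ^ l.length else 0) + ρ ^ (l.length + 1) := by
    intro s
    have h3 : (inc b s)⁻¹ * (inc b a * ev l) = inc b (s⁻¹ * a) * ev l := by
      rw [map_mul, map_inv, mul_assoc]
    rw [h3]
    by_cases hs : s = a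
    · rw [if_pos hs, (len_inc_mul b (s⁻¹ * a) l hl hb).1 (by rw [hs]; simp)]
      have : 0 ≤ ρ ^ (l.length + 1) := by positivity
      linarith
    · rw [if_neg hs, (len_inc_mul b (s⁻¹ * a) l hl hb).2 ?_, zero_add]
      intro h
      exact hs (inv_mul_eq_one.mp h)
  have h4 : ρ ^ (l.length + 1) ≤ ρ ^ (len (inc b a * ev l)) := by
    apply pow_le_pow_of_le_one h0.le hρ1
    by_cases ha : a = 1
    · rw [(len_inc_mul b a l hl hb).1 ha]; omega
    · rw [(len_inc_mul b a l hl hb).2 ha]
  calc ∑ s : G, ρ ^ (len ((inc b s)⁻¹ * (inc b a * ev l)))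
      ≤ ∑ s : G, ((if s = a then ρ ^ l.length else 0) + ρ ^ (l.length + 1)) :=
        Finset.sum_le_sum (fun s _ => h2 s)
    _ = ρ ^ l.length + (Fintype.card G : ℝ) * ρ ^ (l.length + 1) := by
        rw [Finset.sum_add_distrib]
        simp
    _ = (1 + (Fintype.card G : ℝ) * ρ) * ρ ^ l.length := by ring
    _ ≤ 2 * ρ ^ l.length := by
        apply mul_le_mul_of_nonneg_right _ (by positivity)
        linarith
    _ = 2 * ρ⁻¹ * ρ ^ (l.length + 1) := by
        rw [pow_succ]
        field_simp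
    _ ≤ 2 * ρ⁻¹ * ρ ^ (len (inc b a * ev l)) := by
        apply mul_le_mul_of_nonneg_left h4 (by positivity)

/-- Green function bound -/
lemma green [Fintype G] (ρ : ℝ) (h0 : 0 < ρ) (h1 : (Fintype.card G : ℝ) * ρ ≤ 1) (n : ℕ) :
    ∀ t : Gam G, ((Wn {w | pv w = t} n).ncard : ℝ) ≤ (8 * ρ⁻¹) ^ n * ρ ^ (len t) := by
  classical
  induction n with
  | zero =>
    intro t
    rw [pow_zero, one_mul]
    by_cases ht : t = 1
    · subst ht
      rw [len_one, pow_zero]
      have : Wn {w : List (Lw G) | pv w = 1} 0 ⊆ {[]} := by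
        intro w hw
        exact List.length_eq_zero_iff.mp hw.1
      have h2 := Set.ncard_le_ncard this (Set.finite_singleton _)
      rw [Set.ncard_singleton] at h2
      exact_mod_cast h2
    · have : Wn {w : List (Lw G) | pv w = t} 0 = ∅ := by
        rw [Set.eq_empty_iff_forall_notMem]
        intro w hw
        have h3 := List.length_eq_zero_iff.mp hw.1
        subst h3
        exact ht hw.2.symm
      rw [this, Set.ncard_empty]
      simp only [Nat.cast_zero]
      positivity
  | succ n ih =>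
    intro t
    have hsub : Wn {w : List (Lw G) | pv w = t} (n+1) ⊆
        ⋃ x ∈ (Finset.univ : Finset (Lw G)), (fun w => x :: w) '' (Wn {w | pv w = (inc x.1 x.2.1)⁻¹ * t} n) := by
      intro w hw
      rcases w with _ | ⟨x, w⟩
      · exact absurd hw.1 (by simp)
      · simp only [Set.mem_iUnion]
        refine ⟨x, Finset.mem_univ _, w, ⟨?_, ?_⟩, rfl⟩
        · have := hw.1
          rw [List.length_cons] at this
          omega
        · have := hw.2
          simp only [Set.mem_ofPred_eq] at this ⊢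
          rw [← this, pv_cons]
          group
    have h2 : (Wn {w : List (Lw G) | pv w = t} (n+1)).ncard ≤
        ∑ x : Lw G, (Wn {w | pv w = (inc x.1 x.2.1)⁻¹ * t} n).ncard := by
      refine le_trans (Set.ncard_le_ncard hsub ?_) ?_
      · exact Set.Finite.biUnion (Finset.finite_toSet _) (fun x _ => (Wn_finite _ n).image _)
      · refine le_trans (Finset.set_ncard_biUnion_le _ _) ?_
        exact Finset.sum_le_sum (fun x _ => Set.ncard_image_le (Wn_finite _ n))
    have h3 : ((Wn {w : List (Lw G) | pv w = t} (n+1)).ncard : ℝ) ≤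
        ∑ x : Lw G, (8 * ρ⁻¹) ^ n * ρ ^ (len ((inc x.1 x.2.1)⁻¹ * t)) := by
      refine le_trans (Nat.cast_le.mpr h2) ?_
      rw [Nat.cast_sum]
      exact Finset.sum_le_sum (fun x _ => ih _)
    refine le_trans h3 ?_
    rw [← Finset.mul_sum, pow_succ, mul_assoc]
    apply mul_le_mul_of_nonneg_left _ (by positivity)
    rw [Fintype.sum_prod_type]
    simp only [Fintype.sum_prod_type]
    have h4 : ∀ b : Bool, ∑ s : G, ∑ e : Bool, ρ ^ (len ((inc b s)⁻¹ * t)) ≤ 2 * (2 * ρ⁻¹ * ρ ^ (len t)) := by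
      intro b
      simp only [Finset.sum_const, Finset.card_univ, Fintype.card_bool, nsmul_eq_mul, Nat.cast_ofNat]
      rw [← Finset.mul_sum]
      apply mul_le_mul_of_nonneg_left (sum_pow_len b t ρ h0 h1) (by norm_num)
    calc ∑ b : Bool, ∑ s : G, ∑ e : Bool, ρ ^ (len ((inc b s)⁻¹ * t))
        ≤ ∑ b : Bool, 2 * (2 * ρ⁻¹ * ρ ^ (len t)) := Finset.sum_le_sum (fun b _ => h4 b)
      _ = 8 * ρ⁻¹ * ρ ^ (len t) := by
          simp only [Finset.sum_const, Finset.card_univ, Fintype.card_bool, nsmul_eq_mul, Nat.cast_ofNat]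
          ring


/-- double cosets of `hh L` and of its inverse -/
def DC (c : Bool) (L : List (Nt G × Nt G)) : Set (Gam G) :=
  {g | ∃ p f : G, (if c then g⁻¹ else g) = inc false p * hh L * inc true f}

lemma DC_count [Fintype G] (ρ : ℝ) (h0 : 0 < ρ) (h1 : (Fintype.card G : ℝ) * ρ ≤ 1) (c : Bool)
    (L : List (Nt G × Nt G)) (n : ℕ) :
    ((Wn {w | pv w ∈ DC c L} n).ncard : ℝ) ≤
      ((Fintype.card G : ℝ) ^ 2 * ρ ^ (2 * L.length)) * (8 * ρ⁻¹) ^ n := by
  classical
  have hcard : (1 : ℝ) ≤ Fintype.card G := by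
    have : 0 < Fintype.card G := Fintype.card_pos
    exact_mod_cast this
  have hρ1 : ρ ≤ 1 := by nlinarith
  set v : G × G → Gam G := fun x =>
    if c then (inc false x.1 * hh L * inc true x.2)⁻¹ else inc false x.1 * hh L * inc true x.2 with hv
  have hsub : Wn {w : List (Lw G) | pv w ∈ DC c L} n ⊆
      ⋃ x ∈ (Finset.univ : Finset (G × G)), Wn {w | pv w = v x} n := by
    intro w hw
    obtain ⟨p, f, hpf⟩ := hw.2
    simp only [Set.mem_iUnion]
    refine ⟨(p, f), Finset.mem_univ _, hw.1, ?_⟩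
    simp only [Set.mem_ofPred_eq, hv]
    by_cases hc : c = true
    · rw [if_pos hc] at hpf ⊢
      rw [← hpf, inv_inv]
    · rw [if_neg hc] at hpf ⊢
      exact hpf
  have h2 : (Wn {w : List (Lw G) | pv w ∈ DC c L} n).ncard ≤
      ∑ x : G × G, (Wn {w | pv w = v x} n).ncard := by
    refine le_trans (Set.ncard_le_ncard hsub ?_) ?_
    · exact Set.Finite.biUnion (Finset.finite_toSet _) (fun x _ => Wn_finite _ n)
    · exact Finset.set_ncard_biUnion_le _ _
  have h3 : ∀ x : G × G, ((Wn {w | pv w = v x} n).ncard : ℝ) ≤ ρ ^ (2 * L.length) * (8 * ρ⁻¹) ^ n := by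
    intro x
    refine le_trans (green ρ h0 h1 n (v x)) ?_
    rw [mul_comm]
    apply mul_le_mul_of_nonneg_right _ (by positivity)
    apply pow_le_pow_of_le_one h0.le hρ1
    simp only [hv]
    by_cases hc : c = true
    · rw [if_pos hc, len_inv]
      exact len_mkl _ _ _
    · rw [if_neg hc]
      exact len_mkl _ _ _
  calc ((Wn {w : List (Lw G) | pv w ∈ DC c L} n).ncard : ℝ)
      ≤ ((∑ x : G × G, (Wn {w | pv w = v x} n).ncard : ℕ) : ℝ) := Nat.cast_le.mpr h2
    _ = ∑ x : G × G, ((Wn {w | pv w = v x} n).ncard : ℝ) := Nat.cast_sum _ _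
    _ ≤ ∑ x : G × G, ρ ^ (2 * L.length) * (8 * ρ⁻¹) ^ n := Finset.sum_le_sum (fun x _ => h3 x)
    _ = ((Fintype.card G : ℝ) ^ 2 * ρ ^ (2 * L.length)) * (8 * ρ⁻¹) ^ n := by
        rw [Finset.sum_const, Finset.card_univ, Fintype.card_prod, nsmul_eq_mul]
        push_cast
        ring

/-- concatenation of sets of words -/
def cc (X Y : Set (List (Lw G))) : Set (List (Lw G)) := {w | ∃ x ∈ X, ∃ y ∈ Y, w = x ++ y}

omit [Group G] in
lemma cc_count [Finite G] (X Y : Set (List (Lw G))) (a b t : ℝ) (ha : 0 ≤ a) (hb : 0 ≤ b) (ht : 0 ≤ t) (N : ℕ)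
    (hX : ∀ n ≤ N, ((Wn X n).ncard : ℝ) ≤ a * t ^ n) (hY : ∀ n ≤ N, ((Wn Y n).ncard : ℝ) ≤ b * t ^ n) :
    ∀ n ≤ N, ((Wn (cc X Y) n).ncard : ℝ) ≤ (((N : ℝ) + 1) * (a * b)) * t ^ n := by
  classical
  intro n hn
  have hsub : Wn (cc X Y) n ⊆ ⋃ i ∈ Finset.range (n+1),
      (fun z : List (Lw G) × List (Lw G) => z.1 ++ z.2) '' ((Wn X i) ×ˢ (Wn Y (n - i))) := by
    rintro w ⟨hw, x, hx, y, hy, rfl⟩
    rw [List.length_append] at hw
    simp only [Set.mem_iUnion]
    refine ⟨x.length, Finset.mem_range.mpr (by omega), (x, y), ⟨⟨rfl, hx⟩, ⟨?_, hy⟩⟩, rfl⟩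
    simp only
    omega
  have h2 : (Wn (cc X Y) n).ncard ≤ ∑ i ∈ Finset.range (n+1), (Wn X i).ncard * (Wn Y (n-i)).ncard := by
    refine le_trans (Set.ncard_le_ncard hsub ?_) ?_
    · exact Set.Finite.biUnion (Finset.finite_toSet _)
        (fun x _ => ((Wn_finite _ _).prod (Wn_finite _ _)).image _)
    · refine le_trans (Finset.set_ncard_biUnion_le _ _) ?_
      refine Finset.sum_le_sum (fun i _ => ?_)
      refine le_trans (Set.ncard_image_le ((Wn_finite _ _).prod (Wn_finite _ _))) ?_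
      rw [Set.ncard_prod]
  calc ((Wn (cc X Y) n).ncard : ℝ)
      ≤ ((∑ i ∈ Finset.range (n+1), (Wn X i).ncard * (Wn Y (n-i)).ncard : ℕ) : ℝ) := Nat.cast_le.mpr h2
    _ = ∑ i ∈ Finset.range (n+1), ((Wn X i).ncard : ℝ) * ((Wn Y (n-i)).ncard : ℝ) := by push_cast; rfl
    _ ≤ ∑ i ∈ Finset.range (n+1), (a * b) * t ^ n := by
        refine Finset.sum_le_sum (fun i hi => ?_)
        rw [Finset.mem_range] at hi
        have h3 := hX i (by omega)
        have h4 := hY (n-i) (by omega)
        calc ((Wn X i).ncard : ℝ) * ((Wn Y (n-i)).ncard : ℝ) ≤ (a * t ^ i) * (b * t ^ (n-i)) := by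
              apply mul_le_mul h3 h4 (Nat.cast_nonneg _) (by positivity)
          _ = (a * b) * (t ^ i * t ^ (n-i)) := by ring
          _ = (a * b) * t ^ n := by rw [← pow_add]; congr 2; omega
    _ = ((n : ℝ) + 1) * ((a * b) * t ^ n) := by
        rw [Finset.sum_const, Finset.card_range, nsmul_eq_mul]; push_cast; ring
    _ ≤ ((N : ℝ) + 1) * ((a * b) * t ^ n) := by
        apply mul_le_mul_of_nonneg_right _ (by positivity)
        have : (n : ℝ) ≤ N := by exact_mod_cast hn
        linarith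
    _ = (((N : ℝ) + 1) * (a * b)) * t ^ n := by ring

/-- rotations -/
def rot (X : Set (List (Lw G))) : Set (List (Lw G)) := {w | ∃ i ≤ w.length, w.rotate i ∈ X}

omit [Group G] in
lemma rot_count [Finite G] (X : Set (List (Lw G))) (n : ℕ) :
    ((Wn (rot X) n).ncard : ℝ) ≤ ((n : ℝ) + 1) * ((Wn X n).ncard : ℝ) := by
  classical
  have hsub : Wn (rot X) n ⊆ ⋃ i ∈ Finset.range (n+1), {w | w.rotate i ∈ Wn X n} := by
    rintro w ⟨hw, i, hi, hr⟩
    simp only [Set.mem_iUnion]
    refine ⟨i, Finset.mem_range.mpr (by omega), ?_, hr⟩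
    rw [List.length_rotate]; exact hw
  have hfin : ∀ i, ({w : List (Lw G) | w.rotate i ∈ Wn X n}).Finite := by
    intro i
    exact Set.Finite.preimage ((List.rotate_injective i).injOn) (Wn_finite X n)
  have hle : ∀ i, ({w : List (Lw G) | w.rotate i ∈ Wn X n}).ncard ≤ (Wn X n).ncard := by
    intro i
    refine Set.ncard_le_ncard_of_injOn (fun w => w.rotate i) ?_ ?_ (Wn_finite X n)
    · intro w hw; exact hw
    · exact (List.rotate_injective i).injOn
  have h2 : (Wn (rot X) n).ncard ≤ ∑ i ∈ Finset.range (n+1), (Wn X n).ncard := by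
    refine le_trans (Set.ncard_le_ncard hsub ?_) ?_
    · exact Set.Finite.biUnion (Finset.finite_toSet _) (fun x _ => hfin x)
    · refine le_trans (Finset.set_ncard_biUnion_le _ _) ?_
      exact Finset.sum_le_sum (fun i _ => hle i)
  rw [Finset.sum_const, Finset.card_range, smul_eq_mul] at h2
  exact_mod_cast h2


/-- words which after a rotation run four times between the two cosets -/
def Pat (c : Bool) (L : List (Nt G × Nt G)) : Set (List (Lw G)) :=
  rot (cc (cc (cc {w | pv w ∈ DC c L} {w | pv w ∈ DC (!c) L}) {w | pv w ∈ DC c L}) {w | pv w ∈ DC (!c) L})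

lemma Pat_count [Fintype G] (ρ : ℝ) (h0 : 0 < ρ) (h1 : (Fintype.card G : ℝ) * ρ ≤ 1) (c : Bool)
    (L : List (Nt G × Nt G)) (n : ℕ) :
    ((Wn (Pat c L) n).ncard : ℝ) ≤
      ((Fintype.card G : ℝ) ^ 2 * ρ ^ (2 * L.length)) ^ 4 * (128 * ρ⁻¹) ^ n := by
  set σ : ℝ := (Fintype.card G : ℝ) ^ 2 * ρ ^ (2 * L.length) with hσ
  have hσ0 : 0 ≤ σ := by positivity
  set t : ℝ := 8 * ρ⁻¹ with ht
  have ht0 : 0 ≤ t := by positivity
  have hX : ∀ c : Bool, ∀ m ≤ n, ((Wn {w | pv w ∈ DC c L} m).ncard : ℝ) ≤ σ * t ^ m :=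
    fun c m _ => DC_count ρ h0 h1 c L m
  have h2 := cc_count _ _ σ σ t hσ0 hσ0 ht0 n (hX c) (hX (!c))
  have h3 := cc_count _ _ _ σ t (by positivity) hσ0 ht0 n h2 (hX c)
  have h4 := cc_count _ _ _ σ t (by positivity) hσ0 ht0 n h3 (hX (!c)) n le_rfl
  have h5 := rot_count (cc (cc (cc {w | pv w ∈ DC c L} {w | pv w ∈ DC (!c) L}) {w | pv w ∈ DC c L}) {w | pv w ∈ DC (!c) L}) n
  have h6 : ((n : ℝ) + 1) ≤ 2 ^ n := by
    have : n + 1 ≤ 2 ^ n := Nat.succ_le_of_lt Nat.lt_two_pow_self
    exact_mod_cast this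
  have h7 : ((n : ℝ) + 1) ^ 4 ≤ 16 ^ n := by
    calc ((n : ℝ) + 1) ^ 4 ≤ ((2 : ℝ) ^ n) ^ 4 := pow_le_pow_left₀ (by positivity) h6 4
      _ = 16 ^ n := by rw [← pow_mul, mul_comm, pow_mul]; norm_num
  calc ((Wn (Pat c L) n).ncard : ℝ) ≤ ((n : ℝ) + 1) * _ := h5
    _ ≤ ((n : ℝ) + 1) * _ := mul_le_mul_of_nonneg_left h4 (by positivity)
    _ = ((n : ℝ) + 1) ^ 4 * (σ ^ 4 * t ^ n) := by ring
    _ ≤ 16 ^ n * (σ ^ 4 * t ^ n) := mul_le_mul_of_nonneg_right h7 (by positivity)
    _ = σ ^ 4 * (128 * ρ⁻¹) ^ n := by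
        rw [ht]
        have : (128 * ρ⁻¹ : ℝ) = 16 * (8 * ρ⁻¹) := by ring
        rw [this, mul_pow 16]
        ring

end Gam
end Pool.Agent.Helper125
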