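import Mathlib

set_option autoImplicit false
open scoped ENNReal Topology
open Filter

namespace Pool.Agent.Helper125

section
variable {ι : Type} (I : ℕ → Finset ι) (N : Set ι → ℕ → ℕ) (y : ℝ≥0∞)

/-- generating sum -/
noncomputable def Psi (E : Set ι) : ℝ≥0∞ := ∑' j, (N E j : ℝ≥0∞) * y ^ j

lemma Psi_mono (mono : ∀ E E' : Set ι, E ⊆ E' → ∀ j, N E j ≤ N E' j) {E E' : Set ι} (h : E ⊆ E') :
    Psi N y E ≤ Psi N y E' := by
  unfold Psi
  apply ENNReal.tsum_le_tsum
  intro j
  gcongr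
  exact mono E E' h j

theorem kakeya (hI : ∀ i j, i ≠ j → Disjoint (I i) (I j))
    (mono : ∀ E E' : Set ι, E ⊆ E' → ∀ j, N E j ≤ N E' j)
    (ε g : ℕ → ℝ≥0∞)
    (hb : ∀ k, ∀ L ∈ I k, ∀ E : Set ι, Psi N y (insert L E) ≤ Psi N y E + ε k)
    (hc : ∀ k, ∀ E : Set ι, (∀ L ∈ I k, L ∉ E) → Psi N y E + g k ≤ Psi N y (E ∪ (I k : Set ι)))
    (hgap : ∀ k, ε k ≤ g (k+1))
    (hε : Tendsto ε atTop (𝓝 0))
    (hfin : ∀ (E : Set ι) (j : ℕ), ∃ E0 : Set ι, E0.Finite ∧ E0 ⊆ E ∧ ∀ E'', E0 ⊆ E'' → N E j ≤ N E'' j)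
    (s : ℝ≥0∞) (hbot : Psi N y ∅ ≤ s) (htop : s ≤ Psi N y (⋃ k, (I k : Set ι))) :
    ∃ E : Set ι, Psi N y E = s := by
  classical
  have hstep : ∀ (k : ℕ) (E : Set ι), Psi N y E ≤ s → ∃ D : Finset ι, D ⊆ I k ∧ Psi N y (E ∪ (D : Set ι)) ≤ s ∧
      ∀ L ∈ I k, L ∉ D → s < Psi N y (insert L (E ∪ (D : Set ι))) := by
    intro k E hE
    set F : Finset (Finset ι) := (I k).powerset.filter (fun D : Finset ι => Psi N y (E ∪ (D : Set ι)) ≤ s) with hF
    have hne : F.Nonempty := ⟨∅, by
      rw [hF, Finset.mem_filter]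
      exact ⟨Finset.empty_mem_powerset _, by simpa using hE⟩⟩
    obtain ⟨D, hD, hmax⟩ := Finset.exists_max_image F Finset.card hne
    rw [hF, Finset.mem_filter, Finset.mem_powerset] at hD
    refine ⟨D, hD.1, hD.2, ?_⟩
    intro L hL hLD
    by_contra hcon
    push Not at hcon
    have h1 : insert L D ∈ F := by
      rw [hF, Finset.mem_filter, Finset.mem_powerset]
      refine ⟨Finset.insert_subset hL hD.1, ?_⟩
      rw [Finset.coe_insert, Set.union_insert]
      exact hcon
    have h2 := hmax _ h1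
    rw [Finset.card_insert_of_notMem hLD] at h2
    omega
  choose D hD1 hD2 hD3 using hstep
  obtain ⟨st, st_zero, st_succ⟩ : ∃ st : ℕ → {E : Set ι // Psi N y E ≤ s}, (st 0).1 = ∅ ∧
      ∀ k, (st (k+1)).1 = (st k).1 ∪ (D k (st k).1 (st k).2 : Set ι) :=
    ⟨fun k => Nat.rec (⟨∅, hbot⟩ : {E : Set ι // Psi N y E ≤ s})
      (fun k E => ⟨E.1 ∪ (D k E.1 E.2 : Set ι), hD2 k E.1 E.2⟩) k, rfl, fun k => rfl⟩
  have st_mono : Monotone (fun k => (st k).1) := by
    apply monotone_nat_of_le_succ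
    intro k
    show (st k).1 ⊆ (st (k+1)).1
    rw [st_succ]
    exact Set.subset_union_left
  have st_sub : ∀ k, ∀ L ∈ (st k).1, ∃ i < k, L ∈ I i := by
    intro k
    induction k with
    | zero => intro L hL; rw [st_zero] at hL; exact absurd hL (by simp)
    | succ k ih =>
      intro L hL
      rw [st_succ] at hL
      rcases hL with hL | hL
      · obtain ⟨i, hi, h⟩ := ih L hL
        exact ⟨i, by omega, h⟩
      · exact ⟨k, by omega, hD1 k _ _ hL⟩
  have st_disj : ∀ k, ∀ L ∈ I k, L ∉ (st k).1 := by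
    intro k L hL hL'
    obtain ⟨i, hi, h⟩ := st_sub k L hL'
    exact (Finset.disjoint_left.mp (hI i k (by omega))) h hL
  set Einf : Set ι := ⋃ k, (st k).1 with hEinf
  have hle : Psi N y Einf ≤ s := by
    unfold Psi
    apply ENNReal.tsum_le_of_sum_range_le
    intro n
    choose E0 hE0 hE0' hE0'' using fun j => hfin Einf j
    have hfinite : (⋃ j ∈ Finset.range n, E0 j).Finite :=
      Set.Finite.biUnion (Finset.finite_toSet _) (fun j _ => hE0 j)
    have hsub : (⋃ j ∈ Finset.range n, E0 j) ⊆ ⋃ k, (st k).1 := by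
      intro x hx
      simp only [Set.mem_iUnion] at hx
      obtain ⟨j, _, hx⟩ := hx
      exact hE0' j hx
    have hex : ∀ S : Set ι, S.Finite → S ⊆ ⋃ k, (st k).1 → ∃ m, S ⊆ (st m).1 := by
      intro S hS
      induction S, hS using Set.Finite.induction_on with
      | empty => intro _; exact ⟨0, Set.empty_subset _⟩
      | insert _ _ ih =>
        intro h
        rw [Set.insert_subset_iff] at h
        obtain ⟨m, hm⟩ := ih h.2
        obtain ⟨m', hm'⟩ := Set.mem_iUnion.mp h.1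
        refine ⟨max m m', Set.insert_subset_iff.mpr ⟨st_mono (le_max_right m m') hm', hm.trans (st_mono (le_max_left m m'))⟩⟩
    obtain ⟨m, hm⟩ := hex _ hfinite hsub
    calc ∑ j ∈ Finset.range n, (N Einf j : ℝ≥0∞) * y ^ j
        ≤ ∑ j ∈ Finset.range n, (N (st m).1 j : ℝ≥0∞) * y ^ j := by
          apply Finset.sum_le_sum
          intro j hj
          have h1 : N Einf j ≤ N (st m).1 j := by
            apply hE0'' j
            refine Set.Subset.trans ?_ hm
            intro x hx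
            simp only [Set.mem_iUnion]
            exact ⟨j, hj, hx⟩
          gcongr
      _ ≤ Psi N y (st m).1 := ENNReal.sum_le_tsum _
      _ ≤ s := (st m).2
  have hmono : ∀ k, Psi N y (st k).1 ≤ Psi N y Einf := fun k => Psi_mono N y mono (Set.subset_iUnion (fun k => (st k).1) k)
  refine ⟨Einf, le_antisymm hle ?_⟩
  have hP1 : ∀ k, D k (st k).1 (st k).2 ≠ I k → s < Psi N y (st (k+1)).1 + ε k := by
    intro k hne
    obtain ⟨L, hL, hLD⟩ : ∃ L ∈ I k, L ∉ D k (st k).1 (st k).2 := by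
      by_contra hcon
      push Not at hcon
      exact hne (Finset.Subset.antisymm (hD1 k _ _) hcon)
    refine lt_of_lt_of_le (hD3 k _ (st k).2 L hL hLD) ?_
    rw [st_succ]
    exact hb k L hL _
  have hP2 : ∀ k, s < Psi N y (st (k+1)).1 + ε k → s < Psi N y (st (k+1+1)).1 + ε (k+1) := by
    intro k hk
    refine hP1 (k+1) ?_
    intro heq
    have h1 : (st (k+1+1)).1 = (st (k+1)).1 ∪ (I (k+1) : Set ι) := by
      rw [st_succ, heq]
    have h2 := hc (k+1) _ (st_disj (k+1))
    rw [← h1] at h2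
    have h3 : s < s := calc
      s < Psi N y (st (k+1)).1 + ε k := hk
      _ ≤ Psi N y (st (k+1)).1 + g (k+1) := by gcongr; exact hgap k
      _ ≤ Psi N y (st (k+1+1)).1 := h2
      _ ≤ s := (st (k+1+1)).2
    exact lt_irrefl _ h3
  by_cases hall : ∀ k, D k (st k).1 (st k).2 = I k
  · refine htop.trans (Psi_mono N y mono ?_)
    apply Set.iUnion_subset
    intro k
    refine Set.Subset.trans ?_ (Set.subset_iUnion (fun k => (st k).1) (k+1))
    show (I k : Set ι) ⊆ (st (k+1)).1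
    rw [st_succ, hall k]
    exact Set.subset_union_right
  · push Not at hall
    obtain ⟨k1, hk1⟩ := hall
    have hP : ∀ k ≥ k1, s < Psi N y (st (k+1)).1 + ε k := by
      intro k hk
      induction k, hk using Nat.le_induction with
      | base => exact hP1 k1 hk1
      | succ k _ ih => exact hP2 k ih
    have hlim : Tendsto (fun k => Psi N y Einf + ε k) atTop (𝓝 (Psi N y Einf + 0)) :=
      Tendsto.const_add _ hε
    rw [add_zero] at hlim
    refine ge_of_tendsto hlim ?_
    rw [eventually_atTop]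
    refine ⟨k1, fun k hk => (hP k hk).le.trans ?_⟩
    gcongr
    exact hmono _
end

end Pool.Agent.Helper125
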