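import Pool.Agent.Helper125.RenewC
import Pool.Agent.Helper125.Kakeya
import Pool.Agent.Helper125.Count

set_option autoImplicit false
open scoped Pointwise ENNReal Topology
open Filter

namespace Pool.Agent.Helper125
namespace Fam
open Lg Gam
variable {G : Type} [Group G]

/-- index set of lamps of a set of lists -/
def ix (E : Set (List (Nt G × Nt G))) : Set (Ix G) := insert none (some '' E)

lemma none_mem_ix (E : Set (List (Nt G × Nt G))) : (none : Ix G) ∈ ix E := Set.mem_insert _ _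
lemma some_mem_ix (E : Set (List (Nt G × Nt G))) (L : List (Nt G × Nt G)) : (some L : Ix G) ∈ ix E ↔ L ∈ E := by
  simp [ix]
lemma ix_mono {E E' : Set (List (Nt G × Nt G))} (h : E ⊆ E') : ix E ⊆ ix E' :=
  Set.insert_subset_insert (Set.image_mono h)
lemma ix_insert (E : Set (List (Nt G × Nt G))) (L : List (Nt G × Nt G)) : ix (insert L E) = insert (some L) (ix E) := by
  rw [ix, ix, Set.image_insert_eq, Set.insert_comm]

/-- the counting function -/
noncomputable def NE (E : Set (List (Nt G × Nt G))) (j : ℕ) : ℕ := NN (ix E) j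

/-- levels -/
noncomputable def Iv [Finite G] (k : ℕ) : Finset (List (Nt G × Nt G)) :=
  (List.finite_length_eq (Nt G × Nt G) k).toFinset

lemma mem_Iv [Finite G] (k : ℕ) (L : List (Nt G × Nt G)) : L ∈ Iv (G := G) k ↔ L.length = k := by
  simp [Iv]

lemma card_Iv [Fintype G] (k : ℕ) : (Iv (G := G) k).card = ((Fintype.card G - 1) ^ 2) ^ k := by
  classical
  have h1 : (Iv (G := G) k).card = Nat.card (List.Vector (Nt G × Nt G) k) := by
    rw [Iv, ← Set.ncard_eq_toFinset_card _ (List.finite_length_eq (Nt G × Nt G) k)]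
    rfl
  rw [h1, Nat.card_eq_fintype_card, card_vector, Fintype.card_prod]
  have h2 : Fintype.card (Nt G) = Fintype.card G - 1 := by
    have := Fintype.card_subtype_compl (fun m : G => m = 1)
    rw [Fintype.card_subtype_eq] at this
    exact this
  rw [h2]
  ring

lemma NE_mono [Finite G] (E E' : Set (List (Nt G × Nt G))) (h : E ⊆ E') (j : ℕ) : NE E j ≤ NE E' j :=
  NN_mono (ix_mono h) j

lemma NE_fin [Finite G] (E : Set (List (Nt G × Nt G))) (j : ℕ) :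
    ∃ E0 : Set (List (Nt G × Nt G)), E0.Finite ∧ E0 ⊆ E ∧ ∀ E'', E0 ⊆ E'' → NE E j ≤ NE E'' j := by
  obtain ⟨E0, h1, h2, h3⟩ := NN_fin (ix E) j
  refine ⟨{L | some L ∈ E0}, ?_, ?_, ?_⟩
  · exact Set.Finite.preimage (Option.some_injective _).injOn h1
  · intro L hL
    exact (some_mem_ix E L).mp (h2 hL)
  · intro E'' hE''
    apply h3
    intro o ho
    rcases o with _ | L
    · exact none_mem_ix _
    · exact (some_mem_ix _ _).mpr (hE'' ho)

/-- the bound for adding one index -/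
noncomputable def epsr (q η : ℝ) (K : ℕ) : ℝ := (q ^ 2 * (256 * η) ^ (2 * K)) ^ 4 / η ^ 2

lemma NE_insert [Fintype G] (η : ℝ) (h0 : 0 < η) (h1 : (Fintype.card G : ℝ) * (256 * η) ≤ 1)
    (E : Set (List (Nt G × Nt G))) (L : List (Nt G × Nt G)) :
    Psi NE (ENNReal.ofReal (η ^ 4)) (insert L E) ≤ Psi NE (ENNReal.ofReal (η ^ 4)) E +
      ENNReal.ofReal (epsr (Fintype.card G) η L.length) := by
  classical
  set q : ℝ := (Fintype.card G : ℝ) with hq
  set σ : ℝ := q ^ 2 * (256 * η) ^ (2 * L.length) with hσ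
  have hσ0 : 0 ≤ σ := by positivity
  set y := ENNReal.ofReal (η ^ 4) with hy
  have hb : ∀ j, (NE (insert L E) j : ℝ≥0∞) * y ^ j ≤ (NE E j : ℝ≥0∞) * y ^ j +
      ENNReal.ofReal (σ ^ 4 / (2 * η ^ 2) * (1 / 16) ^ j) := by
    intro j
    have e1 : NE (insert L E) j ≤ NE E j + ((Wn (Pat false L) (4*j+2)).ncard + (Wn (Pat true L) (4*j+2)).ncard) := by
      rw [NE, ix_insert]
      exact NN_insert_le (ix E) (none_mem_ix E) L j
    have e2 : (((Wn (Pat false L) (4*j+2)).ncard + (Wn (Pat true L) (4*j+2)).ncard : ℕ) : ℝ) ≤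
        2 * (σ ^ 4 * (128 * (256 * η)⁻¹) ^ (4*j+2)) := by
      have a1 := Pat_count (256 * η) (by positivity) h1 false L (4*j+2)
      have a2 := Pat_count (256 * η) (by positivity) h1 true L (4*j+2)
      push_cast
      linarith
    have e3 : (((Wn (Pat false L) (4*j+2)).ncard + (Wn (Pat true L) (4*j+2)).ncard : ℕ) : ℝ) * (η ^ 4) ^ j ≤
        σ ^ 4 / (2 * η ^ 2) * (1 / 16) ^ j := by
      calc (((Wn (Pat false L) (4*j+2)).ncard + (Wn (Pat true L) (4*j+2)).ncard : ℕ) : ℝ) * (η ^ 4) ^ j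
          ≤ (2 * (σ ^ 4 * (128 * (256 * η)⁻¹) ^ (4*j+2))) * (η ^ 4) ^ j := by gcongr
        _ = σ ^ 4 / (2 * η ^ 2) * (1 / 16) ^ j := by
            have b1 : (128 * (256 * η)⁻¹ : ℝ) = (1/2) * η⁻¹ := by
              rw [mul_inv]; ring
            have b2 : ((η⁻¹ : ℝ)) ^ (4*j+2) * (η ^ 4) ^ j = (η ^ 2)⁻¹ := by
              rw [pow_add, ← pow_mul, inv_pow, inv_pow]
              field_simp
            have b3 : ((1/2 : ℝ)) ^ (4*j+2) = (1/4) * (1/16)^j := by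
              rw [pow_add, pow_mul]; norm_num; ring
            rw [b1, mul_pow (1/2 : ℝ) η⁻¹, b3]
            calc 2 * (σ ^ 4 * (1 / 4 * (1 / 16) ^ j * η⁻¹ ^ (4 * j + 2))) * (η ^ 4) ^ j
                = 2 * (σ ^ 4 * (1 / 4 * (1 / 16) ^ j)) * (η⁻¹ ^ (4 * j + 2) * (η ^ 4) ^ j) := by ring
              _ = _ := by rw [b2]; field_simp; ring
    have e4 : ((((Wn (Pat false L) (4*j+2)).ncard + (Wn (Pat true L) (4*j+2)).ncard : ℕ)) : ℝ≥0∞) * y ^ j ≤
        ENNReal.ofReal (σ ^ 4 / (2 * η ^ 2) * (1 / 16) ^ j) := by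
      rw [hy, ← ENNReal.ofReal_pow (by positivity), ← ENNReal.ofReal_natCast, ← ENNReal.ofReal_mul (by positivity)]
      exact ENNReal.ofReal_le_ofReal e3
    calc (NE (insert L E) j : ℝ≥0∞) * y ^ j
        ≤ ((NE E j + ((Wn (Pat false L) (4*j+2)).ncard + (Wn (Pat true L) (4*j+2)).ncard) : ℕ) : ℝ≥0∞) * y ^ j := by
          gcongr
      _ = (NE E j : ℝ≥0∞) * y ^ j + ((((Wn (Pat false L) (4*j+2)).ncard + (Wn (Pat true L) (4*j+2)).ncard : ℕ)) : ℝ≥0∞) * y ^ j := by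
          rw [← add_mul, ← Nat.cast_add]
      _ ≤ _ := by gcongr
  have hs : ∑' j : ℕ, ENNReal.ofReal (σ ^ 4 / (2 * η ^ 2) * (1 / 16) ^ j) ≤ ENNReal.ofReal (epsr q η L.length) := by
    rw [← ENNReal.ofReal_tsum_of_nonneg (fun j => by positivity)
      ((summable_geometric_of_lt_one (by norm_num) (by norm_num)).mul_left _)]
    apply ENNReal.ofReal_le_ofReal
    rw [tsum_mul_left, tsum_geometric_of_lt_one (by norm_num) (by norm_num), epsr, ← hσ]
    have : σ ^ 4 / (2 * η ^ 2) * (1 - 1 / 16)⁻¹ = (σ ^ 4 / η ^ 2) * (8/15) := by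
      field_simp; ring
    rw [this]
    have : 0 ≤ σ ^ 4 / η ^ 2 := by positivity
    linarith
  calc Psi NE y (insert L E) ≤ ∑' j, ((NE E j : ℝ≥0∞) * y ^ j +
      ENNReal.ofReal (σ ^ 4 / (2 * η ^ 2) * (1 / 16) ^ j)) := ENNReal.tsum_le_tsum hb
    _ = Psi NE y E + ∑' j : ℕ, ENNReal.ofReal (σ ^ 4 / (2 * η ^ 2) * (1 / 16) ^ j) := by
        rw [ENNReal.tsum_add]; rfl
    _ ≤ _ := by gcongr

lemma NE_union [Finite G] (y : ℝ≥0∞) (k : ℕ) (hk : 1 ≤ k) (E : Set (List (Nt G × Nt G)))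
    (hE : ∀ L ∈ Iv (G := G) k, L ∉ E) :
    Psi NE y E + ((Iv (G := G) k).card : ℝ≥0∞) * y ^ (2 * k + 1) ≤ Psi NE y (E ∪ (Iv (G := G) k : Set (List (Nt G × Nt G)))) := by
  classical
  have h1 : ((Iv (G := G) k).card : ℝ≥0∞) * y ^ (2 * k + 1) =
      ∑' j : ℕ, (if j = 2 * k + 1 then ((Iv (G := G) k).card : ℝ≥0∞) else 0) * y ^ j := by
    rw [tsum_eq_single (2 * k + 1)]
    · simp
    · intro j hj; simp [hj]
  rw [h1, Psi, Psi, ← ENNReal.tsum_add]
  apply ENNReal.tsum_le_tsum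
  intro j
  rw [← add_mul]
  gcongr
  by_cases hj : j = 2 * k + 1
  · rw [if_pos hj]
    have h2 : NE E j + (Iv (G := G) k).card ≤ NE (E ∪ (Iv (G := G) k : Set (List (Nt G × Nt G)))) j := by
      apply NN_ge (ix E) _ (none_mem_ix E) (ix_mono Set.subset_union_left)
      intro L hL
      have hlen := (mem_Iv k L).mp hL
      refine ⟨?_, ?_, ?_, ?_⟩
      · rintro rfl
        simp at hlen; omega
      · rw [some_mem_ix]; right; exact hL
      · rw [some_mem_ix]; exact hE L hL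
      · omega
    exact_mod_cast h2
  · rw [if_neg hj, add_zero]
    exact_mod_cast NE_mono E _ Set.subset_union_left j

/-- everything from level `k0` on -/
def top (G : Type) [Group G] [Finite G] (k0 : ℕ) : Set (List (Nt G × Nt G)) :=
  ⋃ k, (Iv (G := G) (k0 + k) : Set (List (Nt G × Nt G)))

lemma gap (q η : ℝ) (h0 : 0 < η) (hq2 : (2:ℝ)^65 ≤ (q - 1)^2) (K : ℕ)
    (hK : q ^ 8 ≤ 2 ^ K * η ^ 14) :
    epsr q η K ≤ ((q - 1)^2)^(K+1) * (η ^ 4) ^ (2 * (K+1) + 1) := by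
  have hη2 : 0 < η ^ 2 := by positivity
  rw [epsr, div_le_iff₀ hη2]
  have e1 : (q ^ 2 * (256 * η) ^ (2 * K)) ^ 4 = q ^ 8 * ((2:ℝ)^64)^K * η ^ (8*K) := by
    rw [mul_pow, mul_pow, mul_pow, ← pow_mul, ← pow_mul, ← pow_mul, ← pow_mul]
    have : ((256 : ℝ)) ^ (2 * K * 4) = 2 ^ (64 * K) := by
      have h256 : (256 : ℝ) = 2 ^ 8 := by norm_num
      rw [h256, ← pow_mul]; congr 1; ring
    rw [this]
    have : 2 * K * 4 = 8 * K := by ring
    rw [this]
    ring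
  have e2 : (η ^ 4) ^ (2 * (K + 1) + 1) * η ^ 2 = η ^ (8*K) * η ^ 14 := by
    rw [← pow_mul, ← pow_add, ← pow_add]; congr 1; ring
  rw [e1, mul_assoc (((q - 1)^2)^(K+1)), e2]
  have e3 : ((2:ℝ)^65)^K ≤ ((q-1)^2)^K := pow_le_pow_left₀ (by positivity) hq2 K
  have e4 : (1:ℝ) ≤ (q-1)^2 := le_trans (by norm_num) hq2
  have e5 : ((2:ℝ)^65)^K = ((2:ℝ)^64)^K * 2^K := by
    rw [← mul_pow]; congr 1
  calc q ^ 8 * ((2:ℝ)^64)^K * η ^ (8*K) ≤ (2 ^ K * η ^ 14) * ((2:ℝ)^64)^K * η ^ (8*K) := by gcongr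
    _ = ((2:ℝ)^65)^K * 1 * (η ^ (8*K) * η ^ 14) := by rw [e5]; ring
    _ ≤ ((q-1)^2)^K * (q-1)^2 * (η ^ (8*K) * η ^ 14) := by gcongr
    _ = ((q - 1)^2)^(K+1) * (η ^ (8*K) * η ^ 14) := by rw [pow_succ ((q - 1)^2) K]

lemma eps_tendsto (q η : ℝ) (h1 : 0 ≤ 256 * η) (h2 : 256 * η < 1) (k0 : ℕ) :
    Tendsto (fun k => ENNReal.ofReal (epsr q η (k0 + k))) atTop (𝓝 0) := by
  rw [← ENNReal.ofReal_zero]
  apply ENNReal.tendsto_ofReal
  have h3 : Tendsto (fun K => epsr q η K) atTop (𝓝 0) := by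
    have h4 : Tendsto (fun K : ℕ => (256 * η) ^ (2 * K)) atTop (𝓝 0) := by
      have h5 := tendsto_pow_atTop_nhds_zero_of_lt_one (r := (256 * η)^2) (by positivity)
        (by nlinarith)
      refine h5.congr (fun K => ?_)
      rw [← pow_mul]
    have h6 : Tendsto (fun K : ℕ => (q ^ 2 * (256 * η) ^ (2 * K)) ^ 4 / η ^ 2) atTop (𝓝 ((q ^ 2 * 0)^4 / η ^ 2)) :=
      ((h4.const_mul (q^2)).pow 4).div_const _
    simpa [epsr] using h6
  have h7 := (tendsto_add_atTop_iff_nat k0).mpr h3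
  refine h7.congr (fun K => ?_)
  rw [add_comm]

theorem attain [Fintype G] (η : ℝ) (h0 : 0 < η) (h1 : (Fintype.card G : ℝ) * (256 * η) ≤ 1)
    (hq2 : (2:ℝ)^65 ≤ ((Fintype.card G : ℝ) - 1)^2) (k0 : ℕ) (hk0 : 1 ≤ k0)
    (hk : (Fintype.card G : ℝ) ^ 8 ≤ 2 ^ k0 * η ^ 14) (s : ℝ≥0∞)
    (hbot : Psi (NE (G := G)) (ENNReal.ofReal (η ^ 4)) ∅ ≤ s)
    (htop : s ≤ Psi (NE (G := G)) (ENNReal.ofReal (η ^ 4)) (top G k0)) :
    ∃ E : Set (List (Nt G × Nt G)), Psi NE (ENNReal.ofReal (η ^ 4)) E = s := by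
  classical
  set q : ℝ := (Fintype.card G : ℝ) with hq
  have hq1 : 1 ≤ q := by
    have : 0 < Fintype.card G := Fintype.card_pos
    rw [hq]; exact_mod_cast this
  refine kakeya (fun k => Iv (G := G) (k0 + k)) NE (ENNReal.ofReal (η ^ 4)) ?_ (fun E E' h j => NE_mono E E' h j)
    (fun k => ENNReal.ofReal (epsr q η (k0 + k)))
    (fun k => ((Iv (G := G) (k0 + k)).card : ℝ≥0∞) * (ENNReal.ofReal (η ^ 4)) ^ (2 * (k0 + k) + 1))
    ?_ ?_ ?_ ?_ NE_fin s hbot htop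
  · intro i j hij
    rw [Finset.disjoint_left]
    intro L h1 h2
    rw [mem_Iv] at h1 h2
    omega
  · intro k L hL E
    rw [mem_Iv] at hL
    have := NE_insert η h0 h1 E L
    rw [hL] at this
    exact this
  · intro k E hE
    exact NE_union _ (k0 + k) (by omega) E hE
  · intro k
    rw [card_Iv, ← ENNReal.ofReal_pow (by positivity), ← ENNReal.ofReal_natCast, ← ENNReal.ofReal_mul (by positivity)]
    apply ENNReal.ofReal_le_ofReal
    have h2 : (((((Fintype.card G - 1) ^ 2) ^ (k0 + (k + 1)) : ℕ)) : ℝ) = ((q - 1)^2)^((k0+k)+1) := by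
      have : 1 ≤ Fintype.card G := Fintype.card_pos
      push_cast [Nat.cast_sub this]
      rw [hq]
      congr 1
    rw [h2]
    have h3 : k0 + (k + 1) = k0 + k + 1 := by ring
    rw [h3]
    apply gap q η h0 hq2
    refine le_trans hk ?_
    gcongr
    · norm_num
    · omega
  · have h256 : 256 * η < 1 := by
      have h3 : 0 ≤ 256 * η := by positivity
      have h4 : (2:ℝ)^65 ≤ (q-1)^2 := hq2
      have h5 : 2 < q := by nlinarith
      nlinarith
    exact eps_tendsto q η (by positivity) h256 k0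

lemma W_image (E : Set (Ix G)) (j : ℕ) :
    W ((Fb false : Subgroup (Lg G)).map (mk' E)) ((Fb true : Subgroup (Lg G)).map (mk' E)) j = mk' E '' V G j := by
  induction j with
  | zero => rw [W_zero, V_zero, Subgroup.coe_map]
  | succ j ih => rw [W_succ, V_succ, ih, Subgroup.coe_map, Subgroup.coe_map, Set.image_mul, Set.image_mul]

lemma cN_eq_NN (E : Set (Ix G)) (j : ℕ) :
    cN ((Fb false : Subgroup (Lg G)).map (mk' E)) ((Fb true : Subgroup (Lg G)).map (mk' E)) j = NN E j := by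
  rw [cN, NN, W_image, Set.image_image]
  rfl

instance map_finite [Finite G] (b : Bool) (E : Set (Ix G)) : Finite ((Fb b : Subgroup (Lg G)).map (mk' E)) := by
  have : (((Fb b : Subgroup (Lg G)).map (mk' E) : Subgroup (Lg G)) : Set (Lg G)).Finite := by
    rw [Subgroup.coe_map]
    exact (Fb_finite b).image _
  exact this

/-- target value -/
noncomputable def tgt (μ y : ℝ) : ℝ := μ / ((μ - 1) * (1 - y))

theorem realize [Fintype G] (M : Type) [Group M] [Fintype M] (hM : 2 ≤ Fintype.card M) (η : ℝ) (h0 : 0 < η)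
    (h1 : (Fintype.card G : ℝ) * (256 * η) ≤ 1)
    (hq2 : (2:ℝ)^65 ≤ ((Fintype.card G : ℝ) - 1)^2) (k0 : ℕ) (hk0 : 1 ≤ k0)
    (hk : (Fintype.card G : ℝ) ^ 8 ≤ 2 ^ k0 * η ^ 14)
    (hbot : Psi (NE (G := G)) (ENNReal.ofReal (η ^ 4)) ∅ ≤ ENNReal.ofReal (tgt (Fintype.card M) (η ^ 4)))
    (htop : ENNReal.ofReal (tgt (Fintype.card M) (η ^ 4)) ≤ Psi (NE (G := G)) (ENNReal.ofReal (η ^ 4)) (top G k0)) :
    ∃ (H : Type) (_ : Group H) (P Q : Subgroup H), Finite P ∧ Finite Q ∧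
    (∀ r, (1 / η ^ 4) ^ r ≤ ((Wr.Bl P Q r).ncard : ℝ)) ∧
    (∀ v, 1 / η ^ 4 < v → ∃ C, 0 ≤ C ∧ ∀ r, ((Wr.Bl P Q r).ncard : ℝ) ≤ C * v ^ r) := by
  obtain ⟨E, hE⟩ := attain η h0 h1 hq2 k0 hk0 hk _ hbot htop
  have hη : η < 1 := by
    have h5 : 2 < (Fintype.card G : ℝ) := by
      have : (1:ℝ) ≤ Fintype.card G := by
        have : 0 < Fintype.card G := Fintype.card_pos
        exact_mod_cast this
      nlinarith
    nlinarith
  have hy1 : η ^ 4 < 1 := pow_lt_one₀ h0.le hη (by norm_num)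
  refine renewal ((Fb false : Subgroup (Lg G)).map (mk' (ix E))) ((Fb true : Subgroup (Lg G)).map (mk' (ix E))) M hM
    (η ^ 4) (by positivity) hy1 ?_
  rw [← tgt, ← hE, Psi]
  apply tsum_congr
  intro j
  rw [cN_eq_NN]
  rfl

/-- bottom value as a sum over cosets -/
lemma bot_eq [Finite G] (u : ℝ≥0∞) : Psi (NE (G := G)) u ∅ =
    (1 + Th ((Fb false : Subgroup (Lg G)).map (mk' (ix ∅))) ((Fb true : Subgroup (Lg G)).map (mk' (ix ∅))) u) * (1 - u)⁻¹ := by
  rw [← psi_eq, Psi]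
  apply tsum_congr
  intro j
  rw [cN_eq_NN]
  rfl

lemma Th_mono {A : Type} [Group A] (Pa Fa : Subgroup A) {u v : ℝ≥0∞} (h : u ≤ v) : Th Pa Fa u ≤ Th Pa Fa v := by
  apply ENNReal.tsum_le_tsum
  intro ξ
  gcongr

lemma top_ge [Fintype G] (hG : 2 ≤ Fintype.card G) (k0 : ℕ) (hk0 : 1 ≤ k0) (y : ℝ≥0∞) :
    Psi (NE (G := G)) y ∅ + y ^ (2 * k0 + 1) ≤ Psi (NE (G := G)) y (top G k0) := by
  have h1 := NE_union (G := G) y k0 hk0 ∅ (by intro L _; exact Set.notMem_empty L)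
  have h2 : Psi (NE (G := G)) y (∅ ∪ (Iv (G := G) k0 : Set (List (Nt G × Nt G)))) ≤ Psi (NE (G := G)) y (top G k0) := by
    apply Psi_mono NE y (fun E E' h j => NE_mono E E' h j)
    rw [Set.empty_union]
    exact Set.subset_iUnion (fun k => (Iv (G := G) (k0 + k) : Set (List (Nt G × Nt G)))) 0
  refine le_trans ?_ (h1.trans h2)
  gcongr
  have h3 : 1 ≤ (Iv (G := G) k0).card := by
    rw [card_Iv]
    apply Nat.one_le_pow
    apply pow_pos
    omega
  calc y ^ (2 * k0 + 1) = ((1 : ℕ) : ℝ≥0∞) * y ^ (2 * k0 + 1) := by simp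
    _ ≤ _ := by gcongr

end Fam
end Pool.Agent.Helper125
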