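import Pool.Agent.Helper125.Family

set_option autoImplicit false
open scoped Pointwise ENNReal Topology
open Filter

namespace Pool.Agent.Helper125
namespace Fam
open Lg Gam
variable {G : Type} [Group G]

lemma Fb_card [Fintype G] (b : Bool) : (((Fb b : Subgroup (Lg G)) : Set (Lg G))).ncard ≤ 2 * Fintype.card G := by
  rw [Fb_eq, ← Set.image_univ]
  refine le_trans (Set.ncard_image_le (Set.toFinite _)) ?_
  rw [Set.ncard_univ, Nat.card_eq_fintype_card, Fintype.card_prod, Fintype.card_bool, mul_comm]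

lemma V_card [Fintype G] (j : ℕ) : (V G j).ncard ≤ (2 * Fintype.card G) * ((2 * Fintype.card G) ^ 2) ^ j := by
  induction j with
  | zero => rw [V_zero, pow_zero, mul_one]; exact Fb_card true
  | succ j ih =>
    rw [V_succ]
    have h1 : (V G j * (((Fb false : Subgroup (Lg G)) : Set (Lg G)) * ((Fb true : Subgroup (Lg G)) : Set (Lg G)))).ncard ≤
      (V G j).ncard * (((Fb false : Subgroup (Lg G)) : Set (Lg G)) * ((Fb true : Subgroup (Lg G)) : Set (Lg G))).ncard :=
      Set.natCard_mul_le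
    have h2 : (((Fb false : Subgroup (Lg G)) : Set (Lg G)) * ((Fb true : Subgroup (Lg G)) : Set (Lg G))).ncard ≤
      (((Fb false : Subgroup (Lg G)) : Set (Lg G))).ncard * (((Fb true : Subgroup (Lg G)) : Set (Lg G))).ncard :=
      Set.natCard_mul_le
    have h3 := Fb_card (G := G) false
    have h4 := Fb_card (G := G) true
    calc _ ≤ _ := h1
      _ ≤ ((2 * Fintype.card G) * ((2 * Fintype.card G) ^ 2) ^ j) * ((2 * Fintype.card G) * (2 * Fintype.card G)) :=
        Nat.mul_le_mul ih (h2.trans (Nat.mul_le_mul h3 h4))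
      _ = _ := by ring

/-- coefficients of the bottom series -/
noncomputable def cb (G : Type) [Group G] (j : ℕ) : ℕ := NE (G := G) ∅ j

lemma cb_le [Fintype G] (j : ℕ) : cb G j ≤ (2 * Fintype.card G) * ((2 * Fintype.card G) ^ 2) ^ j :=
  le_trans (Set.ncard_image_le (V_finite j)) (V_card j)

lemma cb_zero [Finite G] : cb G 0 = 1 := by
  rw [cb, NE, NN, V_zero]
  have : cos (ix ∅) '' ((Fb true : Subgroup (Lg G)) : Set (Lg G)) = {cos (ix ∅) 1} := by
    ext ξ
    constructor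
    · rintro ⟨φ, hφ, rfl⟩
      have := cos_right (ix (∅ : Set (List (Nt G × Nt G)))) (v := 1) hφ
      rw [one_mul] at this
      exact this
    · rintro h
      rw [Set.mem_singleton_iff] at h
      exact ⟨1, Subgroup.one_mem _, h.symm⟩
  rw [this, Set.ncard_singleton]

lemma inc_false_ne (s s' : G) (hs : s ≠ 1) : inc false s ≠ inc true s' := by
  intro h
  have r1 : Red ([⟨false, s⟩] : List (Lt G)) := by simp [Red, hs]
  have e1 : ev ([⟨false, s⟩] : List (Lt G)) = inc false s := by simp [ev]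
  by_cases hs' : s' = 1
  · rw [hs', map_one] at h
    have r2 : Red ([] : List (Lt G)) := by simp [Red]
    have := red_inj r1 r2 (by rw [e1, h, ev_nil])
    simp at this
  · have r2 : Red ([⟨true, s'⟩] : List (Lt G)) := by simp [Red, hs']
    have e2 : ev ([⟨true, s'⟩] : List (Lt G)) = inc true s' := by simp [ev]
    have := red_inj r1 r2 (by rw [e1, e2, h])
    simp at this

lemma cb_one [Finite G] (s : G) (hs : s ≠ 1) : 2 ≤ cb G 1 := by
  have h1 : cos (ix ∅) (val (false, s, false) : Lg G) ≠ cos (ix ∅) 1 := by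
    intro h
    rw [cos_eq_iff] at h
    obtain ⟨φ, ⟨s', e, rfl⟩, h1⟩ := h
    have h2 := ((mk'_eq_iff _ _ _).mp h1).1
    simp only [val_pos, mul_one, inv_pos'] at h2
    have h3 : inc false s = inc true s'⁻¹ := by rw [map_inv, h2, inv_inv]
    exact inc_false_ne s _ hs h3
  have h2 : ({cos (ix ∅) (val (false, s, false) : Lg G), cos (ix ∅) 1} : Set _) ⊆ cos (ix ∅) '' V G 1 := by
    intro ξ hξ
    rcases hξ with rfl | rfl
    · refine ⟨val (false, s, false), ?_, rfl⟩
      rw [V_succ, V_zero]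
      have := Set.mul_mem_mul (Subgroup.one_mem (Fb true : Subgroup (Lg G)))
        (Set.mul_mem_mul (val_mem false s false) (Subgroup.one_mem (Fb true : Subgroup (Lg G))))
      simpa using this
    · refine ⟨1, ?_, rfl⟩
      exact V_mono (Nat.zero_le 1) (by rw [V_zero]; exact Subgroup.one_mem _)
  have h3 := Set.ncard_le_ncard h2 ((V_finite 1).image _)
  rw [Set.ncard_pair h1] at h3
  exact h3

lemma cb_pos [Finite G] (j : ℕ) : 1 ≤ cb G j := by
  have h1 : (cos (ix (∅ : Set (List (Nt G × Nt G)))) '' V G j).Nonempty :=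
    ⟨_, 1, V_mono (Nat.zero_le j) (by rw [V_zero]; exact Subgroup.one_mem _), rfl⟩
  exact (Set.ncard_pos ((V_finite j).image _)).mpr h1

/-- bottom series -/
noncomputable def be (G : Type) [Group G] (y : ℝ) : ℝ := ∑' j, (cb G j : ℝ) * y ^ j

section
variable [Fintype G] (R : ℝ) (hR0 : 0 < R) (hR : (2 * (Fintype.card G : ℝ)) ^ 2 * R < 1)

include hR0 hR

lemma be_bound_summable : Summable (fun j : ℕ => (2 * (Fintype.card G : ℝ)) * ((2 * (Fintype.card G : ℝ)) ^ 2 * R) ^ j) :=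
  (summable_geometric_of_lt_one (by positivity) hR).mul_left _

omit hR0 hR in
lemma be_term (j : ℕ) (y : ℝ) (hy : y ∈ Set.Icc 0 R) :
    ‖(cb G j : ℝ) * y ^ j‖ ≤ (2 * (Fintype.card G : ℝ)) * ((2 * (Fintype.card G : ℝ)) ^ 2 * R) ^ j := by
  rw [Real.norm_eq_abs, abs_of_nonneg (mul_nonneg (Nat.cast_nonneg _) (pow_nonneg hy.1 _))]
  have h1 : (cb G j : ℝ) ≤ (2 * (Fintype.card G : ℝ)) * ((2 * (Fintype.card G : ℝ)) ^ 2) ^ j := by
    have := cb_le (G := G) j
    exact_mod_cast this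
  calc (cb G j : ℝ) * y ^ j ≤ ((2 * (Fintype.card G : ℝ)) * ((2 * (Fintype.card G : ℝ)) ^ 2) ^ j) * R ^ j := by
        have h2 : y ^ j ≤ R ^ j := pow_le_pow_left₀ hy.1 hy.2 j
        have h3 : 0 ≤ y ^ j := pow_nonneg hy.1 _
        gcongr
    _ = _ := by rw [mul_pow]; ring

lemma be_summable (y : ℝ) (hy : y ∈ Set.Icc 0 R) : Summable (fun j => (cb G j : ℝ) * y ^ j) :=
  Summable.of_norm_bounded (be_bound_summable R hR0 hR) (fun j => be_term R j y hy)

lemma be_cont : ContinuousOn (be G) (Set.Icc 0 R) := by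
  apply continuousOn_tsum (u := fun j : ℕ => (2 * (Fintype.card G : ℝ)) * ((2 * (Fintype.card G : ℝ)) ^ 2 * R) ^ j)
  · intro j
    exact (continuous_const.mul (continuous_pow j)).continuousOn
  · exact be_bound_summable R hR0 hR
  · intro j y hy
    exact be_term R j y hy

lemma psi_be (y : ℝ) (hy : y ∈ Set.Icc 0 R) : Psi (NE (G := G)) (ENNReal.ofReal y) ∅ = ENNReal.ofReal (be G y) := by
  rw [be, ENNReal.ofReal_tsum_of_nonneg (fun j => mul_nonneg (Nat.cast_nonneg _) (pow_nonneg hy.1 _))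
    (be_summable R hR0 hR y hy), Psi]
  apply tsum_congr
  intro j
  rw [ENNReal.ofReal_mul (Nat.cast_nonneg _), ENNReal.ofReal_natCast, ENNReal.ofReal_pow hy.1]
  rfl

lemma be_gt (hR1 : R < 1) (s : G) (hs : s ≠ 1) : 1 < be G R * (1 - R) := by
  have h1 : Summable (fun j : ℕ => R ^ j + (if j = 1 then R else 0)) := by
    apply (summable_geometric_of_lt_one hR0.le hR1).add
    exact (hasSum_ite_eq 1 R).summable
  have h2 : ∑' j : ℕ, (R ^ j + (if j = 1 then R else 0)) = (1 - R)⁻¹ + R := by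
    rw [(summable_geometric_of_lt_one hR0.le hR1).tsum_add (hasSum_ite_eq 1 R).summable,
      tsum_geometric_of_lt_one hR0.le hR1, tsum_ite_eq]
  have h3 : (1 - R)⁻¹ + R ≤ be G R := by
    rw [← h2, be]
    apply h1.tsum_le_tsum _ (be_summable R hR0 hR R ⟨hR0.le, le_rfl⟩)
    intro j
    have h4 : (1:ℝ) ≤ cb G j := by exact_mod_cast cb_pos (G := G) j
    by_cases hj : j = 1
    · subst hj
      have h5 : (2:ℝ) ≤ cb G 1 := by exact_mod_cast cb_one s hs
      rw [if_pos rfl, pow_one]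
      nlinarith
    · rw [if_neg hj, add_zero]
      have : 0 ≤ R ^ j := by positivity
      nlinarith
  have h6 : 0 < 1 - R := by linarith
  calc 1 < 1 + R * (1 - R) := by nlinarith
    _ = ((1 - R)⁻¹ + R) * (1 - R) := by field_simp
    _ ≤ be G R * (1 - R) := by gcongr

end

/-- data realised at the parameter `y` -/
def Good (y : ℝ) : Prop :=
  ∃ (H : Type) (_ : Group H) (P Q : Subgroup H), Finite P ∧ Finite Q ∧
    (∀ r, (1 / y) ^ r ≤ ((Wr.Bl P Q r).ncard : ℝ)) ∧
    (∀ v, 1 / y < v → ∃ C, 0 ≤ C ∧ ∀ r, ((Wr.Bl P Q r).ncard : ℝ) ≤ C * v ^ r)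

theorem interval_aux [Fintype G] (hq2 : (2:ℝ)^65 ≤ ((Fintype.card G : ℝ) - 1)^2) (s : G) (hs : s ≠ 1) :
    ∃ y1 y0 : ℝ, 0 < y1 ∧ y1 < y0 ∧ y0 < 1 ∧ ∀ y, y1 ≤ y → y ≤ y0 → Good y := by
  classical
  set q : ℝ := (Fintype.card G : ℝ) with hq
  have hq1 : 1 ≤ q := by
    have : 0 < Fintype.card G := Fintype.card_pos
    rw [hq]; exact_mod_cast this
  have hq3 : 2 < q := by nlinarith
  set ηR : ℝ := 1 / (256 * q) with hηR
  have hηR0 : 0 < ηR := by positivity
  set R : ℝ := ηR ^ 4 with hR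
  have hR0 : 0 < R := by positivity
  have hηR1 : ηR ≤ 1 / 256 := by
    rw [hηR]
    apply one_div_le_one_div_of_le (by norm_num)
    linarith
  have hqη : q * ηR = 1 / 256 := by rw [hηR]; field_simp
  have hR' : (2 * q) ^ 2 * R < 1 := by
    have : (2 * q) ^ 2 * R = 4 * (q * ηR) ^ 2 * ηR ^ 2 := by rw [hR]; ring
    rw [this, hqη]
    nlinarith
  have hR1 : R < 1 := by
    rw [hR]
    exact pow_lt_one₀ hηR0.le (by linarith) (by norm_num)
  have hcont := be_cont (G := G) R hR0 hR'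
  -- choice of the multiplicity
  have hgt := be_gt (G := G) R hR0 hR' hR1 s hs
  obtain ⟨n, hn⟩ := exists_nat_gt (1 / (be G R * (1 - R) - 1))
  have hgt' : 0 < be G R * (1 - R) - 1 := by linarith
  set μ : ℕ := n + 2 with hμ
  have hμ2 : 2 ≤ μ := by omega
  have hμr : (2:ℝ) ≤ (μ : ℝ) := by exact_mod_cast hμ2
  have hμ1 : 0 < (μ : ℝ) - 1 := by linarith
  have hμn : (n : ℝ) < (μ : ℝ) - 1 := by rw [hμ]; push_cast; linarith
  have hn0 : 0 < (n : ℝ) := lt_trans (by positivity) hn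
  have htR : (μ : ℝ) / ((μ : ℝ) - 1) ≤ be G R * (1 - R) := by
    have h1 : (μ : ℝ) / ((μ : ℝ) - 1) = 1 + 1 / ((μ : ℝ) - 1) := by field_simp; ring
    have h2 : 1 / ((μ : ℝ) - 1) ≤ be G R * (1 - R) - 1 := by
      rw [div_le_iff₀ hμ1]
      rw [div_lt_iff₀ hgt'] at hn
      nlinarith
    linarith
  have ht0 : be G 0 * (1 - 0) ≤ (μ : ℝ) / ((μ : ℝ) - 1) := by
    have h1 : be G 0 = 1 := by
      rw [be, tsum_eq_single 0]
      · rw [cb_zero]; simp
      · intro j hj; simp [hj]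
    rw [h1, le_div_iff₀ hμ1]
    linarith
  have hivt := intermediate_value_Icc hR0.le
    (f := fun y => be G y * (1 - y)) (hcont.mul (continuousOn_const.sub continuousOn_id))
  obtain ⟨y0, hy0, hy0'⟩ := hivt ⟨ht0, htR⟩
  simp only at hy0'
  have hy0pos : 0 < y0 := by
    rcases hy0.1.lt_or_eq with h | h
    · exact h
    · exfalso
      rw [← h] at hy0'
      have h1 : be G 0 = 1 := by
        rw [be, tsum_eq_single 0]
        · rw [cb_zero]; simp
        · intro j hj; simp [hj]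
      rw [h1, eq_div_iff hμ1.ne'] at hy0'
      linarith
  have hy01 : y0 < 1 := lt_of_le_of_lt hy0.2 hR1
  -- choice of the starting level
  set ηm : ℝ := (y0 / 2) ^ ((1:ℝ)/4) with hηm
  have hηm0 : 0 < ηm := by positivity
  have hηm4 : ηm ^ 4 = y0 / 2 := by
    rw [hηm, ← Real.rpow_natCast, ← Real.rpow_mul (by positivity)]
    norm_num
  obtain ⟨k0', hk0'⟩ := pow_unbounded_of_one_lt (q ^ 8 / ηm ^ 14) (one_lt_two (α := ℝ))
  set k0 : ℕ := k0' + 1 with hk0
  have hk0b : q ^ 8 ≤ 2 ^ k0 * ηm ^ 14 := by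
    have h1 : (2:ℝ) ^ k0' ≤ 2 ^ k0 := pow_le_pow_right₀ (by norm_num) (by omega)
    rw [div_lt_iff₀ (by positivity)] at hk0'
    have h2 : 0 < ηm ^ 14 := by positivity
    nlinarith
  -- top inequality near y0
  set D : ℝ → ℝ := fun y => (be G y + y ^ (2 * k0 + 1)) * (1 - y) with hD
  have hDc : ContinuousOn D (Set.Icc 0 R) :=
    (hcont.add (continuous_pow _).continuousOn).mul (continuousOn_const.sub continuousOn_id)
  have hD0 : (μ : ℝ) / ((μ : ℝ) - 1) < D y0 := by
    rw [hD]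
    simp only
    rw [add_mul, hy0']
    have h1 : 0 < 1 - y0 := by linarith
    have : 0 < y0 ^ (2 * k0 + 1) * (1 - y0) := by positivity
    linarith
  have hev : ∀ᶠ y in 𝓝[Set.Icc 0 R] y0, (μ : ℝ) / ((μ : ℝ) - 1) < D y := (hDc y0 hy0).eventually (lt_mem_nhds hD0)
  rw [eventually_nhdsWithin_iff, Metric.eventually_nhds_iff] at hev
  obtain ⟨δ, hδ, hev⟩ := hev
  refine ⟨max (y0 / 2) (y0 - δ / 2), y0, lt_max_of_lt_left (by positivity), max_lt (by linarith) (by linarith), hy01, ?_⟩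
  intro y hy1 hy2
  have hya : y0 / 2 ≤ y := (le_max_left _ _).trans hy1
  have hyb : y0 - δ / 2 ≤ y := (le_max_right _ _).trans hy1
  have hypos : 0 < y := by linarith
  have hyR : y ∈ Set.Icc 0 R := ⟨hypos.le, hy2.trans hy0.2⟩
  have hy11 : y < 1 := lt_of_le_of_lt hy2 hy01
  have hDy : (μ : ℝ) / ((μ : ℝ) - 1) < D y := by
    apply hev _ hyR
    rw [Real.dist_eq, abs_lt]
    constructor <;> linarith
  set η : ℝ := y ^ ((1:ℝ)/4) with hη
  have hη0 : 0 < η := by positivity
  have hη4 : η ^ 4 = y := by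
    rw [hη, ← Real.rpow_natCast, ← Real.rpow_mul (by positivity)]
    norm_num
  have hηle : η ≤ ηR := by
    have : η ^ 4 ≤ ηR ^ 4 := by rw [hη4]; exact hyR.2
    exact (pow_le_pow_iff_left₀ hη0.le hηR0.le (by norm_num)).mp this
  have hηge : ηm ≤ η := by
    have : ηm ^ 4 ≤ η ^ 4 := by rw [hη4, hηm4]; exact hya
    exact (pow_le_pow_iff_left₀ hηm0.le hη0.le (by norm_num)).mp this
  have h1 : q * (256 * η) ≤ 1 := by
    have : q * (256 * η) ≤ q * (256 * ηR) := by gcongr
    have h2 : q * (256 * ηR) = 256 * (q * ηR) := by ring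
    rw [h2, hqη] at this
    linarith
  have : NeZero μ := ⟨by omega⟩
  have hM : Fintype.card (Multiplicative (ZMod μ)) = μ := by
    rw [Fintype.card_multiplicative, ZMod.card]
  have h1y : 0 < 1 - y := by linarith
  have key := realize (G := G) (Multiplicative (ZMod μ)) (by rw [hM]; exact hμ2) η hη0 h1 hq2 k0 (by omega)
    (hk0b.trans (by gcongr)) ?_ ?_
  · rw [hη4] at key
    exact key
  · rw [hM, hη4, bot_eq]
    have e1 : 1 + Th ((Fb false : Subgroup (Lg G)).map (mk' (ix ∅))) ((Fb true : Subgroup (Lg G)).map (mk' (ix ∅))) (ENNReal.ofReal y0)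
        = ENNReal.ofReal ((μ : ℝ) / ((μ : ℝ) - 1)) := by
      have a1 := bot_eq (G := G) (ENNReal.ofReal y0)
      rw [psi_be (G := G) R hR0 hR' y0 hy0] at a1
      have a2 : 1 - ENNReal.ofReal y0 = ENNReal.ofReal (1 - y0) := by
        rw [ENNReal.ofReal_sub _ hy0.1, ENNReal.ofReal_one]
      rw [a2] at a1
      have a3 : ENNReal.ofReal (1 - y0) ≠ 0 := by
        rw [Ne, ENNReal.ofReal_eq_zero]; linarith
      have a4 := congrArg (fun t => t * ENNReal.ofReal (1 - y0)) a1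
      rw [mul_assoc, ENNReal.inv_mul_cancel a3 ENNReal.ofReal_ne_top, mul_one, ← ENNReal.ofReal_mul' (by linarith), hy0'] at a4
      exact a4.symm
    have e2 : 1 - ENNReal.ofReal y = ENNReal.ofReal (1 - y) := by
      rw [ENNReal.ofReal_sub _ hypos.le, ENNReal.ofReal_one]
    calc (1 + Th ((Fb false : Subgroup (Lg G)).map (mk' (ix ∅))) ((Fb true : Subgroup (Lg G)).map (mk' (ix ∅))) (ENNReal.ofReal y)) * (1 - ENNReal.ofReal y)⁻¹
        ≤ (1 + Th ((Fb false : Subgroup (Lg G)).map (mk' (ix ∅))) ((Fb true : Subgroup (Lg G)).map (mk' (ix ∅))) (ENNReal.ofReal y0)) * (1 - ENNReal.ofReal y)⁻¹ := by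
          gcongr
          exact Th_mono _ _ (ENNReal.ofReal_le_ofReal hy2)
      _ = ENNReal.ofReal ((μ : ℝ) / ((μ : ℝ) - 1)) * (ENNReal.ofReal (1 - y))⁻¹ := by rw [e1, e2]
      _ = ENNReal.ofReal (tgt μ y) := by
          rw [← ENNReal.ofReal_inv_of_pos h1y, ← ENNReal.ofReal_mul (by positivity), tgt]
          congr 1
          field_simp
      _ ≤ _ := le_rfl
  · rw [hM, hη4]
    have hG2 : 2 ≤ Fintype.card G := by
      have : (2:ℝ) < (Fintype.card G : ℝ) := hq3
      have : 2 < Fintype.card G := by exact_mod_cast this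
      omega
    refine le_trans ?_ (top_ge (G := G) hG2 k0 (by omega) (ENNReal.ofReal y))
    rw [psi_be (G := G) R hR0 hR' y hyR, ← ENNReal.ofReal_pow hypos.le]
    have hbe : 0 ≤ be G y := tsum_nonneg (fun j => mul_nonneg (Nat.cast_nonneg _) (pow_nonneg hypos.le _))
    rw [← ENNReal.ofReal_add hbe (by positivity)]
    apply ENNReal.ofReal_le_ofReal
    rw [tgt, ← div_div, div_le_iff₀ h1y]
    exact hDy.le

/-- an interval of good parameters -/
theorem exists_interval : ∃ y1 y0 : ℝ, 0 < y1 ∧ y1 < y0 ∧ y0 < 1 ∧ ∀ y, y1 ≤ y → y ≤ y0 → Good y := by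
  set q : ℕ := 2 ^ 33 + 1 with hq
  have : NeZero q := ⟨by omega⟩
  have hc : Fintype.card (Multiplicative (ZMod q)) = q := by
    rw [Fintype.card_multiplicative, ZMod.card]
  have hq2 : (2:ℝ)^65 ≤ ((Fintype.card (Multiplicative (ZMod q)) : ℝ) - 1)^2 := by
    rw [hc, hq]; push_cast; norm_num
  have hnt : ∃ s : Multiplicative (ZMod q), s ≠ 1 := by
    have : 1 < Fintype.card (Multiplicative (ZMod q)) := by rw [hc, hq]; norm_num
    obtain ⟨s, hs⟩ := Fintype.exists_ne_of_one_lt_card this 1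
    exact ⟨s, hs⟩
  obtain ⟨s, hs⟩ := hnt
  exact interval_aux hq2 s hs

end Fam
end Pool.Agent.Helper125
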