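import Pool.Agent.Helper125.FP

set_option autoImplicit false
open scoped Pointwise

namespace Pool.Agent.Helper125

/-- the lamp values -/
abbrev DD : Type := DihedralGroup 4

/-- two non-commuting involutions -/
def KK (b : Bool) : DD := if b then DihedralGroup.sr 1 else DihedralGroup.sr 0

lemma KK_sq (b : Bool) : KK b * KK b = 1 := by cases b <;> decide
lemma KK_ne (b : Bool) : KK b ≠ 1 := by cases b <;> decide
lemma KK_ne' (b : Bool) : KK b ≠ KK (!b) := by cases b <;> decide
lemma KK_comm : KK false * KK true ≠ KK true * KK false := by decide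

/-- two sign characters -/
def chi (b : Bool) : DD →* ℤˣ where
  toFun x := match x with
    | .r i => if i.val % 2 = 0 then 1 else -1
    | .sr i => if (i.val + (if b then 0 else 1)) % 2 = 0 then 1 else -1
  map_one' := by cases b <;> decide
  map_mul' := by cases b <;> decide

lemma chi_same (b : Bool) : chi b (KK b) = -1 := by cases b <;> decide
lemma chi_other (b : Bool) : chi b (KK (!b)) = 1 := by cases b <;> decide

/-- a list of letters 1, `KK c`, with an even number of `KK c` has trivial product -/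
lemma prod_single (c : Bool) (l : List DD) (h : ∀ x ∈ l, x = 1 ∨ x = KK c) :
    (l.prod = 1 ∧ chi c l.prod = 1) ∨ (l.prod = KK c ∧ chi c l.prod = -1) := by
  induction l with
  | nil => left; simp
  | cons x l ih =>
    have ih' := ih (fun y hy => h y (List.mem_cons_of_mem _ hy))
    rw [List.prod_cons]
    rcases h x List.mem_cons_self with rfl | rfl
    · rwa [one_mul]
    · rcases ih' with ⟨h1, _⟩ | ⟨h1, _⟩
      · right; rw [h1, mul_one]; exact ⟨rfl, chi_same c⟩
      · left; rw [h1, KK_sq]; simp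


lemma prod_none (c : Bool) (l : List DD) (h : ∀ x ∈ l, x = 1 ∨ x = KK c ∨ x = KK (!c)) (hc : KK (!c) ∉ l) :
    l.prod = 1 ∨ l.prod = KK c := by
  have : ∀ x ∈ l, x = 1 ∨ x = KK c := by
    intro x hx
    rcases h x hx with h | h | h
    · exact Or.inl h
    · exact Or.inr h
    · exact absurd (h ▸ hx) hc
  rcases prod_single c l this with h | h
  · exact Or.inl h.1
  · exact Or.inr h.1

lemma pattern (l : List DD) (h : ∀ x ∈ l, x = 1 ∨ x = KK false ∨ x = KK true)
    (h0 : chi false l.prod = 1) (h1 : chi true l.prod = 1) (hp : l.prod ≠ 1) :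
    ∃ (c : Bool) (l0 l1 l2 l3 l4 : List DD),
      l = l0 ++ (KK c :: l1) ++ (KK (!c) :: l2) ++ (KK c :: l3) ++ (KK (!c) :: l4) := by
  have hF : ∀ m : List DD, (∀ x ∈ m, x ∈ l) → KK true ∉ m → m.prod = 1 ∨ m.prod = KK false := by
    intro m hm hn
    exact prod_none false m (fun x hx => h x (hm x hx)) hn
  have hT : ∀ m : List DD, (∀ x ∈ m, x ∈ l) → KK false ∉ m → m.prod = 1 ∨ m.prod = KK true := by
    intro m hm hn
    refine prod_none true m (fun x hx => ?_) hn
    rcases h x (hm x hx) with h | h | h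
    · exact Or.inl h
    · exact Or.inr (Or.inr h)
    · exact Or.inr (Or.inl h)
  by_cases hA : KK false ∈ l
  swap
  · exfalso
    rcases hT l (fun x hx => hx) hA with h2 | h2
    · exact hp h2
    · rw [h2] at h1; revert h1; decide
  obtain ⟨l0, L1, rfl, hA0⟩ := List.eq_append_cons_of_mem hA
  have e0 := hT l0 (fun x hx => by simp [hx]) hA0
  by_cases hB1 : KK true ∈ L1
  swap
  · exfalso
    have e1 := hF L1 (fun x hx => by simp [hx]) hB1
    rw [List.prod_append, List.prod_cons] at h0 h1 hp
    rcases e0 with e0 | e0 <;> rcases e1 with e1 | e1 <;> rw [e0, e1] at h0 h1 hp <;>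
      revert h0 h1 hp <;> decide
  obtain ⟨l1, L2, rfl, hB1'⟩ := List.eq_append_cons_of_mem hB1
  have e1 := hF l1 (fun x hx => by simp [hx]) hB1'
  by_cases hA2 : KK false ∈ L2
  swap
  · exfalso
    have e2 := hT L2 (fun x hx => by simp [hx]) hA2
    rw [List.prod_append, List.prod_cons, List.prod_append, List.prod_cons] at h0 h1 hp
    rcases e0 with e0 | e0 <;> rcases e1 with e1 | e1 <;> rcases e2 with e2 | e2 <;>
      rw [e0, e1, e2] at h0 h1 hp <;>
      revert h0 h1 hp <;> decide
  obtain ⟨l2, L3, rfl, hA2'⟩ := List.eq_append_cons_of_mem hA2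
  have e2 := hT l2 (fun x hx => by simp [hx]) hA2'
  by_cases hB3 : KK true ∈ L3
  · obtain ⟨l3, L4, rfl, hB3'⟩ := List.eq_append_cons_of_mem hB3
    exact ⟨false, l0, l1, l2, l3, L4, by simp⟩
  · have e3 := hF L3 (fun x hx => by simp [hx]) hB3
    by_cases hB0 : KK true ∈ l0
    · obtain ⟨m0, m1, rfl, _⟩ := List.eq_append_cons_of_mem hB0
      exact ⟨true, m0, m1, l1, l2, L3, by simp⟩
    · exfalso
      have e0' := hF l0 (fun x hx => by simp [hx]) hB0
      rw [List.prod_append, List.prod_cons, List.prod_append, List.prod_cons,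
        List.prod_append, List.prod_cons] at h0 h1 hp
      have e0'' : l0.prod = 1 := by
        rcases e0 with e0 | e0
        · exact e0
        · rcases e0' with e0' | e0'
          · exact e0'
          · rw [e0] at e0'; exact absurd e0' (by decide)
      rcases e1 with e1 | e1 <;> rcases e2 with e2 | e2 <;> rcases e3 with e3 | e3 <;>
        rw [e0'', e1, e2, e3] at h0 h1 hp <;>
        revert h0 h1 hp <;> decide

/-- index set of the lamps -/
abbrev Ix (G : Type) [Group G] : Type := Option (List (Gam.Nt G × Gam.Nt G))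

open Classical in
/-- lamp group -/
@[ext] structure Lg (G : Type) [Group G] where
  lamp : Gam G → Ix G → DD
  pos : Gam G

namespace Lg
open Gam
variable {G : Type} [Group G]

instance : Mul (Lg G) := ⟨fun a b => ⟨fun u o => a.lamp u o * b.lamp (a.pos⁻¹ * u) o, a.pos * b.pos⟩⟩
instance : One (Lg G) := ⟨⟨fun _ _ => 1, 1⟩⟩
instance : Inv (Lg G) := ⟨fun a => ⟨fun u o => (a.lamp (a.pos * u) o)⁻¹, a.pos⁻¹⟩⟩

@[simp] lemma mul_lamp (a b : Lg G) (u : Gam G) (o : Ix G) :
    (a * b).lamp u o = a.lamp u o * b.lamp (a.pos⁻¹ * u) o := rfl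
@[simp] lemma mul_pos' (a b : Lg G) : (a * b).pos = a.pos * b.pos := rfl
@[simp] lemma one_lamp (u : Gam G) (o : Ix G) : (1 : Lg G).lamp u o = 1 := rfl
@[simp] lemma one_pos' : (1 : Lg G).pos = 1 := rfl
@[simp] lemma inv_lamp (a : Lg G) (u : Gam G) (o : Ix G) : (a⁻¹).lamp u o = (a.lamp (a.pos * u) o)⁻¹ := rfl
@[simp] lemma inv_pos' (a : Lg G) : (a⁻¹).pos = a.pos⁻¹ := rfl

lemma ext' {a b : Lg G} (h1 : ∀ u o, a.lamp u o = b.lamp u o) (h2 : a.pos = b.pos) : a = b := by
  apply Lg.ext
  · funext u o; exact h1 u o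
  · exact h2

instance : Group (Lg G) := Group.ofLeftAxioms
  (by
    intro a b c
    apply ext'
    · intro u o; simp [mul_assoc]
    · simp [mul_assoc])
  (by
    intro a
    apply ext'
    · intro u o; simp
    · simp)
  (by
    intro a
    apply ext'
    · intro u o; simp
    · simp)

/-- base point attached to an index -/
def hm (o : Ix G) : Gam G := o.elim 1 hh

@[simp] lemma hm_none : hm (none : Ix G) = 1 := rfl
@[simp] lemma hm_some (L : List (Nt G × Nt G)) : hm (some L : Ix G) = hh L := rfl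

/-- shift -/
def sh (b : Bool) (o : Ix G) : Gam G := if b then hm o else 1

lemma sh_none (b : Bool) : sh b (none : Ix G) = 1 := by cases b <;> rfl
lemma sh_false (o : Ix G) : sh false o = 1 := rfl
lemma sh_true (o : Ix G) : sh true o = hm o := rfl

/-- test whether the lamp is touched -/
def tst (b : Bool) (o : Ix G) (u : Gam G) : Prop := ∃ s : G, u * sh b o = inc b s

lemma tst_mul (b : Bool) (o : Ix G) (u : Gam G) (s : G) : tst b o ((inc b s)⁻¹ * u) ↔ tst b o u := by
  constructor
  · rintro ⟨t, ht⟩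
    refine ⟨s * t, ?_⟩
    rw [map_mul, ← ht]; group
  · rintro ⟨t, ht⟩
    refine ⟨s⁻¹ * t, ?_⟩
    rw [map_mul, ← ht, map_inv]; group

open Classical in
/-- value of a letter -/
noncomputable def val (x : Lw G) : Lg G :=
  ⟨fun u o => if x.2.2 = true ∧ tst x.1 o u then KK x.1 else 1, inc x.1 x.2.1⟩

@[simp] lemma val_pos (x : Lw G) : (val x).pos = inc x.1 x.2.1 := rfl

/-- value of a word -/
noncomputable def vl (w : List (Lw G)) : Lg G := (w.map val).prod

lemma vl_nil : vl ([] : List (Lw G)) = 1 := rfl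
lemma vl_cons (x : Lw G) (w : List (Lw G)) : vl (x :: w) = val x * vl w := by simp [vl]
lemma vl_append (w w' : List (Lw G)) : vl (w ++ w') = vl w * vl w' := by simp [vl]

lemma vl_pos (w : List (Lw G)) : (vl w).pos = pv w := by
  induction w with
  | nil => rfl
  | cons x w ih => rw [vl_cons, mul_pos', ih, pv_cons, val_pos]

/-- list of events at a lamp -/
noncomputable def evs (o : Ix G) : Gam G → List (Lw G) → List DD
  | _, [] => []
  | u, x :: w => (val x).lamp u o :: evs o ((inc x.1 x.2.1)⁻¹ * u) w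

lemma evs_prod (o : Ix G) (w : List (Lw G)) : ∀ u, (evs o u w).prod = (vl w).lamp u o := by
  induction w with
  | nil => intro u; rfl
  | cons x w ih =>
    intro u
    rw [evs, List.prod_cons, ih, vl_cons, mul_lamp, val_pos]

lemma evs_mem (o : Ix G) (w : List (Lw G)) : ∀ u, ∀ x ∈ evs o u w, x = 1 ∨ x = KK false ∨ x = KK true := by
  induction w with
  | nil => intro u x hx; simp [evs] at hx
  | cons y w ih =>
    intro u x hx
    rw [evs, List.mem_cons] at hx
    rcases hx with rfl | hx
    · simp only [val]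
      split_ifs
      · cases y.1
        · right; left; rfl
        · right; right; rfl
      · left; rfl
    · exact ih _ x hx

lemma evs_split (o : Ix G) (w : List (Lw G)) : ∀ (u : Gam G) (l l' : List DD), evs o u w = l ++ l' →
    ∃ w1 w2, w = w1 ++ w2 ∧ evs o u w1 = l ∧ evs o ((pv w1)⁻¹ * u) w2 = l' := by
  induction w with
  | nil =>
    intro u l l' h
    rw [evs] at h
    have h' := h.symm
    rw [List.append_eq_nil_iff] at h'
    exact ⟨[], [], rfl, by rw [h'.1]; rfl, by rw [h'.2]; rfl⟩
  | cons x w ih =>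
    intro u l l' h
    rcases l with _ | ⟨y, l⟩
    · refine ⟨[], x :: w, rfl, rfl, ?_⟩
      rw [pv_nil, inv_one, one_mul, h, List.nil_append]
    · rw [evs, List.cons_append, List.cons.injEq] at h
      obtain ⟨w1, w2, hw, h1, h2⟩ := ih _ _ _ h.2
      refine ⟨x :: w1, w2, ?_, ?_, ?_⟩
      · rw [hw, List.cons_append]
      · rw [evs, h1, h.1]
      · rw [pv_cons, mul_inv_rev, mul_assoc]; exact h2

lemma evs_head (o : Ix G) (c : Bool) (u : Gam G) (w : List (Lw G)) (l : List DD)
    (h : evs o u w = KK c :: l) : tst c o u := by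
  rcases w with _ | ⟨x, w⟩
  · simp [evs] at h
  · rw [evs, List.cons.injEq] at h
    have h1 := h.1
    simp only [val] at h1
    split_ifs at h1 with h2
    · have : x.1 = c := by
        by_contra hne
        have hx : x.1 = !c := by
          cases hc : x.1 <;> cases c <;> simp_all
        rw [hx] at h1
        exact KK_ne' c h1.symm
      rw [← this]; exact h2.2
    · exact absurd h1.symm (KK_ne c)

lemma chi_false_lamp (o : Ix G) (w : List (Lw G)) : ∀ u, chi false ((vl w).lamp u o) = chi false ((vl w).lamp u none) := by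
  induction w with
  | nil => intro u; rfl
  | cons x w ih =>
    intro u
    rw [vl_cons, mul_lamp, mul_lamp, map_mul, map_mul, ih]
    congr 1
    obtain ⟨b, s, e⟩ := x
    cases b
    · have : tst false o u = tst false none u := rfl
      simp only [val]
      rw [this]
    · simp only [val]
      have h1 : chi false (KK true) = 1 := chi_other false
      split_ifs <;> simp [h1]

lemma chi_true_lamp (o : Ix G) (w : List (Lw G)) :
    ∀ u, chi true ((vl w).lamp u o) = chi true ((vl w).lamp (u * hm o) none) := by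
  induction w with
  | nil => intro u; rfl
  | cons x w ih =>
    intro u
    rw [vl_cons, mul_lamp, mul_lamp, map_mul, map_mul, ih, mul_assoc]
    congr 1
    obtain ⟨b, s, e⟩ := x
    cases b
    · simp only [val]
      have h1 : chi true (KK false) = 1 := chi_other true
      split_ifs <;> simp [h1]
    · have : tst true o u = tst true none (u * hm o) := by
        unfold tst
        rw [sh_true, sh_none, mul_one]
      simp only [val]
      rw [this]

lemma dc_of_tst (c : Bool) (L : List (Nt G × Nt G)) (u1 u2 : Gam G) (h1 : tst c (some L) u1)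
    (h2 : tst (!c) (some L) u2) : u1 * u2⁻¹ ∈ DC c L := by
  obtain ⟨s1, h1⟩ := h1
  obtain ⟨s2, h2⟩ := h2
  cases c
  · simp only [Bool.not_false] at h2
    rw [sh_false, mul_one] at h1
    rw [sh_true, hm_some] at h2
    refine ⟨s1, s2⁻¹, ?_⟩
    simp only [Bool.false_eq_true, if_false]
    rw [h1, map_inv, ← h2]; group
  · simp only [Bool.not_true] at h2
    rw [sh_false, mul_one] at h2
    rw [sh_true, hm_some] at h1
    refine ⟨s2, s1⁻¹, ?_⟩
    simp only [if_true]
    rw [h2, map_inv, ← h1]; group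

/-- the key: a word trivial at the base index but not at `L` has a pattern -/
lemma mem_Pat (L : List (Nt G × Nt G)) (w : List (Lw G)) (hp : (vl w).pos = 1)
    (h0 : ∀ u, (vl w).lamp u none = 1) (u : Gam G) (hu : (vl w).lamp u (some L) ≠ 1) :
    ∃ c, w ∈ Pat c L := by
  rw [vl_pos] at hp
  have e := evs_prod (some L) w u
  obtain ⟨c, l0, l1, l2, l3, l4, hl⟩ := pattern (evs (some L) u w) (evs_mem _ _ _)
    (by rw [e, chi_false_lamp, h0, map_one]) (by rw [e, chi_true_lamp, h0, map_one]) (by rw [e]; exact hu)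
  obtain ⟨wa, w4, hw, ha, h4⟩ := evs_split _ _ _ _ _ hl
  obtain ⟨wb, w3, hwa, hb, h3⟩ := evs_split _ _ _ _ _ ha
  obtain ⟨wd, w2, hwb, hd, h2⟩ := evs_split _ _ _ _ _ hb
  obtain ⟨w0, w1, hwd, _, h1⟩ := evs_split _ _ _ _ _ hd
  have t4 := evs_head _ _ _ _ _ h4
  have t3 := evs_head _ _ _ _ _ h3
  have t2 := evs_head _ _ _ _ _ h2
  have t1 := evs_head _ _ _ _ _ h1
  have d1 := dc_of_tst c L _ _ t1 t2
  have d2 := dc_of_tst (!c) L _ _ t2 (by rw [Bool.not_not]; exact t3)
  have d3 := dc_of_tst c L _ _ t3 t4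
  have d4 := dc_of_tst (!c) L _ _ t4 (by rw [Bool.not_not]; exact t1)
  refine ⟨c, w0.length, ?_, ?_⟩
  · rw [hw, hwa, hwb, hwd]
    simp only [List.length_append]
    omega
  · have hr : w.rotate w0.length = ((w1 ++ w2) ++ w3) ++ (w4 ++ w0) := by
      have : w = w0 ++ (w1 ++ w2 ++ w3 ++ w4) := by
        rw [hw, hwa, hwb, hwd]; simp
      rw [this, List.rotate_append_length_eq]; simp
    rw [hr]
    refine ⟨(w1 ++ w2) ++ w3, ⟨w1 ++ w2, ⟨w1, ?_, w2, ?_, rfl⟩, w3, ?_, rfl⟩, w4 ++ w0, ?_, rfl⟩
    · have : pv w1 = (pv w0)⁻¹ * u * ((pv wd)⁻¹ * u)⁻¹ := by rw [hwd, pv_append]; group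
      rw [Set.mem_ofPred_eq, this]; exact d1
    · have : pv w2 = (pv wd)⁻¹ * u * ((pv wb)⁻¹ * u)⁻¹ := by rw [hwb, pv_append]; group
      rw [Set.mem_ofPred_eq, this]; exact d2
    · have : pv w3 = (pv wb)⁻¹ * u * ((pv wa)⁻¹ * u)⁻¹ := by rw [hwa, pv_append]; group
      rw [Set.mem_ofPred_eq, this]; exact d3
    · have : pv (w4 ++ w0) = (pv wa)⁻¹ * u * ((pv w0)⁻¹ * u)⁻¹ := by
        have h5 : pv wa * pv w4 = 1 := by rw [← pv_append, ← hw]; exact hp
        rw [pv_append, eq_inv_of_mul_eq_one_right h5]; group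
      rw [Set.mem_ofPred_eq, this]; exact d4

end Lg

end Pool.Agent.Helper125
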