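import Pool.Agent.Helper125.Wreath

set_option autoImplicit false
open scoped Pointwise Topology
open Filter

namespace Pool.Agent.Helper125
namespace Wr
variable {n : ℕ} {H : Type} [Group H]

lemma T_pow_mono (P Q : Subgroup H) {a b : ℕ} (h : a ≤ b) : (T n P Q) ^ a ⊆ (T n P Q) ^ b :=
  Set.pow_subset_pow_right (one_mem_T P Q) h

lemma T_pow_pos (P Q : Subgroup H) [Finite P] [Finite Q] (k : ℕ) : 1 ≤ ((T n P Q) ^ k).ncard := by
  have h1 : ((T n P Q) ^ k).Nonempty := by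
    refine ⟨1, ?_⟩
    have := T_pow_mono (n := n) P Q (Nat.zero_le k)
    apply this
    rw [pow_zero]; exact Set.mem_one.mpr rfl
  exact (Set.ncard_pos (T_pow_finite P Q k)).mpr h1

/-- lower bound -/
lemma T_log_ge (P Q : Subgroup H) [Finite P] [Finite Q] (y : ℝ) (hy0 : 0 < y) (hy1 : y < 1)
    (hlow : ∀ r, (1 / y) ^ r ≤ ((Bl P Q r).ncard : ℝ)) (k : ℕ) :
    Real.log (1 / y) * (k / (n+1)) - Real.log (1 / y) * (n + 2) ≤ Real.log (((T n P Q) ^ k).ncard : ℝ) := by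
  set c : ℕ := (n+1)*(n+2) with hc
  have hc0 : 0 < c := by positivity
  set r : ℕ := k / c with hr
  have h1 : c * r ≤ k := Nat.mul_div_le k c
  have h2 : ((Bl P Q r).ncard) ^ (n+2) ≤ ((T n P Q) ^ k).ncard :=
    (T_pow_card_ge P Q r).trans (Set.ncard_le_ncard (T_pow_mono P Q h1) (T_pow_finite P Q k))
  have h3 : ((1 / y) ^ r) ^ (n+2) ≤ (((T n P Q) ^ k).ncard : ℝ) := by
    calc ((1 / y) ^ r) ^ (n+2) ≤ ((Bl P Q r).ncard : ℝ) ^ (n+2) := pow_le_pow_left₀ (by positivity) (hlow r) _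
      _ ≤ (((T n P Q) ^ k).ncard : ℝ) := by exact_mod_cast h2
  have hlam : 0 < Real.log (1 / y) := Real.log_pos (by rw [lt_div_iff₀ hy0]; linarith)
  have h4 : Real.log (((1 / y) ^ r) ^ (n+2)) ≤ Real.log (((T n P Q) ^ k).ncard : ℝ) :=
    Real.log_le_log (by positivity) h3
  rw [← pow_mul, Real.log_pow] at h4
  have h5 : (k : ℝ) < c * (r + 1) := by
    have : k < c * (r + 1) := Nat.lt_mul_div_succ k hc0
    exact_mod_cast this
  have h6 : (k : ℝ) / (n+1) ≤ (n+2) * (r+1) := by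
    rw [div_le_iff₀ (by positivity)]
    have : ((c : ℕ) : ℝ) = ((n:ℝ)+1) * (n+2) := by rw [hc]; push_cast; ring
    rw [this] at h5
    linarith
  push_cast at h4
  have h7 : Real.log (1 / y) * (k / (n+1)) ≤ Real.log (1 / y) * ((n+2) * (r+1)) :=
    mul_le_mul_of_nonneg_left h6 hlam.le
  linarith

lemma poly_bound (d : ℕ) (a b : ℝ) (ha : 0 < a) (hab : a < b) : ∃ C : ℝ, 0 < C ∧ ∀ K : ℕ, ((K+1 : ℕ) : ℝ) ^ d * a ^ K ≤ C * b ^ K := by
  have hb : 0 < b := ha.trans hab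
  have hr : |a / b| < 1 := by
    rw [abs_of_pos (by positivity), div_lt_one hb]; exact hab
  have h1 := tendsto_pow_const_mul_const_pow_of_abs_lt_one d hr
  obtain ⟨B, hB⟩ := h1.bddAbove_range
  refine ⟨(|B| + 1) * (b / a), by positivity, fun K => ?_⟩
  have h2 : ((K + 1 : ℕ) : ℝ) ^ d * (a / b) ^ (K+1) ≤ B := hB ⟨K+1, rfl⟩
  have h3 : ((K + 1 : ℕ) : ℝ) ^ d * (a / b) ^ (K+1) ≤ |B| + 1 := h2.trans (by linarith [le_abs_self B])
  have h4 : ((K + 1 : ℕ) : ℝ) ^ d * a ^ K = (((K + 1 : ℕ) : ℝ) ^ d * (a / b) ^ (K+1)) * (b / a) * b ^ K := by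
    rw [div_pow, pow_succ, pow_succ]
    field_simp
  rw [h4]
  gcongr

/-- upper bound -/
lemma T_log_le (P Q : Subgroup H) [Finite P] [Finite Q] (w : ℝ) (y : ℝ) (hy0 : 0 < y) (hy1 : y < 1)
    (hw : Real.log (1 / y) < w)
    (hup : ∀ v, 1 / y < v → ∃ C, 0 ≤ C ∧ ∀ r, ((Bl P Q r).ncard : ℝ) ≤ C * v ^ r) :
    ∃ B : ℝ, ∀ k : ℕ, Real.log (((T n P Q) ^ k).ncard : ℝ) ≤ w * (k / (n+1)) + B := by
  have hlam : 0 < Real.log (1 / y) := Real.log_pos (by rw [lt_div_iff₀ hy0]; linarith)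
  set w1 : ℝ := (Real.log (1 / y) + w) / 2 with hw1
  have hw1a : Real.log (1 / y) < w1 := by rw [hw1]; linarith
  have hw1b : w1 < w := by rw [hw1]; linarith
  have hv1 : 1 / y < Real.exp w1 := (Real.log_lt_iff_lt_exp (by positivity)).mp hw1a
  have hv1' : 1 ≤ Real.exp w1 := Real.one_le_exp (by linarith)
  obtain ⟨C, hC0, hC⟩ := hup _ hv1
  obtain ⟨D, hD0, hD⟩ := poly_bound (n+2) (Real.exp w1) (Real.exp w) (Real.exp_pos _) (Real.exp_lt_exp.mpr hw1b)
  set C1 : ℝ := C + 1 with hC1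
  have hC1' : ∀ r, ((Bl P Q r).ncard : ℝ) ≤ C1 * Real.exp w1 ^ r := by
    intro r
    refine (hC r).trans ?_
    gcongr
    linarith
  set F : ℝ := ((Nat.factorial (n+2) : ℕ) : ℝ) with hF
  have hF0 : 0 < F := by rw [hF]; exact_mod_cast Nat.factorial_pos _
  refine ⟨Real.log (D * C1 ^ (n+2) * F) + w * (3 * (n+2) / 2), fun k => ?_⟩
  set K : ℕ := (2 * k + 3 * (n+1) * (n+2)) / (2 * (n+1)) with hK
  have hK1 : 2 * k + 3 * (n+1) * (n+2) ≤ 2 * (n+1) * K + (2 * (n+1) - 1) := by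
    have h1 := Nat.div_add_mod (2 * k + 3 * (n+1) * (n+2)) (2 * (n+1))
    have h2 := Nat.mod_lt (2 * k + 3 * (n+1) * (n+2)) (show 0 < 2 * (n+1) by positivity)
    rw [← hK] at h1
    omega
  have hK2 : 2 * (n+1) * K ≤ 2 * k + 3 * (n+1) * (n+2) := Nat.mul_div_le _ _
  have hK3 : (K : ℝ) ≤ k / (n+1) + 3 * (n+2) / 2 := by
    have h1 : 2 * ((n:ℝ)+1) * K ≤ 2 * k + 3 * (n+1) * (n+2) := by exact_mod_cast hK2
    have h2 : (0:ℝ) < 2 * (n+1) := by positivity
    have h3 : (k:ℝ) / (n+1) + 3 * (n+2) / 2 = (2 * k + 3 * (n+1) * (n+2)) / (2 * (n+1)) := by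
      field_simp
    rw [h3, le_div_iff₀ h2]
    linarith
  have h1 := T_pow_card_le P Q C1 (Real.exp w1) (by positivity) hv1' hC1' k K hK1
  have h2 : (((T n P Q)^k).ncard : ℝ) ≤ (D * C1 ^ (n+2) * F) * Real.exp w ^ K := by
    refine h1.trans ?_
    calc ((K+1 : ℕ) : ℝ)^(n+2) * (C1^(n+2) * Real.exp w1 ^ K) * F
        = (((K+1 : ℕ) : ℝ)^(n+2) * Real.exp w1 ^ K) * (C1^(n+2) * F) := by ring
      _ ≤ (D * Real.exp w ^ K) * (C1^(n+2) * F) :=
          mul_le_mul_of_nonneg_right (hD K) (by positivity)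
      _ = _ := by ring
  have h3 : (1:ℝ) ≤ (((T n P Q)^k).ncard : ℝ) := by exact_mod_cast T_pow_pos P Q k
  have h4 := Real.log_le_log (by linarith) h2
  rw [Real.log_mul (by positivity) (by positivity), Real.log_pow, Real.log_exp] at h4
  have h5 : (K : ℝ) * w ≤ (k / (n+1) + 3 * (n+2) / 2) * w := by
    apply mul_le_mul_of_nonneg_right hK3
    linarith
  linarith

theorem T_limit (P Q : Subgroup H) [Finite P] [Finite Q] (y : ℝ) (hy0 : 0 < y) (hy1 : y < 1)
    (hlow : ∀ r, (1 / y) ^ r ≤ ((Bl P Q r).ncard : ℝ))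
    (hup : ∀ v, 1 / y < v → ∃ C, 0 ≤ C ∧ ∀ r, ((Bl P Q r).ncard : ℝ) ≤ C * v ^ r) (m : ℕ) (hm : 0 < m) :
    Tendsto (fun k : ℕ => ((((T n P Q) ^ m) ^ k).ncard : ℝ) ^ ((1:ℝ) / k)) atTop
      (𝓝 (Real.exp (Real.log (1 / y) * m / (n+1)))) := by
  set lam := Real.log (1 / y) with hlam
  have hlam0 : 0 < lam := Real.log_pos (by rw [lt_div_iff₀ hy0]; linarith)
  have hmr : (0:ℝ) < m := by exact_mod_cast hm
  set f : ℕ → ℝ := fun k => Real.log ((((T n P Q) ^ m) ^ k).ncard : ℝ) / k with hf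
  have hinv : ∀ c : ℝ, Tendsto (fun k : ℕ => c / (k : ℝ)) atTop (𝓝 0) := fun c =>
    tendsto_const_div_atTop_nhds_zero_nat c
  have hmain : Tendsto f atTop (𝓝 (lam * m / (n+1))) := by
    rw [tendsto_order]
    constructor
    · intro a ha
      have h1 : Tendsto (fun k : ℕ => lam * m / (n+1) - (lam * (n+2)) / (k:ℝ)) atTop (𝓝 (lam * m / (n+1) - 0)) :=
        tendsto_const_nhds.sub (hinv _)
      rw [sub_zero] at h1
      filter_upwards [h1.eventually (lt_mem_nhds ha), eventually_gt_atTop 0] with k hk hk0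
      refine lt_of_lt_of_le hk ?_
      have hk0' : (0:ℝ) < k := by exact_mod_cast hk0
      have h2 := T_log_ge (n := n) P Q y hy0 hy1 hlow (m * k)
      simp only [hf]
      rw [← pow_mul, le_div_iff₀ hk0']
      push_cast at h2
      calc (lam * m / (n+1) - (lam * (n+2)) / (k:ℝ)) * k = lam * ((m * k) / (n+1)) - lam * (n+2) := by
            field_simp
        _ ≤ _ := h2
    · intro a ha
      -- choose w
      set w : ℝ := (lam + a * (n+1) / m) / 2 with hw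
      have hn1 : (0:ℝ) < (n:ℝ) + 1 := by positivity
      have ha1 : lam < a * (n+1) / m := by
        rw [lt_div_iff₀ hmr]
        exact (div_lt_iff₀ hn1).mp ha
      have hwa : lam < w := by rw [hw]; linarith
      have hwb : w < a * (n+1) / m := by rw [hw]; linarith
      obtain ⟨B, hB⟩ := T_log_le (n := n) P Q w y hy0 hy1 hwa hup
      have h1 : Tendsto (fun k : ℕ => w * m / (n+1) + B / (k:ℝ)) atTop (𝓝 (w * m / (n+1) + 0)) :=
        tendsto_const_nhds.add (hinv _)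
      rw [add_zero] at h1
      have hwm : w * m / (n+1) < a := by
        rw [div_lt_iff₀ hn1]
        rw [lt_div_iff₀ hmr] at hwb
        exact hwb
      filter_upwards [h1.eventually (gt_mem_nhds hwm), eventually_gt_atTop 0] with k hk hk0
      refine lt_of_le_of_lt ?_ hk
      have hk0' : (0:ℝ) < k := by exact_mod_cast hk0
      have h2 := hB (m * k)
      simp only [hf]
      rw [← pow_mul, div_le_iff₀ hk0']
      push_cast at h2
      calc _ ≤ _ := h2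
        _ = (w * m / (n+1) + B / (k:ℝ)) * k := by field_simp
  have hexp := (Real.continuous_exp.tendsto _).comp hmain
  refine hexp.congr' ?_
  filter_upwards [eventually_gt_atTop 0] with k hk0
  have h1 : (1:ℝ) ≤ ((((T n P Q) ^ m) ^ k).ncard : ℝ) := by
    rw [← pow_mul]
    exact_mod_cast T_pow_pos P Q _
  simp only [Function.comp_apply, hf]
  rw [Real.rpow_def_of_pos (by linarith)]
  congr 1
  ring

end Wr
end Pool.Agent.Helper125
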