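import Pool.Agent.Helper125.Wreath

set_option autoImplicit false
open scoped Pointwise ENNReal Topology
open Filter

namespace Pool.Agent.Helper125

lemma tsum_split {α β : Type} (f : β → ℝ≥0∞) (b : β) (g : α → β) (hg : Function.Injective g)
    (h1 : ∀ x, x ≠ b → x ∈ Set.range g) (h2 : b ∉ Set.range g) : ∑' x, f x = f b + ∑' a, f (g a) := by
  classical
  rw [ENNReal.tsum_eq_add_tsum_ite b]
  congr 1
  have h3 : ∀ a, f (g a) = (fun x => if x = b then 0 else f x) (g a) := by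
    intro a
    have : g a ≠ b := fun h => h2 ⟨a, h⟩
    simp [this]
  rw [tsum_congr h3]
  symm
  refine Function.Injective.tsum_eq (f := fun x => if x = b then 0 else f x) hg ?_
  intro x hx
  apply h1
  intro h
  apply hx
  simp [h]

lemma tsum_opt {α : Type} (f : Option α → ℝ≥0∞) : ∑' x, f x = f none + ∑' a, f (some a) := by
  apply tsum_split f none some (Option.some_injective _)
  · intro x hx
    rcases x with _ | x
    · exact absurd rfl hx
    · exact ⟨x, rfl⟩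
  · rintro ⟨x, hx⟩
    exact absurd hx (by simp)

lemma tsum_lst {α : Type} (f : List α → ℝ≥0∞) :
    ∑' L, f L = f [] + ∑' p : α × List α, f (p.1 :: p.2) := by
  apply tsum_split f [] (fun p : α × List α => p.1 :: p.2)
  · intro p q h
    simp only [List.cons.injEq] at h
    exact Prod.ext h.1 h.2
  · intro x hx
    rcases x with _ | ⟨a, L⟩
    · exact absurd rfl hx
    · exact ⟨(a, L), rfl⟩
  · rintro ⟨x, hx⟩
    exact absurd hx (by simp)

/-- multiplicative weights of lists -/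
lemma tsum_lst_pow {α : Type} (w : α → ℝ≥0∞) (n : ℕ) :
    ∑' L : List α, (if L.length = n then (L.map w).prod else 0) = (∑' a, w a) ^ n := by
  induction n with
  | zero =>
    rw [tsum_lst]
    simp
  | succ n ih =>
    rw [tsum_lst]
    have h1 : ∀ p : α × List α, (if (p.1 :: p.2).length = n + 1 then ((p.1 :: p.2).map w).prod else 0)
        = w p.1 * (if p.2.length = n then (p.2.map w).prod else 0) := by
      intro p
      by_cases h : p.2.length = n
      · simp [h]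
      · simp [h]
    have h2 : ∑' p : α × List α, w p.1 * (if p.2.length = n then (p.2.map w).prod else 0) =
        ∑' (a : α) (L : List α), w a * (if L.length = n then (L.map w).prod else 0) :=
      ENNReal.tsum_prod (f := fun (a : α) (L : List α) => w a * (if L.length = n then (L.map w).prod else 0))
    rw [tsum_congr h1, h2]
    simp only [ENNReal.tsum_mul_left, ih, ENNReal.tsum_mul_right]
    rw [pow_succ']
    simp

lemma tsum_lst_geom {α : Type} (w : α → ℝ≥0∞) :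
    ∑' L : List α, (L.map w).prod = ∑' n : ℕ, (∑' a, w a) ^ n := by
  have h1 : ∀ L : List α, (L.map w).prod = ∑' n : ℕ, (if L.length = n then (L.map w).prod else 0) := by
    intro L
    rw [tsum_eq_single L.length]
    · simp
    · intro n hn
      simp [hn.symm]
  rw [tsum_congr h1, ENNReal.tsum_comm]
  exact tsum_congr (fun n => tsum_lst_pow w n)

lemma tsum_ind {α : Type} (s : Set α) [DecidablePred (· ∈ s)] : ∑' a, (if a ∈ s then (1 : ℝ≥0∞) else 0) = (s.encard : ℝ≥0∞) := by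
  rw [← ENNReal.tsum_set_one, tsum_subtype s (fun _ => (1 : ℝ≥0∞))]
  apply tsum_congr
  intro a
  by_cases h : a ∈ s
  · simp [h]
  · simp [h]


section W
variable {A : Type} [Group A] (Pa Fa : Subgroup A)

/-- alternating products -/
def W (j : ℕ) : Set A := (Fa : Set A) * ((Pa : Set A) * (Fa : Set A)) ^ j

lemma W_zero : W Pa Fa 0 = (Fa : Set A) := by simp [W]

lemma W_succ (j : ℕ) : W Pa Fa (j+1) = W Pa Fa j * ((Pa : Set A) * (Fa : Set A)) := by
  rw [W, W, pow_succ, mul_assoc]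

lemma W_step {j : ℕ} {a p f : A} (ha : a ∈ W Pa Fa j) (hp : p ∈ Pa) (hf : f ∈ Fa) :
    a * p * f ∈ W Pa Fa (j+1) := by
  rw [W_succ, mul_assoc]
  exact Set.mul_mem_mul ha (Set.mul_mem_mul hp hf)

lemma W_mem_succ {j : ℕ} {a : A} : a ∈ W Pa Fa (j+1) ↔ ∃ a' ∈ W Pa Fa j, ∃ p ∈ Pa, ∃ f ∈ Fa, a = a' * p * f := by
  rw [W_succ]
  constructor
  · intro h
    obtain ⟨x, hx, y, hy, rfl⟩ := Set.mem_mul.mp h
    obtain ⟨p, hp, f, hf, rfl⟩ := Set.mem_mul.mp hy
    exact ⟨x, hx, p, hp, f, hf, by group⟩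
  · rintro ⟨x, hx, p, hp, f, hf, rfl⟩
    rw [mul_assoc]
    exact Set.mul_mem_mul hx (Set.mul_mem_mul hp hf)

lemma W_right {j : ℕ} {a f : A} (ha : a ∈ W Pa Fa j) (hf : f ∈ Fa) : a * f ∈ W Pa Fa j := by
  rcases j with _ | j
  · rw [W_zero] at ha ⊢
    exact Fa.mul_mem ha hf
  · rw [W_mem_succ] at ha ⊢
    obtain ⟨x, hx, p, hp, f', hf', rfl⟩ := ha
    exact ⟨x, hx, p, hp, f' * f, Fa.mul_mem hf' hf, by group⟩

lemma W_mono {i j : ℕ} (h : i ≤ j) : W Pa Fa i ⊆ W Pa Fa j := by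
  induction j, h using Nat.le_induction with
  | base => exact subset_rfl
  | succ j _ ih =>
    refine ih.trans ?_
    intro x hx
    have := W_step Pa Fa hx Pa.one_mem Fa.one_mem
    simpa using this

lemma W_finite [Finite Pa] [Finite Fa] (j : ℕ) : (W Pa Fa j).Finite := by
  have hP : (Pa : Set A).Finite := Set.toFinite _
  have hF : (Fa : Set A).Finite := Set.toFinite _
  induction j with
  | zero => rw [W_zero]; exact hF
  | succ j ih => rw [W_succ]; exact ih.mul (hP.mul hF)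

/-- number of cosets met -/
noncomputable def cN (j : ℕ) : ℕ := ((QuotientGroup.mk : A → A ⧸ Fa) '' W Pa Fa j).ncard

lemma out_mem_iff {j : ℕ} {a : A} {ξ : A ⧸ Fa} (h : (QuotientGroup.mk a : A ⧸ Fa) = ξ) :
    ξ.out ∈ W Pa Fa j ↔ a ∈ W Pa Fa j := by
  have h1 : (QuotientGroup.mk ξ.out : A ⧸ Fa) = ξ := QuotientGroup.out_eq' ξ
  have h2 : a⁻¹ * ξ.out ∈ Fa := by
    rw [← QuotientGroup.eq, h, h1]
  constructor
  · intro h3
    have := W_right Pa Fa h3 (Fa.inv_mem h2)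
    simpa using this
  · intro h3
    have := W_right Pa Fa h3 h2
    simpa using this

/-- reachable nontrivial cosets -/
abbrev XX : Type := {ξ : A ⧸ Fa // ξ ≠ QuotientGroup.mk 1 ∧ ∃ j, ξ.out ∈ W Pa Fa j}

open Classical in
/-- level of a coset -/
noncomputable def kap (ξ : XX Pa Fa) : ℕ := Nat.find ξ.2.2

lemma kap_mem (ξ : XX Pa Fa) : ξ.1.out ∈ W Pa Fa (kap Pa Fa ξ) := by
  classical
  exact Nat.find_spec ξ.2.2

lemma kap_le (ξ : XX Pa Fa) {j : ℕ} (h : ξ.1.out ∈ W Pa Fa j) : kap Pa Fa ξ ≤ j := by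
  classical
  exact Nat.find_min' ξ.2.2 h

lemma kap_pos (ξ : XX Pa Fa) : 1 ≤ kap Pa Fa ξ := by
  by_contra h
  have h0 : kap Pa Fa ξ = 0 := by omega
  have h1 := kap_mem Pa Fa ξ
  rw [h0, W_zero] at h1
  apply ξ.2.1
  have h2 : (QuotientGroup.mk ξ.1.out : A ⧸ Fa) = ξ.1 := QuotientGroup.out_eq' ξ.1
  rw [← h2, eq_comm, QuotientGroup.eq]
  simpa using h1

/-- representatives -/
noncomputable def so (e : Option (XX Pa Fa)) : A := e.elim 1 (fun ξ => ξ.1.out)
noncomputable def ko (e : Option (XX Pa Fa)) : ℕ := e.elim 0 (fun ξ => kap Pa Fa ξ)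

lemma so_none : so Pa Fa none = 1 := rfl
lemma so_some (ξ : XX Pa Fa) : so Pa Fa (some ξ) = ξ.1.out := rfl
lemma ko_none : ko Pa Fa none = 0 := rfl
lemma ko_some (ξ : XX Pa Fa) : ko Pa Fa (some ξ) = kap Pa Fa ξ := rfl

lemma so_mem (e : Option (XX Pa Fa)) : so Pa Fa e ∈ W Pa Fa (ko Pa Fa e) := by
  rcases e with _ | ξ
  · rw [so_none, ko_none, W_zero]; exact Fa.one_mem
  · exact kap_mem Pa Fa ξ

lemma decomp {j : ℕ} {a : A} (ha : a ∈ W Pa Fa j) :
    ∃ (e : Option (XX Pa Fa)) (f : A), f ∈ Fa ∧ a = so Pa Fa e * f ∧ ko Pa Fa e ≤ j := by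
  by_cases h : (QuotientGroup.mk a : A ⧸ Fa) = QuotientGroup.mk 1
  · refine ⟨none, a, ?_, by rw [so_none, one_mul], Nat.zero_le _⟩
    have := QuotientGroup.eq.mp h.symm
    simpa using this
  · have h1 := (out_mem_iff Pa Fa (j := j) (a := a) rfl).mpr ha
    refine ⟨some ⟨QuotientGroup.mk a, h, ⟨j, h1⟩⟩, ((QuotientGroup.mk a : A ⧸ Fa).out)⁻¹ * a, ?_, ?_, ?_⟩
    · rw [← QuotientGroup.eq]; exact QuotientGroup.out_eq' _
    · rw [so_some]; group
    · rw [ko_some]; exact kap_le Pa Fa _ h1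

lemma mk_so_inj : Function.Injective (fun e => (QuotientGroup.mk (so Pa Fa e) : A ⧸ Fa)) := by
  have hs : ∀ ξ : XX Pa Fa, (QuotientGroup.mk (so Pa Fa (some ξ)) : A ⧸ Fa) = ξ.1 := by
    intro ξ
    rw [so_some]
    exact QuotientGroup.out_eq' _
  intro e e' h
  simp only at h
  rcases e with _ | ξ <;> rcases e' with _ | ξ'
  · rfl
  · rw [hs, so_none] at h
    exact absurd h.symm ξ'.2.1
  · rw [hs, so_none] at h
    exact absurd h ξ.2.1
  · rw [hs, hs] at h
    rw [Subtype.ext h]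

open Classical in
lemma cN_eq [Finite Pa] [Finite Fa] (j : ℕ) :
    (cN Pa Fa j : ℝ≥0∞) = ∑' e : Option (XX Pa Fa), (if ko Pa Fa e ≤ j then (1 : ℝ≥0∞) else 0) := by
  have h1 : (QuotientGroup.mk : A → A ⧸ Fa) '' W Pa Fa j =
      (fun e => (QuotientGroup.mk (so Pa Fa e) : A ⧸ Fa)) '' {e | ko Pa Fa e ≤ j} := by
    ext ξ
    constructor
    · rintro ⟨a, ha, rfl⟩
      obtain ⟨e, f, hf, h, hj⟩ := decomp Pa Fa ha
      refine ⟨e, hj, ?_⟩
      simp only
      rw [QuotientGroup.eq, h]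
      simpa using hf
    · rintro ⟨e, he, rfl⟩
      exact ⟨so Pa Fa e, W_mono Pa Fa he (so_mem Pa Fa e), rfl⟩
  have h2 : ((QuotientGroup.mk : A → A ⧸ Fa) '' W Pa Fa j).Finite := (W_finite Pa Fa j).image _
  have h3 := tsum_ind {e : Option (XX Pa Fa) | ko Pa Fa e ≤ j}
  have h4 : ((QuotientGroup.mk : A → A ⧸ Fa) '' W Pa Fa j).encard = ({e : Option (XX Pa Fa) | ko Pa Fa e ≤ j}).encard := by
    rw [h1]
    exact (mk_so_inj Pa Fa).encard_image _
  simp only [Set.mem_ofPred_eq] at h3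
  rw [h3, ← h4, cN, ← Set.Finite.cast_ncard_eq h2]
  simp

/-- the sum over nontrivial cosets -/
noncomputable def Th (u : ℝ≥0∞) : ℝ≥0∞ := ∑' ξ : XX Pa Fa, u ^ (kap Pa Fa ξ)

lemma geom_shift (u : ℝ≥0∞) (k : ℕ) : ∑' j : ℕ, (if k ≤ j then u ^ j else 0) = u ^ k * (1 - u)⁻¹ := by
  rw [← ENNReal.tsum_geometric, ← ENNReal.tsum_mul_left]
  symm
  have h1 : ∀ i : ℕ, u ^ k * u ^ i = (fun j => if k ≤ j then u ^ j else 0) (k + i) := by
    intro i
    simp [pow_add]
  rw [tsum_congr h1]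
  refine Function.Injective.tsum_eq (f := fun j => if k ≤ j then u ^ j else 0) (add_right_injective k) ?_
  intro j hj
  by_cases h : k ≤ j
  · exact ⟨j - k, by simp only; omega⟩
  · exact absurd (by simp [h]) hj

lemma psi_eq [Finite Pa] [Finite Fa] (u : ℝ≥0∞) :
    ∑' j, (cN Pa Fa j : ℝ≥0∞) * u ^ j = (1 + Th Pa Fa u) * (1 - u)⁻¹ := by
  classical
  have h1 : ∀ j, (cN Pa Fa j : ℝ≥0∞) * u ^ j = ∑' e : Option (XX Pa Fa), (if ko Pa Fa e ≤ j then u ^ j else 0) := by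
    intro j
    rw [cN_eq, ← ENNReal.tsum_mul_right]
    apply tsum_congr
    intro e
    split_ifs <;> simp
  rw [tsum_congr h1, ENNReal.tsum_comm]
  have h2 : ∀ e : Option (XX Pa Fa), ∑' j, (if ko Pa Fa e ≤ j then u ^ j else 0) = u ^ (ko Pa Fa e) * (1 - u)⁻¹ :=
    fun e => geom_shift u _
  rw [tsum_congr h2, ENNReal.tsum_mul_right, tsum_opt]
  congr 1
  rw [ko_none, pow_zero]
  rfl

end W


section H
variable {A : Type} [Group A] (Pa Fa : Subgroup A) {H M : Type} [Group H] [Group M]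
  (iA : A →* H) (iM : M →* H) (hcomm : ∀ f ∈ Fa, ∀ m, iA f * iM m = iM m * iA f)

/-- first subgroup -/
def PH : Subgroup H := Pa.map iA

include hcomm in
lemma QH_mul {f f' : A} (m m' : M) (hf' : f' ∈ Fa) :
    (iA f * iM m) * (iA f' * iM m') = iA (f * f') * iM (m * m') := by
  rw [map_mul, map_mul]
  calc iA f * iM m * (iA f' * iM m') = iA f * (iM m * iA f') * iM m' := by group
    _ = iA f * (iA f' * iM m) * iM m' := by rw [hcomm f' hf' m]
    _ = _ := by group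

/-- second subgroup -/
def QH : Subgroup H where
  carrier := {h | ∃ f ∈ Fa, ∃ m, h = iA f * iM m}
  mul_mem' := by
    rintro x y ⟨f, hf, m, rfl⟩ ⟨f', hf', m', rfl⟩
    exact ⟨f * f', Fa.mul_mem hf hf', m * m', QH_mul Fa iA iM hcomm m m' hf'⟩
  one_mem' := ⟨1, Fa.one_mem, 1, by simp⟩
  inv_mem' := by
    rintro x ⟨f, hf, m, rfl⟩
    refine ⟨f⁻¹, Fa.inv_mem hf, m⁻¹, ?_⟩
    rw [inv_eq_iff_mul_eq_one, QH_mul Fa iA iM hcomm _ _ (Fa.inv_mem hf)]
    simp

lemma QH_finite [Finite M] [Finite Fa] : ((QH Fa iA iM hcomm : Subgroup H) : Set H).Finite := by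
  have : ((QH Fa iA iM hcomm : Subgroup H) : Set H) ⊆ Set.range (fun x : Fa × M => iA x.1 * iM x.2) := by
    rintro x ⟨f, hf, m, rfl⟩
    exact ⟨(⟨f, hf⟩, m), rfl⟩
  exact (Set.finite_range _).subset this

instance [Finite M] [Finite Fa] : Finite (QH Fa iA iM hcomm : Subgroup H) := QH_finite Fa iA iM hcomm

lemma PH_finite [Finite Pa] : ((PH Pa iA : Subgroup H) : Set H).Finite := by
  have : ((PH Pa iA : Subgroup H) : Set H) = iA '' (Pa : Set A) := rfl
  rw [this]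
  exact (Set.toFinite _).image _

instance [Finite Pa] : Finite (PH Pa iA : Subgroup H) := PH_finite Pa iA

/-- letters -/
abbrev LL (M : Type) [Group M] : Type := XX Pa Fa × {m : M // m ≠ 1}

/-- value of a letter -/
noncomputable def lt (x : LL Pa Fa M) : H := iA x.1.1.out * iM x.2.1

/-- value of a list, the head is the last letter -/
noncomputable def pr : List (LL Pa Fa M) → H
  | [] => 1
  | x :: L => pr L * lt Pa Fa iA iM x

/-- cost of a list -/
noncomputable def co : List (LL Pa Fa M) → ℕ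
  | [] => 0
  | x :: L => co L + kap Pa Fa x.1

lemma pr_nil : pr Pa Fa iA iM [] = 1 := rfl
lemma pr_cons (x : LL Pa Fa M) (L : List (LL Pa Fa M)) :
    pr Pa Fa iA iM (x :: L) = pr Pa Fa iA iM L * lt Pa Fa iA iM x := rfl
lemma co_nil : co Pa Fa ([] : List (LL Pa Fa M)) = 0 := rfl
lemma co_cons (x : LL Pa Fa M) (L : List (LL Pa Fa M)) :
    co Pa Fa (x :: L) = co Pa Fa L + kap Pa Fa x.1 := rfl

lemma co_pow (u : ℝ≥0∞) (L : List (LL Pa Fa M)) :
    u ^ (co Pa Fa L) = (L.map (fun x => u ^ (kap Pa Fa x.1))).prod := by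
  induction L with
  | nil => rw [co_nil]; simp
  | cons x L ih => rw [co_cons, pow_add, ih, List.map_cons, List.prod_cons, mul_comm]

/-- blocks in H -/
abbrev BB (r : ℕ) : Set H := Wr.Bl (PH Pa iA) (QH Fa iA iM hcomm) r

/-- upper encoding -/
lemma encode (r : ℕ) : ∀ h ∈ BB Pa Fa iA iM hcomm r, ∃ (m0 : M) (L : List (LL Pa Fa M)) (e : Option (XX Pa Fa))
    (f : A), f ∈ Fa ∧ h = iM m0 * pr Pa Fa iA iM L * iA (so Pa Fa e) * iA f ∧ co Pa Fa L + ko Pa Fa e ≤ r := by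
  induction r with
  | zero =>
    intro h hh
    rw [BB, Wr.Bl_zero, Set.mem_one] at hh
    subst hh
    exact ⟨1, [], none, 1, Fa.one_mem, by simp [pr_nil, so_none], by rw [co_nil, ko_none]⟩
  | succ r ih =>
    intro h hh
    rw [BB, Wr.Bl_mem_succ] at hh
    obtain ⟨h', hh', p, hp, q, hq, rfl⟩ := hh
    obtain ⟨m0, L, e, f, hf, rfl, hcost⟩ := ih h' hh'
    obtain ⟨p, hp, rfl⟩ := hp
    obtain ⟨f', hf', m, rfl⟩ := hq
    have h1 : so Pa Fa e * f * p * f' ∈ W Pa Fa (ko Pa Fa e + 1) :=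
      W_step Pa Fa (W_right Pa Fa (so_mem Pa Fa e) hf) hp hf'
    obtain ⟨e', f'', hf'', h2, h3⟩ := decomp Pa Fa h1
    have h4 : iM m0 * pr Pa Fa iA iM L * iA (so Pa Fa e) * iA f * iA p * (iA f' * iM m)
        = iM m0 * pr Pa Fa iA iM L * iA (so Pa Fa e') * iA f'' * iM m := by
      have : iA (so Pa Fa e) * iA f * iA p * iA f' = iA (so Pa Fa e') * iA f'' := by
        rw [← map_mul, ← map_mul, ← map_mul, h2, map_mul]
      calc iM m0 * pr Pa Fa iA iM L * iA (so Pa Fa e) * iA f * iA p * (iA f' * iM m)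
          = iM m0 * pr Pa Fa iA iM L * (iA (so Pa Fa e) * iA f * iA p * iA f') * iM m := by group
        _ = _ := by rw [this]; group
    rw [h4]
    have h5 : ∀ x : H, x * iA f'' * iM m = x * iM m * iA f'' := by
      intro x
      rw [mul_assoc, hcomm f'' hf'' m, mul_assoc]
    by_cases hm : m = 1
    · refine ⟨m0, L, e', f'', hf'', ?_, by omega⟩
      rw [hm, map_one, mul_one]
    · rcases e' with _ | ξ
      · rw [so_none, map_one, mul_one, h5]
        rcases L with _ | ⟨x, L'⟩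
        · refine ⟨m0 * m, [], none, f'', hf'', ?_, ?_⟩
          · rw [pr_nil, so_none, map_one, map_mul]; group
          · rw [co_nil, ko_none]; omega
        · obtain ⟨η, m1⟩ := x
          have h6 : iM m0 * pr Pa Fa iA iM ((η, m1) :: L') * iM m =
              iM m0 * pr Pa Fa iA iM L' * iA (so Pa Fa (some η)) * iM (m1.1 * m) := by
            rw [pr_cons, lt, so_some, map_mul]; group
          rw [h6]
          by_cases hmm : m1.1 * m = 1
          · refine ⟨m0, L', some η, f'', hf'', ?_, ?_⟩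
            · rw [hmm, map_one, mul_one]
            · rw [co_cons] at hcost
              rw [ko_some]; simp only at hcost; omega
          · refine ⟨m0, (η, ⟨m1.1 * m, hmm⟩) :: L', none, f'', hf'', ?_, ?_⟩
            · rw [pr_cons, lt, so_none, so_some, map_one]; group
            · rw [co_cons] at hcost ⊢
              rw [ko_none]; simp only at hcost ⊢; omega
      · refine ⟨m0, (ξ, ⟨m, hm⟩) :: L, none, f'', hf'', ?_, ?_⟩
        · rw [pr_cons, lt, so_none, so_some, map_one, h5]; group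
        · rw [co_cons, ko_none]
          rw [ko_some] at h3
          simp only; omega

/-- generating sum of all lists -/
noncomputable def ZZ (M : Type) [Group M] (u : ℝ≥0∞) : ℝ≥0∞ := ∑' L : List (LL Pa Fa M), u ^ (co Pa Fa L)

lemma letters_sum [Fintype M] (u : ℝ≥0∞) :
    ∑' x : LL Pa Fa M, u ^ (kap Pa Fa x.1) = ((Fintype.card M - 1 : ℕ) : ℝ≥0∞) * Th Pa Fa u := by
  classical
  have h1 : ∑' x : LL Pa Fa M, u ^ (kap Pa Fa x.1) =
      ∑' (ξ : XX Pa Fa) (_ : {m : M // m ≠ 1}), u ^ (kap Pa Fa ξ) :=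
    ENNReal.tsum_prod (f := fun (ξ : XX Pa Fa) (_ : {m : M // m ≠ 1}) => u ^ (kap Pa Fa ξ))
  rw [h1]
  have h2 : ∀ ξ : XX Pa Fa, ∑' (_ : {m : M // m ≠ 1}), u ^ (kap Pa Fa ξ) =
      ((Fintype.card M - 1 : ℕ) : ℝ≥0∞) * u ^ (kap Pa Fa ξ) := by
    intro ξ
    rw [tsum_fintype, Finset.sum_const, Finset.card_univ, nsmul_eq_mul]
    congr 2
    have := Fintype.card_subtype_compl (fun m : M => m = 1)
    rw [Fintype.card_subtype_eq] at this
    exact this
  rw [tsum_congr h2, ENNReal.tsum_mul_left]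
  rfl

lemma ZZ_eq [Fintype M] (u : ℝ≥0∞) :
    ZZ Pa Fa M u = ∑' n : ℕ, (((Fintype.card M - 1 : ℕ) : ℝ≥0∞) * Th Pa Fa u) ^ n := by
  rw [← letters_sum, ← tsum_lst_geom, ZZ]
  exact tsum_congr (fun L => co_pow Pa Fa u L)

lemma upper_sum [Fintype M] [Finite Pa] [Finite Fa] [Fintype Fa] (u : ℝ≥0∞) (hu : u ≤ 1) (r : ℕ) :
    ((BB Pa Fa iA iM hcomm r).ncard : ℝ≥0∞) * u ^ r ≤
      (Fintype.card M : ℝ≥0∞) * (ZZ Pa Fa M u * ((1 + Th Pa Fa u) * (Fintype.card Fa : ℝ≥0∞))) := by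
  classical
  set val : M × (List (LL Pa Fa M) × (Option (XX Pa Fa) × Fa)) → H := fun c =>
    iM c.1 * pr Pa Fa iA iM c.2.1 * iA (so Pa Fa c.2.2.1) * iA c.2.2.2 with hval
  set cost : M × (List (LL Pa Fa M) × (Option (XX Pa Fa) × Fa)) → ℕ := fun c =>
    co Pa Fa c.2.1 + ko Pa Fa c.2.2.1 with hcost
  have hfin : (BB Pa Fa iA iM hcomm r).Finite := Wr.Bl_finite _ _ r
  have hsub : BB Pa Fa iA iM hcomm r ⊆ val '' {c | cost c ≤ r} := by
    intro h hh
    obtain ⟨m0, L, e, f, hf, h1, h2⟩ := encode Pa Fa iA iM hcomm r h hh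
    exact ⟨(m0, L, e, ⟨f, hf⟩), h2, h1.symm⟩
  have h1 : ((BB Pa Fa iA iM hcomm r).ncard : ℝ≥0∞) ≤ ∑' c, (if cost c ≤ r then (1 : ℝ≥0∞) else 0) := by
    have h2 := tsum_ind {c | cost c ≤ r}
    simp only [Set.mem_ofPred_eq] at h2
    rw [h2]
    have h3 : (BB Pa Fa iA iM hcomm r).encard ≤ ({c | cost c ≤ r}).encard :=
      (Set.encard_le_encard hsub).trans (Set.encard_image_le _ _)
    rw [← Set.Finite.cast_ncard_eq hfin] at h3
    have h4 := ENat.toENNReal_mono h3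
    simpa using h4
  have hsum : ∑' c : M × (List (LL Pa Fa M) × (Option (XX Pa Fa) × Fa)), u ^ (cost c) =
      (Fintype.card M : ℝ≥0∞) * (ZZ Pa Fa M u * ((1 + Th Pa Fa u) * (Fintype.card Fa : ℝ≥0∞))) := by
    have e1 : ∑' c : M × (List (LL Pa Fa M) × (Option (XX Pa Fa) × Fa)), u ^ (cost c) =
        ∑' (_ : M) (d : List (LL Pa Fa M) × (Option (XX Pa Fa) × Fa)), u ^ (co Pa Fa d.1 + ko Pa Fa d.2.1) :=
      ENNReal.tsum_prod (f := fun (_ : M) (d : List (LL Pa Fa M) × (Option (XX Pa Fa) × Fa)) =>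
        u ^ (co Pa Fa d.1 + ko Pa Fa d.2.1))
    have e2 : ∑' (d : List (LL Pa Fa M) × (Option (XX Pa Fa) × Fa)), u ^ (co Pa Fa d.1 + ko Pa Fa d.2.1) =
        ∑' (L : List (LL Pa Fa M)) (g : Option (XX Pa Fa) × Fa), u ^ (co Pa Fa L + ko Pa Fa g.1) :=
      ENNReal.tsum_prod (f := fun (L : List (LL Pa Fa M)) (g : Option (XX Pa Fa) × Fa) => u ^ (co Pa Fa L + ko Pa Fa g.1))
    have e3 : ∀ L : List (LL Pa Fa M), ∑' (g : Option (XX Pa Fa) × Fa), u ^ (co Pa Fa L + ko Pa Fa g.1) =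
        ∑' (e : Option (XX Pa Fa)) (_ : Fa), u ^ (co Pa Fa L + ko Pa Fa e) := fun L =>
      ENNReal.tsum_prod (f := fun (e : Option (XX Pa Fa)) (_ : Fa) => u ^ (co Pa Fa L + ko Pa Fa e))
    rw [e1, e2, tsum_congr e3]
    simp only [pow_add]
    simp only [tsum_fintype, Finset.sum_const, Finset.card_univ, nsmul_eq_mul]
    congr 1
    rw [ZZ, ← ENNReal.tsum_mul_right]
    apply tsum_congr
    intro L
    have h5 : ∀ e : Option (XX Pa Fa), (Fintype.card Fa : ℝ≥0∞) * (u ^ co Pa Fa L * u ^ ko Pa Fa e) =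
        u ^ co Pa Fa L * (Fintype.card Fa : ℝ≥0∞) * u ^ ko Pa Fa e := by
      intro e; ring
    rw [tsum_congr h5, ENNReal.tsum_mul_left, tsum_opt, ko_none, pow_zero]
    simp only [ko_some]
    rw [Th]
    ring
  rw [← hsum]
  calc ((BB Pa Fa iA iM hcomm r).ncard : ℝ≥0∞) * u ^ r
      ≤ (∑' c, (if cost c ≤ r then (1 : ℝ≥0∞) else 0)) * u ^ r := by gcongr
    _ = ∑' c, (if cost c ≤ r then u ^ r else 0) := by
        rw [← ENNReal.tsum_mul_right]
        apply tsum_congr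
        intro c
        split_ifs <;> simp
    _ ≤ ∑' c, u ^ (cost c) := by
        apply ENNReal.tsum_le_tsum
        intro c
        split_ifs with h
        · exact pow_le_pow_right_of_le_one' hu h
        · simp

lemma iA_mem {f : A} (hf : f ∈ Fa) : iA f ∈ QH Fa iA iM hcomm := ⟨f, hf, 1, by simp⟩

lemma iM_mem (m : M) : iM m ∈ QH Fa iA iM hcomm := ⟨1, Fa.one_mem, m, by simp⟩

lemma W_apply {i : ℕ} (j : ℕ) : ∀ a ∈ W Pa Fa j, ∀ h ∈ BB Pa Fa iA iM hcomm (i+1),
    h * iA a ∈ BB Pa Fa iA iM hcomm (i+1+j) := by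
  induction j with
  | zero =>
    intro a ha h hh
    rw [W_zero] at ha
    exact Wr.Bl_right _ _ hh (iA_mem Fa iA iM hcomm ha)
  | succ j ih =>
    intro a ha h hh
    rw [W_mem_succ] at ha
    obtain ⟨a', ha', p, hp, f, hf, rfl⟩ := ha
    have h1 := Wr.Bl_mul_mem (PH Pa iA) (QH Fa iA iM hcomm) (ih a' ha' h hh)
      (p := iA p) (q := iA f) ⟨p, hp, rfl⟩ (iA_mem Fa iA iM hcomm hf)
    rw [map_mul, map_mul, ← mul_assoc, ← mul_assoc]
    exact h1

lemma pr_mem (L : List (LL Pa Fa M)) : pr Pa Fa iA iM L ∈ BB Pa Fa iA iM hcomm (co Pa Fa L + 1) := by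
  induction L with
  | nil => rw [pr_nil]; exact Wr.one_mem_Bl _ _ _
  | cons x L ih =>
    have h1 := W_apply Pa Fa iA iM hcomm (i := co Pa Fa L) (kap Pa Fa x.1) _ (kap_mem Pa Fa x.1) _ ih
    rw [pr_cons, lt, co_cons, ← mul_assoc]
    have h2 : co Pa Fa L + 1 + kap Pa Fa x.1 = co Pa Fa L + kap Pa Fa x.1 + 1 := by ring
    rw [h2] at h1
    exact Wr.Bl_right _ _ h1 (iM_mem Fa iA iM hcomm _)

lemma lower_sum [Finite M] [Finite Pa] [Finite Fa] (hinj : Function.Injective (pr Pa Fa iA iM)) (y : ℝ≥0∞) :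
    y * ZZ Pa Fa M y ≤ ∑' r : ℕ, ((BB Pa Fa iA iM hcomm r).ncard : ℝ≥0∞) * y ^ r := by
  classical
  have h1 : ∀ L : List (LL Pa Fa M), y * y ^ (co Pa Fa L) =
      ∑' r : ℕ, (if co Pa Fa L + 1 = r then y ^ r else 0) := by
    intro L
    rw [tsum_eq_single (co Pa Fa L + 1)]
    · rw [if_pos rfl, pow_succ, mul_comm]
    · intro r hr
      rw [if_neg hr.symm]
  rw [ZZ, ← ENNReal.tsum_mul_left, tsum_congr h1, ENNReal.tsum_comm]
  apply ENNReal.tsum_le_tsum
  intro r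
  have hfin : (BB Pa Fa iA iM hcomm r).Finite := Wr.Bl_finite _ _ r
  have h2 : ∀ L : List (LL Pa Fa M), (if co Pa Fa L + 1 = r then y ^ r else 0) =
      (if co Pa Fa L + 1 = r then (1 : ℝ≥0∞) else 0) * y ^ r := by
    intro L; split_ifs <;> simp
  rw [tsum_congr h2, ENNReal.tsum_mul_right]
  gcongr
  have h3 := tsum_ind {L : List (LL Pa Fa M) | co Pa Fa L + 1 = r}
  simp only [Set.mem_ofPred_eq] at h3
  rw [h3, ← hinj.encard_image]
  have h4 : (pr Pa Fa iA iM '' {L : List (LL Pa Fa M) | co Pa Fa L + 1 = r}) ⊆ BB Pa Fa iA iM hcomm r := by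
    rintro _ ⟨L, hL, rfl⟩
    have := pr_mem Pa Fa iA iM hcomm L
    rw [Set.mem_ofPred_eq] at hL
    rwa [hL] at this
  have h5 := Set.encard_le_encard h4
  rw [← Set.Finite.cast_ncard_eq hfin] at h5
  have h6 := ENat.toENNReal_mono h5
  simpa using h6

end H

/-- submultiplicative sequences with a divergent generating sum -/
lemma submul_ge (a : ℕ → ℝ) (ha0 : ∀ n, 0 ≤ a n) (hsub : ∀ m n, a (m + n) ≤ a m * a n)
    (hdiv : ∀ B : ℝ, ∃ n, B < ∑ i ∈ Finset.range n, a i) (r : ℕ) : 1 ≤ a r := by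
  by_contra hcon
  push Not at hcon
  set S : ℕ → ℝ := fun n => ∑ i ∈ Finset.range n, a i with hS
  have h1 : ∀ n, S n ≤ S r + a r * S n := by
    intro n
    have h2 : S n ≤ S (r + n) := by
      apply Finset.sum_le_sum_of_subset_of_nonneg
      · intro x hx
        rw [Finset.mem_range] at hx ⊢
        omega
      · intro i _ _; exact ha0 i
    have h3 : S (r + n) = S r + ∑ i ∈ Finset.range n, a (r + i) := Finset.sum_range_add _ _ _
    have h4 : ∑ i ∈ Finset.range n, a (r + i) ≤ a r * S n := by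
      rw [hS, Finset.mul_sum]
      exact Finset.sum_le_sum (fun i _ => hsub r i)
    linarith
  obtain ⟨n, hn⟩ := hdiv (S r / (1 - a r))
  have h5 := h1 n
  have h6 : 0 < 1 - a r := by linarith
  rw [div_lt_iff₀ h6] at hn
  have : S n * (1 - a r) ≤ S r := by linarith
  change S r < S n * (1 - a r) at hn
  linarith

end Pool.Agent.Helper125
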