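import Pool.Agent.Helper125.Renew

set_option autoImplicit false
open scoped Pointwise ENNReal Topology
open Filter

namespace Pool.Agent.Helper125

section H
variable {A : Type} [Group A] (Pa Fa : Subgroup A) {H M : Type} [Group H] [Group M]
  (iA : A →* H) (iM : M →* H) (hcomm : ∀ f ∈ Fa, ∀ m, iA f * iM m = iM m * iA f)

lemma Bl_submul {H : Type} [Group H] (P Q : Subgroup H) (m n : ℕ) :
    (Wr.Bl P Q (m+n)).ncard ≤ (Wr.Bl P Q m).ncard * (Wr.Bl P Q n).ncard := by
  rw [Wr.Bl_add]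
  exact Set.natCard_mul_le

lemma Th_le (c u : ℝ≥0∞) (hc : c ≤ 1) : Th Pa Fa (c * u) ≤ c * Th Pa Fa u := by
  rw [Th, Th, ← ENNReal.tsum_mul_left]
  apply ENNReal.tsum_le_tsum
  intro ξ
  rw [mul_pow]
  gcongr
  exact pow_le_of_le_one (by simp) hc (by have := kap_pos Pa Fa ξ; omega)

theorem renewal_abs [Fintype M] (hM : 2 ≤ Fintype.card M) [Finite Pa] [Finite Fa]
    (hinj : Function.Injective (pr Pa Fa iA iM)) (y : ℝ) (hy0 : 0 < y) (hy1 : y < 1)
    (hΨ : ∑' j, (cN Pa Fa j : ℝ≥0∞) * (ENNReal.ofReal y) ^ j =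
      ENNReal.ofReal ((Fintype.card M : ℝ) / (((Fintype.card M : ℝ) - 1) * (1 - y)))) :
    (∀ r, (1 / y) ^ r ≤ ((BB Pa Fa iA iM hcomm r).ncard : ℝ)) ∧
    (∀ v, 1 / y < v → ∃ C, 0 ≤ C ∧ ∀ r, ((BB Pa Fa iA iM hcomm r).ncard : ℝ) ≤ C * v ^ r) := by
  classical
  have : Fintype Fa := Fintype.ofFinite _
  set μ : ℝ := (Fintype.card M : ℝ) with hμ
  have hμ2 : 2 ≤ μ := by rw [hμ]; exact_mod_cast hM
  set Y := ENNReal.ofReal y with hY
  have hY1 : 1 - Y = ENNReal.ofReal (1 - y) := by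
    rw [hY, ENNReal.ofReal_sub _ hy0.le, ENNReal.ofReal_one]
  have h1y : 0 < 1 - y := by linarith
  have hμ1 : 0 < μ - 1 := by linarith
  -- the value of Th
  have hTh1 : 1 + Th Pa Fa Y = ENNReal.ofReal (μ / (μ - 1)) := by
    have h1 := psi_eq Pa Fa Y
    rw [hΨ, hY1] at h1
    have h2 : ENNReal.ofReal (1 - y) ≠ 0 := by
      rw [Ne, ENNReal.ofReal_eq_zero]; linarith
    have h3 : ENNReal.ofReal (1 - y) ≠ ∞ := ENNReal.ofReal_ne_top
    have h4 : (1 + Th Pa Fa Y) = ((1 + Th Pa Fa Y) * (ENNReal.ofReal (1 - y))⁻¹) * ENNReal.ofReal (1 - y) := by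
      rw [mul_assoc, ENNReal.inv_mul_cancel h2 h3, mul_one]
    rw [h4, ← h1, ← ENNReal.ofReal_mul (by positivity)]
    congr 1
    field_simp
  have hTh2 : Th Pa Fa Y = ENNReal.ofReal (1 / (μ - 1)) := by
    have h1 : ENNReal.ofReal (μ / (μ - 1)) = 1 + ENNReal.ofReal (1 / (μ - 1)) := by
      rw [← ENNReal.ofReal_one, ← ENNReal.ofReal_add (by norm_num) (by positivity)]
      congr 1
      field_simp
      ring
    rw [h1] at hTh1
    exact (ENNReal.add_right_inj (by norm_num)).mp hTh1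
  have hcard : ((Fintype.card M - 1 : ℕ) : ℝ≥0∞) = ENNReal.ofReal (μ - 1) := by
    rw [hμ, ← ENNReal.ofReal_natCast, Nat.cast_sub (by omega), Nat.cast_one]
  have hth : ((Fintype.card M - 1 : ℕ) : ℝ≥0∞) * Th Pa Fa Y = 1 := by
    rw [hcard, hTh2, ← ENNReal.ofReal_mul hμ1.le, ← ENNReal.ofReal_one]
    congr 1
    field_simp
  have hY0 : Y ≠ 0 := by rw [hY, Ne, ENNReal.ofReal_eq_zero]; linarith
  constructor
  · intro r
    have hZ : ZZ Pa Fa M Y = ∞ := by
      rw [ZZ_eq, hth]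
      simp only [one_pow]
      exact ENNReal.tsum_const_eq_top_of_ne_zero one_ne_zero
    have hlow := lower_sum Pa Fa iA iM hcomm hinj Y
    rw [hZ, ENNReal.mul_top hY0, top_le_iff] at hlow
    have h1 := submul_ge (fun n => ((BB Pa Fa iA iM hcomm n).ncard : ℝ) * y ^ n) (fun n => by positivity)
      (by
        intro m n
        have h2 := Bl_submul (PH Pa iA) (QH Fa iA iM hcomm) m n
        have h3 : ((BB Pa Fa iA iM hcomm (m+n)).ncard : ℝ) ≤
          ((BB Pa Fa iA iM hcomm m).ncard : ℝ) * ((BB Pa Fa iA iM hcomm n).ncard : ℝ) := by exact_mod_cast h2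
        calc ((BB Pa Fa iA iM hcomm (m+n)).ncard : ℝ) * y ^ (m+n)
            ≤ (((BB Pa Fa iA iM hcomm m).ncard : ℝ) * ((BB Pa Fa iA iM hcomm n).ncard : ℝ)) * y ^ (m+n) := by
              gcongr
          _ = _ := by rw [pow_add]; ring)
      (by
        intro B
        by_contra hcon
        push Not at hcon
        have h4 : ∑' r : ℕ, ((BB Pa Fa iA iM hcomm r).ncard : ℝ≥0∞) * Y ^ r ≤ ENNReal.ofReal B := by
          apply ENNReal.tsum_le_of_sum_range_le
          intro n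
          have h5 : ∑ i ∈ Finset.range n, ((BB Pa Fa iA iM hcomm i).ncard : ℝ≥0∞) * Y ^ i =
              ENNReal.ofReal (∑ i ∈ Finset.range n, ((BB Pa Fa iA iM hcomm i).ncard : ℝ) * y ^ i) := by
            rw [ENNReal.ofReal_sum_of_nonneg (fun i _ => by positivity)]
            apply Finset.sum_congr rfl
            intro i _
            rw [ENNReal.ofReal_mul (by positivity), ENNReal.ofReal_natCast, hY, ENNReal.ofReal_pow hy0.le]
          rw [h5]
          exact ENNReal.ofReal_le_ofReal (hcon n)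
        rw [hlow] at h4
        exact absurd h4 (by simp))
      r
    rw [one_div, inv_pow, inv_le_iff_one_le_mul₀ (by positivity)]
    exact h1
  · intro v hv
    have hv0 : 0 < v := lt_trans (by positivity) hv
    set u : ℝ := 1 / v with hu
    have hu0 : 0 < u := by positivity
    have huy : u < y := by
      rw [hu, div_lt_iff₀ hv0]
      rw [div_lt_iff₀ hy0] at hv
      linarith
    set c : ℝ := u / y with hc
    have hc0 : 0 < c := by positivity
    have hc1 : c < 1 := by rw [hc, div_lt_one hy0]; exact huy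
    set C := ENNReal.ofReal c with hC
    have hC1 : C < 1 := by rw [hC, ENNReal.ofReal_lt_one]; exact hc1
    have hU : ENNReal.ofReal u = C * Y := by
      rw [hC, hY, ← ENNReal.ofReal_mul hc0.le, hc]
      congr 1
      field_simp
    have h1 : Th Pa Fa (ENNReal.ofReal u) ≤ C * Th Pa Fa Y := by
      rw [hU]; exact Th_le Pa Fa C Y hC1.le
    have h2 : ((Fintype.card M - 1 : ℕ) : ℝ≥0∞) * Th Pa Fa (ENNReal.ofReal u) ≤ C := by
      calc ((Fintype.card M - 1 : ℕ) : ℝ≥0∞) * Th Pa Fa (ENNReal.ofReal u)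
          ≤ ((Fintype.card M - 1 : ℕ) : ℝ≥0∞) * (C * Th Pa Fa Y) := by gcongr
        _ = C * (((Fintype.card M - 1 : ℕ) : ℝ≥0∞) * Th Pa Fa Y) := by ring
        _ = C := by rw [hth, mul_one]
    have h3 : ZZ Pa Fa M (ENNReal.ofReal u) ≤ (1 - C)⁻¹ := by
      rw [ZZ_eq, ← ENNReal.tsum_geometric]
      apply ENNReal.tsum_le_tsum
      intro n
      gcongr
    have h4 : (1 - C)⁻¹ ≠ ∞ := by
      rw [Ne, ENNReal.inv_eq_top]
      exact (tsub_pos_of_lt hC1).ne'
    have h5 : Th Pa Fa (ENNReal.ofReal u) ≠ ∞ := by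
      refine ne_top_of_le_ne_top ?_ h1
      rw [hTh2, hC]
      exact ENNReal.mul_ne_top ENNReal.ofReal_ne_top ENNReal.ofReal_ne_top
    set K := (Fintype.card M : ℝ≥0∞) * (ZZ Pa Fa M (ENNReal.ofReal u) *
      ((1 + Th Pa Fa (ENNReal.ofReal u)) * (Fintype.card Fa : ℝ≥0∞))) with hK
    have hKfin : K ≠ ∞ := by
      rw [hK]
      refine ENNReal.mul_ne_top (ENNReal.natCast_ne_top _) (ENNReal.mul_ne_top ?_ (ENNReal.mul_ne_top ?_ (ENNReal.natCast_ne_top _)))
      · exact ne_top_of_le_ne_top h4 h3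
      · exact ENNReal.add_ne_top.mpr ⟨ENNReal.one_ne_top, h5⟩
    refine ⟨K.toReal, ENNReal.toReal_nonneg, ?_⟩
    intro r
    have hu1 : ENNReal.ofReal u ≤ 1 := by
      rw [ENNReal.ofReal_le_one]; linarith
    have h6 := upper_sum Pa Fa iA iM hcomm (ENNReal.ofReal u) hu1 r
    have h7 := ENNReal.toReal_mono hKfin h6
    rw [ENNReal.toReal_mul, ENNReal.toReal_natCast, ENNReal.toReal_pow, ENNReal.toReal_ofReal hu0.le] at h7
    have h8 : ((BB Pa Fa iA iM hcomm r).ncard : ℝ) = ((BB Pa Fa iA iM hcomm r).ncard : ℝ) * u ^ r * v ^ r := by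
      rw [mul_assoc, ← mul_pow, hu]
      have : 1 / v * v = 1 := by field_simp
      rw [this, one_pow, mul_one]
    rw [h8]
    gcongr

end H

end Pool.Agent.Helper125
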