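import Pool.Agent.Helper125.RenewB

set_option autoImplicit false
open scoped Pointwise ENNReal Topology
open Filter

namespace Pool.Agent.Helper125

/-- free product of copies of `M` indexed by `X` -/
abbrev NX (X M : Type) [Group M] : Type := Monoid.CoprodI (fun _ : X => M)

namespace NX
open Monoid.CoprodI
variable {X M : Type} [Group M]

/-- inclusion of the factors -/
def incx (x : X) : M →* NX X M := Monoid.CoprodI.of (M := fun _ : X => M) (i := x)

/-- letters -/
abbrev Lx (X M : Type) : Type := Σ _ : X, M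

/-- reduced lists -/
def Rx (l : List (Lx X M)) : Prop :=
  (∀ z ∈ l, z.2 ≠ 1) ∧ l.IsChain (fun a b => a.1 ≠ b.1)

/-- product of a list of letters -/
def evx (l : List (Lx X M)) : NX X M := (l.map (fun z => incx z.1 z.2)).prod

lemma evx_nil : evx ([] : List (Lx X M)) = 1 := rfl
lemma evx_cons (z : Lx X M) (l : List (Lx X M)) : evx (z :: l) = incx z.1 z.2 * evx l := by
  simp [evx]

lemma rx_inj {l l' : List (Lx X M)} (h : Rx l) (h' : Rx l') (he : evx l = evx l') : l = l' := by
  classical
  have h1 : (⟨l, h.1, h.2⟩ : Word (fun _ : X => M)).prod = (⟨l', h'.1, h'.2⟩ : Word (fun _ : X => M)).prod := he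
  have h2 := Word.equiv.symm.injective h1
  exact congrArg Word.toList h2

variable {A : Type} [Group A] [MulAction A X]

/-- the permutation action on the free product -/
def act (g : A) : NX X M →* NX X M := Monoid.CoprodI.lift (fun x => incx (g • x))

lemma act_inc (g : A) (x : X) (m : M) : act g (incx x m) = incx (g • x) m := by
  simp [act, incx]

lemma act_one : act (1 : A) = MonoidHom.id (NX X M) := by
  apply Monoid.CoprodI.ext_hom
  intro x
  ext m
  show act (1 : A) (incx x m) = incx x m
  rw [act_inc, one_smul]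

lemma act_mul (g h : A) : (act (g * h) : NX X M →* NX X M) = (act g).comp (act h) := by
  apply Monoid.CoprodI.ext_hom
  intro x
  ext m
  show act (g * h) (incx x m) = act g (act h (incx x m))
  rw [act_inc, act_inc, act_inc, mul_smul]

/-- the action as automorphisms -/
def aut (A X M : Type) [Group M] [Group A] [MulAction A X] : A →* MulAut (NX X M) where
  toFun g := MonoidHom.toMulEquiv (act g) (act g⁻¹)
    (by rw [← act_mul, inv_mul_cancel, act_one]) (by rw [← act_mul, mul_inv_cancel, act_one])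
  map_one' := by
    ext n
    show act (1 : A) n = n
    rw [act_one]; rfl
  map_mul' g h := by
    ext n
    show act (g * h) n = act g (act h n)
    rw [act_mul]; rfl

lemma aut_apply (g : A) (n : NX X M) : aut A X M g n = act g n := rfl

lemma act_ev (g : A) (l : List (Lx X M)) : act g (evx l) = evx (l.map (fun z => (⟨g • z.1, z.2⟩ : Lx X M))) := by
  induction l with
  | nil => rw [evx_nil, map_one]; rfl
  | cons z l ih => rw [evx_cons, map_mul, ih, act_inc, List.map_cons, evx_cons]

lemma rx_act (g : A) {l : List (Lx X M)} (h : Rx l) : Rx (l.map (fun z => (⟨g • z.1, z.2⟩ : Lx X M))) := by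
  refine ⟨?_, ?_⟩
  · intro z hz
    rw [List.mem_map] at hz
    obtain ⟨z', hz', rfl⟩ := hz
    exact h.1 z' hz'
  · rw [List.isChain_map]
    refine h.2.imp ?_
    intro a b hab hh
    exact hab (MulAction.injective g hh)

end NX

section C
open NX
variable {A : Type} [Group A] (Pa Fa : Subgroup A) (M : Type) [Group M]

/-- the group of the construction -/
abbrev HG : Type := (NX (A ⧸ Fa) M) ⋊[aut A (A ⧸ Fa) M] A

/-- inclusion of `A` -/
def jA : A →* HG Fa M := SemidirectProduct.inr

/-- inclusion of `M` -/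
def jM : M →* HG Fa M := SemidirectProduct.inl.comp (incx (QuotientGroup.mk 1 : A ⧸ Fa))

lemma jA_jM (a : A) (m : M) : jA Fa M a * jM Fa M m =
    SemidirectProduct.inl (incx (QuotientGroup.mk a : A ⧸ Fa) m) * jA Fa M a := by
  have h1 : (QuotientGroup.mk a : A ⧸ Fa) = a • (QuotientGroup.mk 1 : A ⧸ Fa) := by
    rw [MulAction.Quotient.smul_mk]; simp
  have h2 := SemidirectProduct.inl_aut (φ := aut A (A ⧸ Fa) M) a (incx (QuotientGroup.mk 1 : A ⧸ Fa) m)
  rw [aut_apply, act_inc, ← h1] at h2
  rw [h2]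
  show SemidirectProduct.inr a * SemidirectProduct.inl (incx (QuotientGroup.mk 1 : A ⧸ Fa) m) = _
  rw [map_inv, mul_assoc, mul_assoc]
  show _ = SemidirectProduct.inr a * (SemidirectProduct.inl (incx (QuotientGroup.mk 1 : A ⧸ Fa) m) * ((SemidirectProduct.inr a)⁻¹ * SemidirectProduct.inr a))
  rw [inv_mul_cancel, mul_one]

lemma j_comm : ∀ f ∈ Fa, ∀ m, jA Fa M f * jM Fa M m = jM Fa M m * jA Fa M f := by
  intro f hf m
  rw [jA_jM]
  have : (QuotientGroup.mk f : A ⧸ Fa) = QuotientGroup.mk 1 := by
    rw [eq_comm, QuotientGroup.eq]; simpa using hf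
  rw [this]
  rfl

/-- letters of the word attached to a list -/
noncomputable def lst : List (LL Pa Fa M) → List (Lx (A ⧸ Fa) M)
  | [] => []
  | x :: L => (⟨x.1.1, x.2.1⟩ : Lx (A ⧸ Fa) M) :: (lst L).map (fun z => (⟨x.1.1.out • z.1, z.2⟩ : Lx (A ⧸ Fa) M))

/-- forward product -/
noncomputable def prF (L : List (LL Pa Fa M)) : HG Fa M := (L.map (lt Pa Fa (jA Fa M) (jM Fa M))).prod

lemma lt_eq (x : LL Pa Fa M) : lt Pa Fa (jA Fa M) (jM Fa M) x =
    SemidirectProduct.inl (incx x.1.1 x.2.1) * jA Fa M x.1.1.out := by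
  have h : (QuotientGroup.mk x.1.1.out : A ⧸ Fa) = x.1.1 := QuotientGroup.out_eq' _
  rw [lt, jA_jM, h]

lemma prF_left (L : List (LL Pa Fa M)) : Rx (lst Pa Fa M L) ∧ (prF Pa Fa M L).left = evx (lst Pa Fa M L) ∧
    (∀ z ∈ (lst Pa Fa M L).head?, z.1 ≠ QuotientGroup.mk 1) := by
  induction L with
  | nil =>
    refine ⟨⟨by simp [lst], by simp [lst]⟩, ?_, by simp [lst]⟩
    rfl
  | cons x L ih =>
    obtain ⟨h1, h2, h3⟩ := ih
    refine ⟨⟨?_, ?_⟩, ?_, ?_⟩
    · intro z hz
      rw [lst, List.mem_cons] at hz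
      rcases hz with rfl | hz
      · exact x.2.2
      · exact (rx_act x.1.1.out h1).1 z hz
    · rw [lst, List.isChain_cons]
      refine ⟨?_, (rx_act x.1.1.out h1).2⟩
      intro z hz
      rw [List.head?_map, Option.mem_def, Option.map_eq_some_iff] at hz
      obtain ⟨z', hz', rfl⟩ := hz
      have h4 := h3 z' hz'
      simp only
      intro h5
      apply h4
      have h6 : x.1.1 = x.1.1.out • (QuotientGroup.mk 1 : A ⧸ Fa) := by
        rw [MulAction.Quotient.smul_mk]
        simp only [smul_eq_mul, mul_one]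
        exact (QuotientGroup.out_eq' _).symm
      have h7 : x.1.1.out • (QuotientGroup.mk 1 : A ⧸ Fa) = x.1.1.out • z'.1 := by
        rw [← h6]; exact h5
      exact (MulAction.injective x.1.1.out h7).symm
    · have h8 : prF Pa Fa M (x :: L) = lt Pa Fa (jA Fa M) (jM Fa M) x * prF Pa Fa M L := by
        simp [prF]
      rw [h8, lt_eq, lst, evx_cons, ← act_ev, ← h2, SemidirectProduct.mul_left]
      simp only [SemidirectProduct.mul_left, SemidirectProduct.mul_right, SemidirectProduct.left_inl,
        SemidirectProduct.right_inl, jA, SemidirectProduct.left_inr, SemidirectProduct.right_inr, map_one,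
        mul_one, one_mul, aut_apply]
    · intro z hz
      rw [lst, List.head?_cons, Option.mem_def, Option.some.injEq] at hz
      rw [← hz]
      exact x.1.2.1

lemma prF_inj : Function.Injective (prF Pa Fa M) := by
  intro L
  induction L with
  | nil =>
    intro L' h
    have h1 := congrArg SemidirectProduct.left h
    rw [(prF_left Pa Fa M []).2.1, (prF_left Pa Fa M L').2.1] at h1
    have h2 := rx_inj (prF_left Pa Fa M []).1 (prF_left Pa Fa M L').1 h1
    rcases L' with _ | ⟨x, L'⟩
    · rfl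
    · rw [lst, lst] at h2
      exact absurd h2 (by simp)
  | cons x L ih =>
    intro L' h
    have h1 := congrArg SemidirectProduct.left h
    rw [(prF_left Pa Fa M (x :: L)).2.1, (prF_left Pa Fa M L').2.1] at h1
    have h2 := rx_inj (prF_left Pa Fa M (x :: L)).1 (prF_left Pa Fa M L').1 h1
    rcases L' with _ | ⟨x', L'⟩
    · rw [lst, lst] at h2
      exact absurd h2 (by simp)
    · rw [lst, lst, List.cons.injEq] at h2
      have h3 := h2.1
      simp only [Sigma.mk.injEq, heq_eq_eq] at h3
      have h4 : x = x' := Prod.ext (Subtype.ext h3.1) (Subtype.ext h3.2)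
      subst h4
      have h5 : prF Pa Fa M L = prF Pa Fa M L' := by
        simp only [prF, List.map_cons, List.prod_cons] at h
        exact mul_left_cancel h
      rw [ih h5]

lemma pr_eq (L : List (LL Pa Fa M)) : pr Pa Fa (jA Fa M) (jM Fa M) L = prF Pa Fa M L.reverse := by
  induction L with
  | nil => rfl
  | cons x L ih =>
    rw [pr_cons, ih, List.reverse_cons]
    simp [prF]

lemma pr_inj : Function.Injective (pr Pa Fa (jA Fa M) (jM Fa M)) := by
  intro L L' h
  rw [pr_eq, pr_eq] at h
  exact List.reverse_injective (prF_inj Pa Fa M h)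

/-- renewal theorem -/
theorem renewal [Fintype M] (hM : 2 ≤ Fintype.card M) [Finite Pa] [Finite Fa]
    (y : ℝ) (hy0 : 0 < y) (hy1 : y < 1)
    (hΨ : ∑' j, (cN Pa Fa j : ℝ≥0∞) * (ENNReal.ofReal y) ^ j =
      ENNReal.ofReal ((Fintype.card M : ℝ) / (((Fintype.card M : ℝ) - 1) * (1 - y)))) :
    ∃ (H : Type) (_ : Group H) (P Q : Subgroup H), Finite P ∧ Finite Q ∧
    (∀ r, (1 / y) ^ r ≤ ((Wr.Bl P Q r).ncard : ℝ)) ∧
    (∀ v, 1 / y < v → ∃ C, 0 ≤ C ∧ ∀ r, ((Wr.Bl P Q r).ncard : ℝ) ≤ C * v ^ r) := by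
  have h := renewal_abs Pa Fa (jA Fa M) (jM Fa M) (j_comm Fa M) hM (pr_inj Pa Fa M) y hy0 hy1 hΨ
  exact ⟨HG Fa M, inferInstance, PH Pa (jA Fa M), QH Fa (jA Fa M) (jM Fa M) (j_comm Fa M),
    inferInstance, inferInstance, h.1, h.2⟩

end C

end Pool.Agent.Helper125
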