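import Mathlib

set_option autoImplicit false
open scoped Pointwise

namespace Pool.Agent.Helper125

/-- Elements of the wreath product of `H` by the permutations of `n+2` positions. -/
@[ext] structure Wr (n : ℕ) (H : Type) where
  lab : Fin (n+2) → H
  pos : Equiv.Perm (Fin (n+2))

namespace Wr
variable {n : ℕ} {H : Type} [Group H]

instance : Mul (Wr n H) := ⟨fun a b => ⟨fun c => a.lab c * b.lab (a.pos c), b.pos * a.pos⟩⟩
instance : One (Wr n H) := ⟨⟨fun _ => 1, 1⟩⟩
instance : Inv (Wr n H) := ⟨fun a => ⟨fun j => (a.lab (a.pos⁻¹ j))⁻¹, a.pos⁻¹⟩⟩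

@[simp] lemma mul_lab (a b : Wr n H) (c : Fin (n+2)) : (a * b).lab c = a.lab c * b.lab (a.pos c) := rfl
@[simp] lemma mul_pos' (a b : Wr n H) : (a * b).pos = b.pos * a.pos := rfl
@[simp] lemma one_lab (c : Fin (n+2)) : (1 : Wr n H).lab c = 1 := rfl
@[simp] lemma one_pos' : (1 : Wr n H).pos = 1 := rfl
@[simp] lemma inv_lab (a : Wr n H) (c : Fin (n+2)) : (a⁻¹).lab c = (a.lab (a.pos⁻¹ c))⁻¹ := rfl
@[simp] lemma inv_pos' (a : Wr n H) : (a⁻¹).pos = a.pos⁻¹ := rfl

instance : Group (Wr n H) := Group.ofLeftAxioms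
  (by
    intro a b c
    ext x
    · simp [mul_assoc]
    · simp [mul_assoc])
  (by
    intro a
    ext x
    · simp
    · simp)
  (by
    intro a
    ext x
    · simp
    · simp)

/-- toggles at the two end positions -/
def tog (p q : H) : Wr n H :=
  ⟨fun i => if i = 0 then p else if i = Fin.last (n+1) then q else 1, 1⟩

/-- permutation of positions -/
def mv (s : Equiv.Perm (Fin (n+2))) : Wr n H := ⟨fun _ => 1, s⟩

lemma last_ne_zero : Fin.last (n+1) ≠ (0 : Fin (n+2)) := by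
  intro h
  have := congrArg Fin.val h
  simp at this

@[simp] lemma tog_zero (p q : H) : (tog p q : Wr n H).lab 0 = p := by simp [tog]
@[simp] lemma tog_last (p q : H) : (tog p q : Wr n H).lab (Fin.last (n+1)) = q := by
  simp [tog, last_ne_zero]
lemma tog_other (p q : H) (i : Fin (n+2)) (h0 : i ≠ 0) (h1 : i ≠ Fin.last (n+1)) :
    (tog p q : Wr n H).lab i = 1 := by
  simp [tog, h0, h1]
@[simp] lemma tog_pos (p q : H) : (tog p q : Wr n H).pos = 1 := rfl
@[simp] lemma mv_lab (s : Equiv.Perm (Fin (n+2))) (i : Fin (n+2)) : (mv s : Wr n H).lab i = 1 := rfl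
@[simp] lemma mv_pos (s : Equiv.Perm (Fin (n+2))) : (mv s : Wr n H).pos = s := rfl

lemma tog_mul (p q p' q' : H) : (tog p q : Wr n H) * tog p' q' = tog (p*p') (q*q') := by
  ext x
  · by_cases h0 : x = 0
    · subst h0; simp
    · by_cases h1 : x = Fin.last (n+1)
      · subst h1; simp
      · simp [tog_other, h0, h1]
  · simp

lemma tog_one : (tog 1 1 : Wr n H) = 1 := by
  ext x
  · by_cases h0 : x = 0
    · subst h0; simp
    · by_cases h1 : x = Fin.last (n+1)
      · subst h1; simp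
      · simp [tog_other, h0, h1]
  · simp

lemma tog_inv (p q : H) : (tog p q : Wr n H)⁻¹ = tog p⁻¹ q⁻¹ := by
  rw [inv_eq_iff_mul_eq_one, tog_mul]
  simp [tog_one]

lemma mv_mul (s t : Equiv.Perm (Fin (n+2))) : (mv s : Wr n H) * mv t = mv (t * s) := by
  ext x <;> simp

lemma mv_one : (mv 1 : Wr n H) = 1 := by
  ext x <;> simp

lemma mv_inv (s : Equiv.Perm (Fin (n+2))) : (mv s : Wr n H)⁻¹ = mv s⁻¹ := by
  rw [inv_eq_iff_mul_eq_one, mv_mul]
  simp [mv_one]

/-- allowed moves: identity or an adjacent transposition -/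
def IsMove (s : Equiv.Perm (Fin (n+2))) : Prop :=
  s = 1 ∨ ∃ i : Fin (n+1), s = Equiv.swap i.castSucc i.succ

lemma IsMove.inv {s : Equiv.Perm (Fin (n+2))} (h : IsMove s) : IsMove s⁻¹ := by
  rcases h with h | ⟨i, h⟩
  · left; simp [h]
  · right; exact ⟨i, by simp [h, Equiv.swap_inv]⟩

/-- the generating set -/
def T (n : ℕ) {H : Type} [Group H] (P Q : Subgroup H) : Set (Wr n H) :=
  {w | ∃ p ∈ P, ∃ q ∈ Q, ∃ s : Equiv.Perm (Fin (n+2)), IsMove s ∧ ∃ p' ∈ P, ∃ q' ∈ Q,
    w = tog p q * mv s * tog p' q'}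

lemma one_mem_T (P Q : Subgroup H) : (1 : Wr n H) ∈ T n P Q := by
  refine ⟨1, P.one_mem, 1, Q.one_mem, 1, Or.inl rfl, 1, P.one_mem, 1, Q.one_mem, ?_⟩
  simp [tog_one, mv_one]

lemma T_inv (P Q : Subgroup H) : (T n P Q)⁻¹ = T n P Q := by
  have key : ∀ w : Wr n H, w ∈ T n P Q → w⁻¹ ∈ T n P Q := by
    rintro w ⟨p, hp, q, hq, s, hs, p', hp', q', hq', rfl⟩
    refine ⟨p'⁻¹, P.inv_mem hp', q'⁻¹, Q.inv_mem hq', s⁻¹, hs.inv, p⁻¹, P.inv_mem hp,
      q⁻¹, Q.inv_mem hq, ?_⟩
    simp [tog_inv, mv_inv, mul_assoc]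
  ext w
  constructor
  · intro h
    have := key _ (Set.mem_inv.mp h)
    simpa using this
  · intro h
    exact Set.mem_inv.mpr (key _ h)

lemma T_finite (P Q : Subgroup H) [Finite P] [Finite Q] : (T n P Q).Finite := by
  have : (T n P Q) ⊆ Set.range (fun x : P × Q × (Equiv.Perm (Fin (n+2))) × P × Q =>
      (tog (x.1 : H) (x.2.1 : H) * mv x.2.2.1 * tog (x.2.2.2.1 : H) (x.2.2.2.2 : H) : Wr n H)) := by
    rintro w ⟨p, hp, q, hq, s, hs, p', hp', q', hq', rfl⟩
    exact ⟨(⟨p, hp⟩, ⟨q, hq⟩, s, ⟨p', hp'⟩, ⟨q', hq'⟩), rfl⟩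
  exact (Set.finite_range _).subset this


/-- blocks -/
def Bl {H : Type} [Group H] (P Q : Subgroup H) (r : ℕ) : Set H := ((P : Set H) * (Q : Set H)) ^ r

section Bl
variable (P Q : Subgroup H)

lemma Bl_zero : Bl P Q 0 = 1 := pow_zero _
lemma Bl_succ (r : ℕ) : Bl P Q (r+1) = Bl P Q r * ((P : Set H) * (Q : Set H)) := pow_succ _ _
lemma Bl_add (r s : ℕ) : Bl P Q (r+s) = Bl P Q r * Bl P Q s := pow_add _ _ _

lemma Bl_mul_mem {r : ℕ} {h p q : H} (hh : h ∈ Bl P Q r) (hp : p ∈ P) (hq : q ∈ Q) :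
    h * p * q ∈ Bl P Q (r+1) := by
  rw [Bl_succ, mul_assoc]
  exact Set.mul_mem_mul hh (Set.mul_mem_mul hp hq)

lemma Bl_mem_succ {r : ℕ} {h : H} : h ∈ Bl P Q (r+1) ↔ ∃ h' ∈ Bl P Q r, ∃ p ∈ P, ∃ q ∈ Q, h = h' * p * q := by
  rw [Bl_succ]
  constructor
  · intro hh
    obtain ⟨h', hh', x, hx, rfl⟩ := Set.mem_mul.mp hh
    obtain ⟨p, hp, q, hq, rfl⟩ := Set.mem_mul.mp hx
    exact ⟨h', hh', p, hp, q, hq, by group⟩
  · rintro ⟨h', hh', p, hp, q, hq, rfl⟩
    rw [mul_assoc]
    exact Set.mul_mem_mul hh' (Set.mul_mem_mul hp hq)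

lemma Bl_right {r : ℕ} {h q : H} (hh : h ∈ Bl P Q (r+1)) (hq : q ∈ Q) : h * q ∈ Bl P Q (r+1) := by
  rw [Bl_mem_succ] at hh ⊢
  obtain ⟨h', hh', p, hp, q', hq', rfl⟩ := hh
  exact ⟨h', hh', p, hp, q' * q, Q.mul_mem hq' hq, by group⟩

lemma Bl_mono_succ (r : ℕ) : Bl P Q r ⊆ Bl P Q (r+1) := by
  intro h hh
  have := Bl_mul_mem P Q hh P.one_mem Q.one_mem
  simpa using this

lemma Bl_mono {r s : ℕ} (h : r ≤ s) : Bl P Q r ⊆ Bl P Q s := by
  induction s, h using Nat.le_induction with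
  | base => exact subset_rfl
  | succ s _ ih => exact ih.trans (Bl_mono_succ P Q s)

lemma one_mem_Bl (r : ℕ) : (1 : H) ∈ Bl P Q r :=
  Bl_mono P Q (Nat.zero_le r) (by rw [Bl_zero]; exact Set.mem_one.mpr rfl)

lemma Bl_finite [Finite P] [Finite Q] (r : ℕ) : (Bl P Q r).Finite := by
  have hP : (P : Set H).Finite := Set.toFinite _
  have hQ : (Q : Set H).Finite := Set.toFinite _
  induction r with
  | zero => rw [Bl_zero]; exact Set.finite_one
  | succ r ih => rw [Bl_succ]; exact ih.mul (hP.mul hQ)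

end Bl

/-- the invariant of the potential argument -/
def Inv' (n : ℕ) (P Q : Subgroup H) (h : H) (i m : ℕ) : Prop :=
  ∃ r : ℕ, ((∃ h' ∈ Bl P Q r, ∃ p ∈ P, h = h' * p) ∧ 2 * (n+1) * r + i ≤ m + (n+1)) ∨
    (h ∈ Bl P Q (r+1) ∧ 2 * (n+1) * r + (n+1) + (n + 1 - i) ≤ m + (n+1))

lemma Inv'.move {P Q : Subgroup H} {h : H} {i m : ℕ} (hI : Inv' n P Q h i m) {i' : ℕ}
    (h1 : i' ≤ i + 1) (h2 : i ≤ i' + 1) : Inv' n P Q h i' (m+1) := by
  obtain ⟨r, h⟩ := hI
  refine ⟨r, ?_⟩
  rcases h with ⟨h, hm⟩ | ⟨h, hm⟩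
  · left; exact ⟨h, by omega⟩
  · right; exact ⟨h, by omega⟩

lemma Inv'.tog0 {P Q : Subgroup H} {h p : H} {m : ℕ} (hI : Inv' n P Q h 0 m) (hp : p ∈ P) :
    Inv' n P Q (h * p) 0 m := by
  obtain ⟨r, h | h⟩ := hI
  · obtain ⟨⟨h', hh', p', hp', rfl⟩, hm⟩ := h
    exact ⟨r, Or.inl ⟨⟨h', hh', p' * p, P.mul_mem hp' hp, by group⟩, hm⟩⟩
  · obtain ⟨hh, hm⟩ := h
    refine ⟨r+1, Or.inl ⟨⟨h, hh, p, hp, rfl⟩, ?_⟩⟩
    have : 2 * (n+1) * (r+1) = 2 * (n+1) * r + 2 * (n+1) := by ring
    omega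

lemma Inv'.togL {P Q : Subgroup H} {h q : H} {m : ℕ} (hI : Inv' n P Q h (n+1) m) (hq : q ∈ Q) :
    Inv' n P Q (h * q) (n+1) m := by
  obtain ⟨r, h | h⟩ := hI
  · obtain ⟨⟨h', hh', p', hp', rfl⟩, hm⟩ := h
    exact ⟨r, Or.inr ⟨Bl_mul_mem P Q hh' hp' hq, by omega⟩⟩
  · obtain ⟨hh, hm⟩ := h
    exact ⟨r, Or.inr ⟨Bl_right P Q hh hq, hm⟩⟩

lemma Inv'.tog {P Q : Subgroup H} {h p q : H} {m : ℕ} {i : Fin (n+2)} (hI : Inv' n P Q h i m)
    (hp : p ∈ P) (hq : q ∈ Q) : Inv' n P Q (h * (Wr.tog p q : Wr n H).lab i) i m := by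
  by_cases h0 : i = 0
  · subst h0
    rw [tog_zero]
    exact hI.tog0 hp
  · by_cases h1 : i = Fin.last (n+1)
    · subst h1
      rw [tog_last]
      exact hI.togL hq
    · rw [tog_other _ _ _ h0 h1, mul_one]
      exact hI

lemma Inv'.final {P Q : Subgroup H} {h : H} {i m : ℕ} (hI : Inv' n P Q h i m) :
    ∃ R, h ∈ Bl P Q R ∧ 2 * (n+1) * R ≤ m + 3 * (n+1) := by
  obtain ⟨r, h | h⟩ := hI
  · obtain ⟨⟨h', hh', p', hp', rfl⟩, hm⟩ := h
    refine ⟨r+1, ?_, ?_⟩
    · have := Bl_mul_mem P Q hh' hp' Q.one_mem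
      simpa using this
    · have : 2 * (n+1) * (r+1) = 2 * (n+1) * r + 2 * (n+1) := by ring
      omega
  · obtain ⟨hh, hm⟩ := h
    refine ⟨r+1, hh, ?_⟩
    have : 2 * (n+1) * (r+1) = 2 * (n+1) * r + 2 * (n+1) := by ring
    omega

lemma T_pow_inv (P Q : Subgroup H) (k : ℕ) : ∀ w ∈ (T n P Q) ^ k,
    ∃ m : Fin (n+2) → ℕ, (∑ c, m c ≤ 2 * k) ∧ ∀ c, Inv' n P Q (w.lab c) (w.pos c) (m c) := by
  induction k with
  | zero =>
    intro w hw
    rw [pow_zero, Set.mem_one] at hw
    subst hw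
    refine ⟨fun _ => 0, by simp, fun c => ⟨0, Or.inl ⟨⟨1, one_mem_Bl P Q 0, 1, P.one_mem, by simp⟩, ?_⟩⟩⟩
    simp only [one_pos', Equiv.Perm.coe_one, id_eq]
    have := c.isLt
    omega
  | succ k ih =>
    intro w hw
    rw [pow_succ] at hw
    obtain ⟨w0, hw0, t, ht, rfl⟩ := Set.mem_mul.mp hw
    obtain ⟨m, hm, hI⟩ := ih w0 hw0
    obtain ⟨p, hp, q, hq, s, hs, p', hp', q', hq', rfl⟩ := ht
    refine ⟨fun c => m c + (if s (w0.pos c) = w0.pos c then 0 else 1), ?_, ?_⟩
    · rw [Finset.sum_add_distrib]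
      have hcard : ∑ c : Fin (n+2), (if s (w0.pos c) = w0.pos c then 0 else 1) ≤ 2 := by
        have h1 : ∑ c : Fin (n+2), (if s (w0.pos c) = w0.pos c then 0 else 1)
            = ∑ c : Fin (n+2), (if s c = c then 0 else 1) := by
          exact Equiv.sum_comp w0.pos (fun c => if s c = c then 0 else 1)
        rw [h1]
        rcases hs with rfl | ⟨i, rfl⟩
        · simp
        · have h2 : ∀ c : Fin (n+2), (if Equiv.swap i.castSucc i.succ c = c then 0 else 1)
              ≤ (if c = i.castSucc then 1 else 0) + (if c = i.succ then 1 else 0) := by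
            intro c
            by_cases hc : c = i.castSucc
            · simp [hc]; split_ifs <;> omega
            · by_cases hc' : c = i.succ
              · simp [hc']; split_ifs <;> omega
              · rw [Equiv.swap_apply_of_ne_of_ne hc hc']
                simp
          calc ∑ c : Fin (n+2), (if Equiv.swap i.castSucc i.succ c = c then 0 else 1)
              ≤ ∑ c : Fin (n+2), ((if c = i.castSucc then 1 else 0) + (if c = i.succ then 1 else 0)) :=
                Finset.sum_le_sum (fun c _ => h2 c)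
            _ = 2 := by
                rw [Finset.sum_add_distrib]
                simp
      omega
    · intro c
      simp only [mul_lab, mul_pos', tog_pos, mul_one, one_mul, mv_pos, mv_lab, Equiv.Perm.coe_mul,
        Function.comp_apply, Equiv.Perm.coe_one, id_eq]
      have h1 := (hI c).tog hp hq
      rw [← mul_assoc]
      apply Inv'.tog _ hp' hq'
      by_cases hc : s (w0.pos c) = w0.pos c
      · simp only [hc, if_true, add_zero]
        exact h1
      · simp only [hc, if_false]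
        refine h1.move ?_ ?_
        · rcases hs with rfl | ⟨i, rfl⟩
          · simp at hc
          · by_cases h0 : w0.pos c = i.castSucc
            · rw [h0, Equiv.swap_apply_left]; simp
            · by_cases h0' : w0.pos c = i.succ
              · rw [h0', Equiv.swap_apply_right]; simp; omega
              · rw [Equiv.swap_apply_of_ne_of_ne h0 h0'] at hc
                exact absurd rfl hc
        · rcases hs with rfl | ⟨i, rfl⟩
          · simp at hc
          · by_cases h0 : w0.pos c = i.castSucc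
            · rw [h0, Equiv.swap_apply_left]; simp; omega
            · by_cases h0' : w0.pos c = i.succ
              · rw [h0', Equiv.swap_apply_right]; simp
              · rw [Equiv.swap_apply_of_ne_of_ne h0 h0'] at hc
                exact absurd rfl hc

lemma T_pow_finite (P Q : Subgroup H) [Finite P] [Finite Q] (k : ℕ) : ((T n P Q)^k).Finite := by
  induction k with
  | zero => rw [pow_zero]; exact Set.finite_one
  | succ r ih => rw [pow_succ]; exact ih.mul (T_finite P Q)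

lemma T_pow_card_le (P Q : Subgroup H) [Finite P] [Finite Q] (C v : ℝ) (hC : 0 ≤ C) (hv : 1 ≤ v)
    (hB : ∀ r, ((Bl P Q r).ncard : ℝ) ≤ C * v ^ r) (k K : ℕ)
    (hK : 2 * k + 3 * (n+1) * (n+2) ≤ 2 * (n+1) * K + (2 * (n+1) - 1)) :
    (((T n P Q)^k).ncard : ℝ) ≤
      ((K+1 : ℕ) : ℝ)^(n+2) * (C^(n+2) * v ^ K) * ((Nat.factorial (n+2) : ℕ) : ℝ) := by
  classical
  set B : ℕ → Finset H := fun r => (Bl_finite P Q r).toFinset with hBdef
  have hBcard : ∀ r, ((B r).card : ℝ) ≤ C * v^r := by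
    intro r
    have : (Bl P Q r).ncard = (B r).card := Set.ncard_eq_toFinset_card _ (Bl_finite P Q r)
    rw [← this]; exact hB r
  set S : Finset (Fin (n+2) → Fin (K+1)) := Finset.univ.filter (fun R => ∑ c, (R c : ℕ) ≤ K) with hS
  set U : Finset ((Fin (n+2) → H) × Equiv.Perm (Fin (n+2))) :=
    (S.biUnion (fun R => Fintype.piFinset (fun c => B (R c)))) ×ˢ Finset.univ with hU
  have hsub : ((T n P Q)^k) ⊆ ((U.image (fun x => (⟨x.1, x.2⟩ : Wr n H)) : Finset (Wr n H)) : Set (Wr n H)) := by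
    intro w hw
    obtain ⟨m, hm, hI⟩ := T_pow_inv P Q k w hw
    choose R hR1 hR2 using fun c => (hI c).final
    have hsum : ∑ c, R c ≤ K := by
      have h1 : ∑ c, 2 * (n+1) * R c ≤ ∑ c : Fin (n+2), (m c + 3 * (n+1)) := Finset.sum_le_sum (fun c _ => hR2 c)
      rw [← Finset.mul_sum, Finset.sum_add_distrib] at h1
      simp only [Finset.sum_const, Finset.card_univ, Fintype.card_fin, smul_eq_mul] at h1
      by_contra hcon
      push Not at hcon
      have h2 : 2 * (n+1) * (K+1) ≤ 2 * (n+1) * ∑ c, R c := Nat.mul_le_mul_left _ hcon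
      have h3 : 2 * (n+1) * (K+1) = 2 * (n+1) * K + 2 * (n+1) := by ring
      have h4 : (n+2) * (3 * (n+1)) = 3 * (n+1) * (n+2) := by ring
      omega
    have hRK : ∀ c, R c < K + 1 := by
      intro c
      have : R c ≤ ∑ c, R c := Finset.single_le_sum (f := R) (fun _ _ => Nat.zero_le _) (Finset.mem_univ c)
      omega
    rw [Finset.mem_coe, Finset.mem_image]
    refine ⟨(w.lab, w.pos), ?_, rfl⟩
    rw [hU, Finset.mem_product]
    refine ⟨?_, Finset.mem_univ _⟩
    rw [Finset.mem_biUnion]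
    refine ⟨fun c => ⟨R c, hRK c⟩, ?_, ?_⟩
    · rw [hS, Finset.mem_filter]
      exact ⟨Finset.mem_univ _, hsum⟩
    · rw [Fintype.mem_piFinset]
      intro c
      simp only [hBdef, Set.Finite.mem_toFinset]
      exact hR1 c
  have h1 : ((T n P Q)^k).ncard ≤ U.card := by
    calc ((T n P Q)^k).ncard ≤ (((U.image (fun x => (⟨x.1, x.2⟩ : Wr n H)) : Finset (Wr n H)) : Set (Wr n H))).ncard :=
          Set.ncard_le_ncard hsub (Finset.finite_toSet _)
      _ = (U.image (fun x => (⟨x.1, x.2⟩ : Wr n H))).card := Set.ncard_coe_finset _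
      _ ≤ U.card := Finset.card_image_le
  have h2 : (U.card : ℝ) ≤ ((K+1 : ℕ) : ℝ)^(n+2) * (C^(n+2) * v ^ K) * ((Nat.factorial (n+2) : ℕ) : ℝ) := by
    rw [hU, Finset.card_product]
    have h3 : (Finset.univ : Finset (Equiv.Perm (Fin (n+2)))).card = Nat.factorial (n+2) := by
      rw [Finset.card_univ, Fintype.card_perm, Fintype.card_fin]
    rw [h3, Nat.cast_mul]
    apply mul_le_mul_of_nonneg_right _ (Nat.cast_nonneg _)
    have h4 : (S.biUnion (fun R => Fintype.piFinset (fun c => B (R c)))).card ≤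
        ∑ R ∈ S, (Fintype.piFinset (fun c => B (R c))).card := Finset.card_biUnion_le
    have h5 : ∀ R ∈ S, ((Fintype.piFinset (fun c => B (R c))).card : ℝ) ≤ C^(n+2) * v^K := by
      intro R hR
      rw [hS, Finset.mem_filter] at hR
      rw [Fintype.card_piFinset, Nat.cast_prod]
      calc ∏ c, ((B (R c)).card : ℝ) ≤ ∏ c : Fin (n+2), (C * v ^ (R c : ℕ)) :=
            Finset.prod_le_prod (fun _ _ => Nat.cast_nonneg _) (fun c _ => hBcard _)
        _ = C^(n+2) * v ^ (∑ c, (R c : ℕ)) := by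
            rw [Finset.prod_mul_distrib, Finset.prod_pow_eq_pow_sum]
            simp
        _ ≤ C^(n+2) * v^K := by
            apply mul_le_mul_of_nonneg_left _ (pow_nonneg hC _)
            exact pow_le_pow_right₀ hv hR.2
    calc ((S.biUnion (fun R => Fintype.piFinset (fun c => B (R c)))).card : ℝ)
        ≤ ((∑ R ∈ S, (Fintype.piFinset (fun c => B (R c))).card : ℕ) : ℝ) := by exact_mod_cast h4
      _ = ∑ R ∈ S, ((Fintype.piFinset (fun c => B (R c))).card : ℝ) := by push_cast; rfl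
      _ ≤ ∑ R ∈ S, (C^(n+2) * v^K) := Finset.sum_le_sum h5
      _ = (S.card : ℝ) * (C^(n+2) * v^K) := by rw [Finset.sum_const, nsmul_eq_mul]
      _ ≤ ((K+1 : ℕ) : ℝ)^(n+2) * (C^(n+2) * v ^ K) := by
          apply mul_le_mul_of_nonneg_right _ (mul_nonneg (pow_nonneg hC _) (pow_nonneg (by linarith) _))
          have : S.card ≤ (K+1)^(n+2) := by
            calc S.card ≤ (Finset.univ : Finset (Fin (n+2) → Fin (K+1))).card := Finset.card_filter_le _ _
              _ = (K+1)^(n+2) := by simp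
          exact_mod_cast this
  exact le_trans (by exact_mod_cast h1) h2

lemma mv_mem_T (P Q : Subgroup H) {s : Equiv.Perm (Fin (n+2))} (hs : IsMove s) : (mv s : Wr n H) ∈ T n P Q :=
  ⟨1, P.one_mem, 1, Q.one_mem, s, hs, 1, P.one_mem, 1, Q.one_mem, by simp [tog_one]⟩

lemma sweep_aux (P Q : Subgroup H) (k : ℕ) : k + 1 ≤ n + 1 → ∀ p ∈ P, ∃ ρ : Equiv.Perm (Fin (n+2)),
    (∀ j : Fin (n+2), ((ρ j : Fin (n+2)) : ℕ) = if (j : ℕ) = 0 then k+1 else if (j:ℕ) ≤ k+1 then j - 1 else j) ∧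
    (tog p 1 * mv ρ : Wr n H) ∈ (T n P Q)^(k+1) := by
  induction k with
  | zero =>
    intro hk p hp
    refine ⟨Equiv.swap (Fin.castSucc 0) (Fin.succ 0), ?_, ?_⟩
    · intro j
      by_cases h0 : j = Fin.castSucc (0 : Fin (n+1))
      · rw [h0, Equiv.swap_apply_left]; simp
      · by_cases h1 : j = Fin.succ (0 : Fin (n+1))
        · rw [h1, Equiv.swap_apply_right]; simp
        · rw [Equiv.swap_apply_of_ne_of_ne h0 h1]
          have h0' : (j : ℕ) ≠ 0 := by
            intro h; apply h0; ext; simpa using h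
          have h1' : (j : ℕ) ≠ 1 := by
            intro h; apply h1; ext; simpa using h
          have : ¬ (j : ℕ) ≤ 0 + 1 := by omega
          simp only [h0', this, if_false]
    · rw [zero_add, pow_one]
      exact ⟨p, hp, 1, Q.one_mem, _, Or.inr ⟨0, rfl⟩, 1, P.one_mem, 1, Q.one_mem, by simp [tog_one]⟩
  | succ k ih =>
    intro hk p hp
    obtain ⟨ρ, hρ, hmem⟩ := ih (by omega) p hp
    have hk1 : k + 1 < n + 1 := by omega
    set i : Fin (n+1) := ⟨k+1, hk1⟩ with hi
    refine ⟨Equiv.swap i.castSucc i.succ * ρ, ?_, ?_⟩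
    · intro j
      have hj := hρ j
      rw [Equiv.Perm.mul_apply]
      by_cases h0 : (ρ j : ℕ) = k+1
      · have e0 : ρ j = i.castSucc := by ext; simp [hi, h0]
        rw [e0, Equiv.swap_apply_left]
        rw [h0] at hj
        have hj0 : (j : ℕ) = 0 := by
          by_contra hne
          rw [if_neg hne] at hj
          split_ifs at hj <;> omega
        simp [hj0, hi]
      · by_cases h1 : (ρ j : ℕ) = k+2
        · have e1 : ρ j = i.succ := by ext; simp [hi, h1]
          rw [e1, Equiv.swap_apply_right]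
          rw [h1] at hj
          have hj2 : (j : ℕ) = k+2 := by
            by_cases hne : (j : ℕ) = 0
            · rw [if_pos hne] at hj; omega
            · rw [if_neg hne] at hj
              split_ifs at hj <;> omega
          simp [hj2, hi]
        · have e0 : ρ j ≠ i.castSucc := by
            intro h; apply h0; rw [h]; simp [hi]
          have e1 : ρ j ≠ i.succ := by
            intro h; apply h1; rw [h]; simp [hi]
          rw [Equiv.swap_apply_of_ne_of_ne e0 e1, hj]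
          by_cases hj0 : (j : ℕ) = 0
          · rw [if_pos hj0] at hj; omega
          · rw [if_neg hj0] at hj
            rw [if_neg hj0, if_neg hj0]
            split_ifs at hj ⊢ <;> omega
    · rw [pow_succ, ← mv_mul, ← mul_assoc]
      exact Set.mul_mem_mul hmem (mv_mem_T P Q (Or.inr ⟨i, rfl⟩))

lemma T_pow_tog (P Q : Subgroup H) {k : ℕ} {w : Wr n H} (hw : w ∈ (T n P Q)^(k+1)) {p q : H} (hp : p ∈ P)
    (hq : q ∈ Q) : w * tog p q ∈ (T n P Q)^(k+1) := by
  rw [pow_succ] at hw ⊢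
  obtain ⟨w0, hw0, t, ht, rfl⟩ := Set.mem_mul.mp hw
  obtain ⟨p1, hp1, q1, hq1, s, hs, p', hp', q', hq', rfl⟩ := ht
  rw [mul_assoc]
  refine Set.mul_mem_mul hw0 ⟨p1, hp1, q1, hq1, s, hs, p' * p, P.mul_mem hp' hp, q' * q, Q.mul_mem hq' hq, ?_⟩
  rw [mul_assoc, tog_mul]

/-- one sweep -/
lemma sweep (P Q : Subgroup H) {p q : H} (hp : p ∈ P) (hq : q ∈ Q) : ∃ w ∈ (T n P Q)^(n+1),
    (∀ i : Fin (n+2), w.lab i = if i = 0 then p * q else 1) ∧
    (∀ j : Fin (n+2), ((w.pos j : Fin (n+2)) : ℕ) = if (j : ℕ) = 0 then n+1 else j - 1) := by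
  obtain ⟨ρ, hρ, hmem⟩ := sweep_aux (n := n) P Q n le_rfl p hp
  refine ⟨tog p 1 * mv ρ * tog 1 q, T_pow_tog P Q hmem P.one_mem hq, ?_, ?_⟩
  · intro i
    have h1 : (tog p 1 * mv ρ * tog 1 q : Wr n H).lab i =
        (tog p 1 : Wr n H).lab i * (tog 1 q : Wr n H).lab (ρ i) := by
      simp
    rw [h1]
    by_cases h0 : i = 0
    · subst h0
      have : ρ 0 = Fin.last (n+1) := by
        ext; rw [hρ 0]; simp
      rw [this]; simp
    · have hi0 : (i : ℕ) ≠ 0 := by
        intro h; apply h0; ext; simpa using h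
      have h2 : (tog p 1 : Wr n H).lab i = 1 := by
        by_cases h3 : i = Fin.last (n+1)
        · rw [h3]; simp
        · exact tog_other _ _ _ h0 h3
      have h4 : (tog 1 q : Wr n H).lab (ρ i) = 1 := by
        by_cases h3 : ρ i = 0
        · rw [h3]; simp
        · apply tog_other _ _ _ h3
          intro h5
          have := hρ i
          rw [h5, if_neg hi0] at this
          simp only [Fin.val_last] at this
          have hlt := i.isLt
          split_ifs at this <;> omega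
      rw [h2, h4, if_neg h0, one_mul]
  · intro j
    have : (tog p 1 * mv ρ * tog 1 q : Wr n H).pos j = ρ j := by simp
    rw [this, hρ j]
    have hlt := j.isLt
    split_ifs <;> omega

lemma sweeps (P Q : Subgroup H) (x : Fin (n+2) → H) (hx : ∀ c, x c ∈ Bl P Q 1) (k : ℕ) : k ≤ n + 2 →
    ∃ w ∈ (T n P Q)^((n+1)*k),
    (∀ c : Fin (n+2), w.lab c = if (c : ℕ) < k then x c else 1) ∧
    (∀ c : Fin (n+2), ((w.pos c : Fin (n+2)) : ℕ) = if (c : ℕ) < k then c + (n + 2 - k) else c - k) := by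
  induction k with
  | zero =>
    intro _
    refine ⟨1, by simp, ?_, ?_⟩ <;> intro c <;> simp
  | succ k ih =>
    intro hk
    obtain ⟨w, hw, hlab, hpos⟩ := ih (by omega)
    have hxk := hx ⟨k, by omega⟩
    rw [Bl_mem_succ] at hxk
    obtain ⟨h', hh', p, hp, q, hq, hpq⟩ := hxk
    rw [Bl_zero, Set.mem_one] at hh'
    subst hh'
    rw [one_mul] at hpq
    obtain ⟨s, hs, hslab, hspos⟩ := sweep (n := n) P Q hp hq
    refine ⟨w * s, ?_, ?_, ?_⟩
    · rw [Nat.mul_succ, pow_add]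
      exact Set.mul_mem_mul hw hs
    · intro c
      rw [mul_lab, hlab, hslab]
      have hp := hpos c
      by_cases hck : (c : ℕ) = k
      · have h0 : w.pos c = 0 := by
          ext; rw [hp]; simp [hck]
        have hc : c = ⟨k, by omega⟩ := by ext; exact hck
        rw [if_neg (by omega), if_pos h0, one_mul, if_pos (by omega), hc, hpq]
      · have h0 : w.pos c ≠ 0 := by
          intro h
          rw [h] at hp
          simp only [Fin.val_zero] at hp
          have hlt := c.isLt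
          split_ifs at hp <;> omega
        rw [if_neg h0, mul_one]
        by_cases h1 : (c : ℕ) < k
        · rw [if_pos h1, if_pos (by omega)]
        · rw [if_neg h1, if_neg (by omega)]
    · intro c
      rw [mul_pos', Equiv.Perm.mul_apply, hspos, hpos c]
      have hlt := c.isLt
      split_ifs <;> omega

lemma lab_mem (P Q : Subgroup H) (r : ℕ) : ∀ x : Fin (n+2) → H, (∀ c, x c ∈ Bl P Q r) →
    (⟨x, 1⟩ : Wr n H) ∈ (T n P Q)^((n+1)*(n+2)*r) := by
  induction r with
  | zero =>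
    intro x hx
    have : x = fun _ => 1 := by
      ext c
      have := hx c
      rwa [Bl_zero, Set.mem_one] at this
    subst this
    rw [mul_zero, pow_zero, Set.mem_one]
    rfl
  | succ r ih =>
    intro x hx
    have h1 : ∀ c, ∃ y ∈ Bl P Q r, ∃ z ∈ Bl P Q 1, y * z = x c := by
      intro c
      have := hx c
      rw [Bl_add] at this
      exact Set.mem_mul.mp this
    choose y hy z hz hyz using h1
    obtain ⟨w, hw, hlab, hpos⟩ := sweeps (n := n) P Q z hz (n+2) le_rfl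
    have hw' : w = ⟨z, 1⟩ := by
      ext c
      · rw [hlab c, if_pos c.isLt]
      · rw [hpos c, if_pos c.isLt]; simp
    rw [hw'] at hw
    have h2 : (⟨x, 1⟩ : Wr n H) = ⟨y, 1⟩ * ⟨z, 1⟩ := by
      ext c
      · simp [hyz c]
      · simp
    rw [h2, Nat.mul_succ, pow_add]
    exact Set.mul_mem_mul (ih y hy) hw

lemma T_pow_card_ge (P Q : Subgroup H) [Finite P] [Finite Q] (r : ℕ) :
    ((Bl P Q r).ncard)^(n+2) ≤ ((T n P Q)^((n+1)*(n+2)*r)).ncard := by
  classical
  set B : Finset H := (Bl_finite P Q r).toFinset with hB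
  have hBc : (Bl P Q r).ncard = B.card := Set.ncard_eq_toFinset_card _ (Bl_finite P Q r)
  rw [hBc]
  have h1 : (Fintype.piFinset (fun _ : Fin (n+2) => B)).card = B.card^(n+2) := by
    rw [Fintype.card_piFinset]; simp
  rw [← h1]
  have hinj : Function.Injective (fun x : Fin (n+2) → H => (⟨x, 1⟩ : Wr n H)) := by
    intro x y h
    exact congrArg Wr.lab h
  rw [← Finset.card_image_of_injective _ hinj, ← Set.ncard_coe_finset]
  apply Set.ncard_le_ncard _ (T_pow_finite P Q _)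
  intro w hw
  rw [Finset.mem_coe, Finset.mem_image] at hw
  obtain ⟨x, hx, rfl⟩ := hw
  rw [Fintype.mem_piFinset] at hx
  apply lab_mem
  intro c
  have := hx c
  rw [hB, Set.Finite.mem_toFinset] at this
  exact this

end Wr
end Pool.Agent.Helper125
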